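import Pool.Agent.Lib_helper79.BlockWQO

/-! Closure properties of block structures and the WQO theorem for unlabelled graphs. -/

namespace H79.BlockWQO

open Set

variable {V : Type} {G : SimpleGraph V}

theorem Blk.of_subsingleton {ℓ : V → ℕ} (n : ℕ) {A : Set V} (h : A.Subsingleton) :
    Blk G ℓ n A := by
  induction n generalizing A with
  | zero => exact h
  | succ n ih =>
    refine ⟨fun _ => 0, fun _ _ => True, ?_, ?_⟩
    · intro u _ v _ h; exact absurd h (lt_irrefl _)
    · intro k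
      exact ih (h.anti (fun v hv => hv.1))

theorem Blk.subset {ℓ : V → ℕ} {n : ℕ} {A A' : Set V} (h : Blk G ℓ n A) (hA : A' ⊆ A) :
    Blk G ℓ n A' := by
  induction n generalizing A A' with
  | zero => exact Set.Subsingleton.anti h hA
  | succ n ih =>
    obtain ⟨b, R, hR, hb⟩ := h
    refine ⟨b, R, fun u hu v hv => hR u (hA hu) v (hA hv), fun k => ?_⟩
    exact ih (hb k) (fun v hv => ⟨hA hv.1, hv.2⟩)

theorem Blk.relabel {ℓ ℓ' : V → ℕ} (g : ℕ → ℕ) {n : ℕ} {A : Set V} (h : Blk G ℓ n A)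
    (hg : ∀ v ∈ A, ℓ v = g (ℓ' v)) : Blk G ℓ' n A := by
  induction n generalizing A with
  | zero => exact h
  | succ n ih =>
    obtain ⟨b, R, hR, hb⟩ := h
    refine ⟨b, fun p q => R (g p) (g q), fun u hu v hv huv => ?_, fun k => ?_⟩
    · rw [hR u hu v hv huv, hg u hu, hg v hv]
    · exact ih (hb k) (fun v hv => hg v hv.1)

theorem Blk.succ {ℓ : V → ℕ} {n : ℕ} {A : Set V} (h : Blk G ℓ n A) : Blk G ℓ (n + 1) A := by
  refine ⟨fun _ => 0, fun _ _ => True, ?_, ?_⟩
  · intro u _ v _ h; exact absurd h (lt_irrefl _)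
  · intro k
    exact h.subset (fun v hv => hv.1)

theorem Blk.mono {ℓ : V → ℕ} {n n' : ℕ} {A : Set V} (h : Blk G ℓ n A) (hn : n ≤ n') :
    Blk G ℓ n' A := by
  induction hn with
  | refl => exact h
  | step _ ih => exact ih.succ

/-- bounded number of labels and bounded depth -/
def Str (G : SimpleGraph V) (m n : ℕ) (A : Set V) : Prop :=
  ∃ ℓ : V → ℕ, (∀ v ∈ A, ℓ v < m) ∧ Blk G ℓ n A

theorem Str.mono {m m' n n' : ℕ} {A : Set V} (h : Str G m n A) (hm : m ≤ m') (hn : n ≤ n') :
    Str G m' n' A := by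
  obtain ⟨ℓ, h1, h2⟩ := h
  exact ⟨ℓ, fun v hv => (h1 v hv).trans_le hm, h2.mono hn⟩

theorem Str.subset {m n : ℕ} {A A' : Set V} (h : Str G m n A) (hA : A' ⊆ A) : Str G m n A' := by
  obtain ⟨ℓ, h1, h2⟩ := h
  exact ⟨ℓ, fun v hv => h1 v (hA hv), h2.subset hA⟩

theorem Str.del {m n : ℕ} {A : Set V} {v : V} (h : Str G m (n + 1) (A \ {v})) :
    Str G (2 * m + 1) (n + 1) A := by
  classical
  obtain ⟨ℓ, h1, b, R, hR, hb⟩ := h
  let ℓ' : V → ℕ := fun w => if w = v then 0 else if G.Adj v w then 2 * ℓ w + 1 else 2 * ℓ w + 2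
  have hg : ∀ w, w ≠ v → ℓ w = (ℓ' w - 1) / 2 := by
    intro w hw
    simp only [ℓ', if_neg hw]
    split_ifs
    · omega
    · omega
  have hodd : ∀ w, w ≠ v → (G.Adj v w ↔ ℓ' w % 2 = 1) := by
    intro w hw
    simp only [ℓ', if_neg hw]
    split_ifs with h
    · simp only [h, true_iff]; omega
    · simp only [h, false_iff]; omega
  have hpos : ∀ w, w ≠ v → ℓ' w ≠ 0 := by
    intro w hw
    simp only [ℓ', if_neg hw]
    split_ifs <;> omega
  refine ⟨ℓ', ?_, fun w => if w = v then 0 else b w + 1,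
    fun p q => (p = 0 ∧ q % 2 = 1) ∨ (p ≠ 0 ∧ R ((p - 1) / 2) ((q - 1) / 2)), ?_, ?_⟩
  · intro w hw
    by_cases hwv : w = v
    · simp [ℓ', hwv]
    · have := h1 w ⟨hw, hwv⟩
      simp only [ℓ', if_neg hwv]
      split_ifs <;> omega
  · intro u hu w hw huw
    by_cases hwv : w = v
    · simp [hwv] at huw
    · by_cases huv : u = v
      · subst huv
        have h0 : ℓ' u = 0 := by simp [ℓ']
        rw [hodd w hwv, h0]
        simp
      · simp only [if_neg hwv, if_neg huv] at huw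
        rw [hR u ⟨hu, huv⟩ w ⟨hw, hwv⟩ (by omega), hg u huv, hg w hwv]
        simp [hpos u huv]
  · intro k
    rcases k with _ | k
    · apply Blk.of_subsingleton
      intro x hx y hy
      have hx' : x = v := by
        by_contra hne
        have := hx.2
        simp [hne] at this
      have hy' : y = v := by
        by_contra hne
        have := hy.2
        simp [hne] at this
      rw [hx', hy']
    · have h2 : {w | w ∈ A ∧ (if w = v then 0 else b w + 1) = k + 1} ⊆
          {w | w ∈ A \ {v} ∧ b w = k} := by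
        intro w hw
        obtain ⟨hwA, hw2⟩ := hw
        by_cases hwv : w = v
        · simp [hwv] at hw2
        · simp only [if_neg hwv] at hw2
          exact ⟨⟨hwA, hwv⟩, by omega⟩
      exact ((hb k).subset h2).relabel (fun p => (p - 1) / 2)
        (fun w hw => hg w (h2 hw).1.2)

theorem Str.delFinset {m n : ℕ} (S : Finset V) : ∀ {A : Set V},
    Str G m (n + 1) (A \ S) → Str G (3 ^ S.card * (m + 1)) (n + 1) A := by
  classical
  induction S using Finset.induction_on with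
  | empty =>
    intro A h
    simp only [Finset.coe_empty, Set.sdiff_empty] at h
    exact h.mono (by simp) le_rfl
  | insert v S hv ih =>
    intro A h
    have h1 : Str G m (n + 1) ((A \ {v}) \ (S : Set V)) := by
      apply h.subset
      intro x hx
      refine ⟨hx.1.1, ?_⟩
      simp only [Finset.coe_insert, Set.mem_insert_iff, not_or]
      exact ⟨hx.1.2, hx.2⟩
    have h2 := (ih h1).del
    refine h2.mono ?_ le_rfl
    rw [Finset.card_insert_of_notMem hv, pow_succ]
    have : 1 ≤ 3 ^ S.card * (m + 1) := Nat.one_le_iff_ne_zero.mpr (by positivity)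
    nlinarith

theorem exists_nat_index [Finite V] {β : Type} (c : V → β) :
    ∃ b : V → ℕ, ∀ u v, b u = b v ↔ c u = c v := by
  have : Finite (Set.range c) := Set.finite_range c
  obtain ⟨e, he⟩ := exists_injective_nat (Set.range c)
  refine ⟨fun v => e ⟨c v, v, rfl⟩, fun u v => ?_⟩
  exact ⟨fun h => congrArg Subtype.val (he h), fun h => congrArg e (Subtype.ext h)⟩

/-- unordered version of the successor step, blocks given by an arbitrary index function -/
theorem Blk.of_index [Finite V] {ℓ : V → ℕ} {n : ℕ} {A : Set V} {β : Type} (c : V → β)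
    (R : ℕ → ℕ → Prop)
    (hR : ∀ u ∈ A, ∀ v ∈ A, c u ≠ c v → (G.Adj u v ↔ R (ℓ u) (ℓ v)))
    (hb : ∀ w ∈ A, Blk G ℓ n {v | v ∈ A ∧ c v = c w}) : Blk G ℓ (n + 1) A := by
  obtain ⟨b, hb'⟩ := exists_nat_index c
  refine ⟨b, R, fun u hu v hv huv => hR u hu v hv ?_, fun k => ?_⟩
  · intro h
    rw [← hb'] at h
    omega
  · by_cases h : ∃ w ∈ A, b w = k
    · obtain ⟨w, hw, rfl⟩ := h
      refine (hb w hw).subset ?_
      intro v hv
      exact ⟨hv.1, (hb' v w).mp hv.2⟩
    · apply Blk.of_subsingleton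
      intro x hx
      exact absurd ⟨x, hx.1, hx.2⟩ h

/-- every vertex its own block -/
theorem Blk.one [Finite V] {ℓ : V → ℕ} {A : Set V} (R : ℕ → ℕ → Prop)
    (hR : ∀ u ∈ A, ∀ v ∈ A, u ≠ v → (G.Adj u v ↔ R (ℓ u) (ℓ v))) : Blk G ℓ 1 A := by
  refine Blk.of_index id R hR ?_
  intro w hw x hx y hy
  exact hx.2.trans hy.2.symm

open SimpleGraph in
/-- Graphs with bounded block structure are well-quasi-ordered by the induced subgraph relation. -/
theorem wqo_of_str (m n : ℕ) (N : ℕ → ℕ) (G : ∀ i, SimpleGraph (Fin (N i)))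
    (h : ∀ i, Str (G i) m n Set.univ) : ∃ i j, i < j ∧ G i ⊴ G j := by
  choose ℓ hℓ hb using h
  let f : ℕ → LG := fun i => ⟨Fin (N i), inferInstance, G i, ℓ i, Set.univ⟩
  obtain ⟨i, j, hij, F, hF1, hF2, -⟩ := (blk_pwo m n).exists_lt (f := f)
    (fun i => ⟨hℓ i, hb i⟩)
  refine ⟨i, j, hij, ⟨⟨⟨fun v => (F ⟨v, Set.mem_univ _⟩).1, ?_⟩, ?_⟩⟩⟩
  · intro u v huv
    have := hF1 (Subtype.ext huv)
    exact congrArg Subtype.val this
  · intro u v
    exact (hF2 ⟨u, Set.mem_univ _⟩ ⟨v, Set.mem_univ _⟩).symm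

end H79.BlockWQO
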