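import Mathlib

/-! Block-structured labelled graphs are well-quasi-ordered by label-preserving induced
embeddings (Higman's lemma applied finitely often). -/

namespace H79.BlockWQO

open Set

/-- `Blk G ℓ n A`: the vertex set `A` has an `n`-level ordered block structure in `G` w.r.t. the
labelling `ℓ`. -/
def Blk {V : Type} (G : SimpleGraph V) (ℓ : V → ℕ) : ℕ → Set V → Prop
  | 0, A => A.Subsingleton
  | n + 1, A => ∃ (b : V → ℕ) (R : ℕ → ℕ → Prop),
      (∀ u ∈ A, ∀ v ∈ A, b u < b v → (G.Adj u v ↔ R (ℓ u) (ℓ v))) ∧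
      ∀ k, Blk G ℓ n {v | v ∈ A ∧ b v = k}

structure LG where
  V : Type
  fin : Finite V
  G : SimpleGraph V
  ℓ : V → ℕ
  A : Set V

/-- label preserving induced embedding -/
def Emb (X Y : LG) : Prop :=
  ∃ f : X.A → Y.A, Function.Injective f ∧
    (∀ u v : X.A, X.G.Adj u v ↔ Y.G.Adj (f u) (f v)) ∧ ∀ v : X.A, Y.ℓ (f v) = X.ℓ v

theorem Emb.refl (X : LG) : Emb X X := ⟨id, Function.injective_id, fun _ _ => Iff.rfl, fun _ => rfl⟩

theorem Emb.trans {X Y Z : LG} (h : Emb X Y) (h' : Emb Y Z) : Emb X Z := by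
  obtain ⟨f, hf, hf', hf''⟩ := h
  obtain ⟨g, hg, hg', hg''⟩ := h'
  exact ⟨g ∘ f, hg.comp hf, fun u v => (hf' u v).trans (hg' _ _), fun v => (hg'' _).trans (hf'' _)⟩

instance : IsPreorder LG Emb where
  refl := Emb.refl
  trans := fun _ _ _ => Emb.trans

/-- the `k`-th block -/
def block (X : LG) (b : X.V → ℕ) (k : ℕ) : LG :=
  { X with A := {v | v ∈ X.A ∧ b v = k} }

theorem index_of_sublist {r : LG → LG → Prop} {l l' : List LG} (h : List.SublistForall₂ r l l') :
    ∃ φ : Fin l.length ↪o Fin l'.length, ∀ i, r (l.get i) (l'.get (φ i)) := by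
  rw [List.sublistForall₂_iff] at h
  obtain ⟨m, hm, hs⟩ := h
  rw [List.sublist_iff_exists_fin_orderEmbedding_get_eq] at hs
  obtain ⟨f, hf⟩ := hs
  have hlen := hm.length_eq
  refine ⟨(Fin.castOrderIso hlen).toOrderEmbedding.trans f, fun i => ?_⟩
  have h1 := (List.forall₂_iff_get.mp hm).2 i.1 i.2 (hlen ▸ i.2)
  have h2 := hf (Fin.cast hlen i)
  simp only [RelEmbedding.coe_trans, Function.comp]
  change r (l.get i) (l'.get (f (Fin.cast hlen i)))
  rw [← h2]
  exact h1

theorem exists_bound {V : Type} [Finite V] (b : V → ℕ) : ∃ B, ∀ v, b v < B := by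
  obtain ⟨M, hM⟩ := (Set.finite_range b).bddAbove
  exact ⟨M + 1, fun v => Nat.lt_succ_of_le (hM ⟨v, rfl⟩)⟩

/-- gluing embeddings of blocks. -/
theorem glue (X Y : LG) (b : X.V → ℕ) (b' : Y.V → ℕ) (R : ℕ → ℕ → Prop) (R' : ℕ → ℕ → Prop)
    (hR : ∀ u ∈ X.A, ∀ v ∈ X.A, b u < b v → (X.G.Adj u v ↔ R (X.ℓ u) (X.ℓ v)))
    (hR' : ∀ u ∈ Y.A, ∀ v ∈ Y.A, b' u < b' v → (Y.G.Adj u v ↔ R' (Y.ℓ u) (Y.ℓ v)))
    (hRR : ∀ u ∈ X.A, ∀ v ∈ X.A, (R (X.ℓ u) (X.ℓ v) ↔ R' (X.ℓ u) (X.ℓ v)))
    (B : ℕ) (hB : ∀ v, b v < B) (ψ : ∀ k, k < B → ℕ)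
    (hψ : ∀ k hk k' hk', k < k' → ψ k hk < ψ k' hk')
    (he : ∀ k hk, Emb (block X b k) (block Y b' (ψ k hk))) : Emb X Y := by
  choose e he1 he2 he3 using he
  let F : X.A → Y.A := fun v =>
    ⟨(e (b v) (hB v) ⟨v.1, v.2, rfl⟩).1, (e (b v) (hB v) ⟨v.1, v.2, rfl⟩).2.1⟩
  have hF : ∀ (k : ℕ) (hk : k < B) (v : X.A) (hv : b v = k),
      (F v : Y.V) = (e k hk ⟨v.1, v.2, hv⟩).1 := by
    intro k hk v hv
    subst hv
    rfl
  have hFb : ∀ v : X.A, b' (F v) = ψ (b v) (hB v) := by
    intro v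
    exact (e (b v) (hB v) ⟨v.1, v.2, rfl⟩).2.2
  have hFl : ∀ v : X.A, Y.ℓ (F v) = X.ℓ v := by
    intro v
    exact he3 (b v) (hB v) ⟨v.1, v.2, rfl⟩
  refine ⟨F, ?_, ?_, hFl⟩
  · intro u v huv
    have hb : b u = b v := by
      rcases lt_trichotomy (b (u : X.V)) (b (v : X.V)) with h | h | h
      · have := hψ _ (hB u) _ (hB v) h
        rw [← hFb, ← hFb, huv] at this
        exact absurd this (lt_irrefl _)
      · exact h
      · have := hψ _ (hB v) _ (hB u) h
        rw [← hFb, ← hFb, huv] at this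
        exact absurd this (lt_irrefl _)
    have h1 := hF (b v) (hB v) u hb
    have h2 := hF (b v) (hB v) v rfl
    have h3 : (e (b v) (hB v) ⟨u.1, u.2, hb⟩) = (e (b v) (hB v) ⟨v.1, v.2, rfl⟩) := by
      apply Subtype.ext
      rw [← h1, ← h2, huv]
    have h4 := he1 (b v) (hB v) h3
    have h5 := congrArg Subtype.val h4
    exact Subtype.ext h5
  · have key : ∀ u v : X.A, b u < b v → (X.G.Adj u v ↔ Y.G.Adj (F u) (F v)) := by
      intro u v h
      rw [hR u u.2 v v.2 h, hR' (F u) (F u).2 (F v) (F v).2 (by rw [hFb, hFb]; exact hψ _ _ _ _ h),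
        hFl, hFl]
      exact hRR u u.2 v v.2
    intro u v
    rcases lt_trichotomy (b (u : X.V)) (b (v : X.V)) with h | h | h
    · exact key u v h
    · have h1 := hF (b v) (hB v) u h
      have h2 := hF (b v) (hB v) v rfl
      rw [h1, h2]
      exact he2 (b v) (hB v) ⟨u.1, u.2, h⟩ ⟨v.1, v.2, rfl⟩
    · rw [SimpleGraph.adj_comm, SimpleGraph.adj_comm (G := Y.G)]
      exact key v u h

theorem blk_pwo (m : ℕ) : ∀ n : ℕ,
    {X : LG | (∀ v ∈ X.A, X.ℓ v < m) ∧ Blk X.G X.ℓ n X.A}.PartiallyWellOrderedOn Emb := by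
  intro n
  induction n with
  | zero =>
    rw [partiallyWellOrderedOn_iff_exists_lt]
    intro f hf
    classical
    let t : ℕ → Option (Fin m) := fun i =>
      if h : (f i).A.Nonempty then some ⟨(f i).ℓ h.some, (hf i).1 _ h.some_mem⟩ else none
    have key : ∀ i j, t i = t j → Emb (f i) (f j) := by
      intro i j hij
      by_cases hi : (f i).A.Nonempty
      · by_cases hj : (f j).A.Nonempty
        · simp only [t, hi, hj, dif_pos, Option.some.injEq, Fin.mk.injEq] at hij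
          have si : (f i).A.Subsingleton := (hf i).2
          have e1 : ∀ u : (f i).A, (u : (f i).V) = hi.some := fun u => si u.2 hi.some_mem
          refine ⟨fun _ => ⟨hj.some, hj.some_mem⟩, ?_, ?_, ?_⟩
          · intro u v _
            exact Subtype.ext ((e1 u).trans (e1 v).symm)
          · intro u v
            rw [e1 u, e1 v]
            simp
          · intro v
            rw [e1 v]
            exact hij.symm
        · simp [t, hi, hj] at hij
      · have : IsEmpty (f i).A := ⟨fun v => hi ⟨v.1, v.2⟩⟩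
        exact ⟨fun v => (this.false v).elim, fun v => (this.false v).elim,
          fun v => (this.false v).elim, fun v => (this.false v).elim⟩
    obtain ⟨i, j, hij, ht⟩ := Finite.exists_ne_map_eq_of_infinite t
    rcases lt_or_gt_of_ne hij with h | h
    · exact ⟨i, j, h, key i j ht⟩
    · exact ⟨j, i, h, key j i ht.symm⟩
  | succ n ih =>
    rw [partiallyWellOrderedOn_iff_exists_lt]
    intro f hf
    have h2 := Set.PartiallyWellOrderedOn.partiallyWellOrderedOn_sublistForall₂ Emb ih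
    have h1 : (Set.univ : Set (Fin m → Fin m → Prop)).PartiallyWellOrderedOn (· = ·) :=
      (Set.toFinite _).partiallyWellOrderedOn
    have h := h1.prod h2
    have hb := fun i => (hf i).2
    choose b R hR hblk using hb
    have hfin : ∀ i, Finite (f i).V := fun i => (f i).fin
    have hB : ∀ i, ∃ B, ∀ v, b i v < B := fun i => exists_bound (b i)
    choose B hB using hB
    let L : ℕ → List LG := fun i => (List.range (B i)).map (fun k => block (f i) (b i) k)
    let g : ℕ → (Fin m → Fin m → Prop) × List LG := fun i =>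
      (fun p q => R i p q, L i)
    have hg : ∀ i, g i ∈ (Set.univ : Set (Fin m → Fin m → Prop)) ×ˢ
        {l : List LG | ∀ x, x ∈ l → x ∈ {X : LG | (∀ v ∈ X.A, X.ℓ v < m) ∧
          Blk X.G X.ℓ n X.A}} := by
      intro i
      refine ⟨Set.mem_univ _, ?_⟩
      intro x hx
      obtain ⟨k, -, rfl⟩ := List.mem_map.mp hx
      refine ⟨fun v hv => (hf i).1 v hv.1, hblk i k⟩
    obtain ⟨i, j, hij, hr, hl⟩ := h.exists_lt hg
    refine ⟨i, j, hij, ?_⟩
    obtain ⟨φ, hφ⟩ := index_of_sublist hl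
    have leni : (L i).length = B i := by simp [L]
    have lenj : (L j).length = B j := by simp [L]
    refine glue (f i) (f j) (b i) (b j) (R i) (R j) (hR i) (hR j) ?_ (B i) (hB i)
      (fun k hk => (φ ⟨k, by rw [leni]; exact hk⟩ : ℕ)) ?_ ?_
    · intro u hu v hv
      have := congrFun (congrFun hr ⟨(f i).ℓ u, (hf i).1 u hu⟩) ⟨(f i).ℓ v, (hf i).1 v hv⟩
      simp only [g] at this
      exact iff_of_eq this
    · intro k hk k' hk' hkk
      exact φ.strictMono (by simpa using hkk)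
    · intro k hk
      have := hφ ⟨k, by rw [leni]; exact hk⟩
      simpa [g, L] using this

end H79.BlockWQO
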