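import Pool.Agent.Lib_helper79.DiaCograph

/-! More block-structure lemmas: twins, chain graphs and `P₁+2P₂`-free bipartite graphs. -/

namespace H79.BlockWQO

open Set

variable {V : Type} {G : SimpleGraph V}

theorem Str.delFinset' {m n k : ℕ} {S : Finset V} {A : Set V} (hk : S.card ≤ k)
    (h : Str G m (n + 1) (A \ S)) : Str G (3 ^ k * (m + 1)) (n + 1) A :=
  (h.delFinset S).mono (Nat.mul_le_mul_right _ (Nat.pow_le_pow_right (by norm_num) hk)) le_rfl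

/-- if vertices with equal labels are twins then every vertex can be its own block -/
theorem Blk.one_of_twins [Finite V] {ℓ : V → ℕ} {A : Set V}
    (h : ∀ u ∈ A, ∀ u' ∈ A, ∀ v ∈ A, ℓ u = ℓ u' → v ≠ u → v ≠ u' → G.Adj u v → G.Adj u' v) :
    Blk G ℓ 1 A := by
  refine Blk.one (fun p q => ∃ u ∈ A, ∃ v ∈ A, ℓ u = p ∧ ℓ v = q ∧ G.Adj u v) ?_
  intro u' hu' v' hv' hne
  constructor
  · intro h'
    exact ⟨u', hu', v', hv', rfl, rfl, h'⟩
  · rintro ⟨u, hu, v, hv, e1, e2, huv⟩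
    by_cases hvu' : v = u'
    · subst hvu'
      have : G.Adj v' v := by
        refine h u hu v' hv' v hv (by rw [e1, e2]) huv.ne' hne huv
      exact this.symm
    · have h1 : G.Adj u' v := h u hu u' hu' v hv e1 huv.ne' hvu' huv
      have h2 : G.Adj v' u' := h v hv v' hv' u' hu' e2 (Ne.symm hvu') hne h1.symm
      exact h2.symm

/-- independent sets -/
theorem Blk.indep [Finite V] {ℓ : V → ℕ} {A : Set V} (h : ∀ u ∈ A, ∀ v ∈ A, ¬ G.Adj u v) :
    Blk G ℓ 1 A :=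
  Blk.one (fun _ _ => False) (fun u hu v hv _ => by simp [h u hu v hv])

/-- the rank functions of a chain graph -/
theorem chain_rank [Finite V] {P Q : Set V}
    (hch : ∀ p ∈ P, ∀ p' ∈ P, ∀ q ∈ Q, ∀ q' ∈ Q, G.Adj p q → G.Adj p' q' →
      G.Adj p q' ∨ G.Adj p' q) :
    ∃ f g : V → ℕ, (∀ p ∈ P, ∀ q ∈ Q, (G.Adj p q ↔ f p < g q)) ∧
      (∀ p ∈ P, ∀ p' ∈ P, f p ≤ f p' → ∀ q ∈ Q, G.Adj p' q → G.Adj p q) ∧
      (∀ p ∈ P, ∀ p' ∈ P, (∀ q ∈ Q, G.Adj p' q → G.Adj p q) → f p ≤ f p') ∧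
      (∀ q ∈ Q, ∀ q' ∈ Q, (∀ p ∈ P, G.Adj p q → G.Adj p q') → g q ≤ g q') := by
  classical
  have := Fintype.ofFinite V
  let f : V → ℕ := fun p => (Finset.univ.filter (fun q => q ∈ Q ∧ ¬ G.Adj p q)).card
  let g : V → ℕ := fun q => Finset.univ.sup (fun p => if p ∈ P ∧ G.Adj p q then f p + 1 else 0)
  have mono : ∀ p ∈ P, ∀ p' ∈ P, f p ≤ f p' → ∀ q ∈ Q, G.Adj p' q → G.Adj p q := by
    intro p hp p' hp' hle q hq hp'q
    by_contra hpq
    have hsub : (Finset.univ.filter (fun q => q ∈ Q ∧ ¬ G.Adj p' q)) ⊂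
        (Finset.univ.filter (fun q => q ∈ Q ∧ ¬ G.Adj p q)) := by
      rw [Finset.ssubset_iff_of_subset]
      · exact ⟨q, by simp [hq, hpq], by simp [hp'q]⟩
      · intro q' hq'
        simp only [Finset.mem_filter, Finset.mem_univ, true_and] at hq' ⊢
        refine ⟨hq'.1, fun h => ?_⟩
        rcases hch p hp p' hp' q' hq'.1 q hq h hp'q with h1 | h1
        · exact hpq h1
        · exact hq'.2 h1
    have := Finset.card_lt_card hsub
    simp only [f] at hle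
    omega
  refine ⟨f, g, ?_, mono, ?_, ?_⟩
  · intro p hp q hq
    constructor
    · intro h
      have : (if p ∈ P ∧ G.Adj p q then f p + 1 else 0) ≤ g q :=
        Finset.le_sup (f := fun p => if p ∈ P ∧ G.Adj p q then f p + 1 else 0) (Finset.mem_univ p)
      rw [if_pos ⟨hp, h⟩] at this
      omega
    · intro h
      obtain ⟨p', -, hp'⟩ := (Finset.lt_sup_iff).mp h
      split_ifs at hp' with hc
      · exact mono p hp p' hc.1 (by omega) q hq hc.2
      · omega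
  · intro p hp p' hp' h
    apply Finset.card_le_card
    intro q hq
    simp only [Finset.mem_filter, Finset.mem_univ, true_and] at hq ⊢
    exact ⟨hq.1, fun h' => hq.2 (h q hq.1 h')⟩
  · intro q hq q' hq' h
    apply Finset.sup_mono_fun
    intro p _
    by_cases hc : p ∈ P ∧ G.Adj p q
    · rw [if_pos hc, if_pos ⟨hc.1, h p hc.1 hc.2⟩]
    · rw [if_neg hc]; exact Nat.zero_le _

/-- chain graphs -/
theorem chain_blk [Finite V] {ℓ : V → ℕ} {P Q : Set V} (isP : ℕ → Prop)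
    (hP : ∀ u ∈ P, ∀ v ∈ P, ¬ G.Adj u v) (hQ : ∀ u ∈ Q, ∀ v ∈ Q, ¬ G.Adj u v)
    (lP : ∀ u ∈ P, isP (ℓ u)) (lQ : ∀ u ∈ Q, ¬ isP (ℓ u))
    (hch : ∀ p ∈ P, ∀ p' ∈ P, ∀ q ∈ Q, ∀ q' ∈ Q, G.Adj p q → G.Adj p' q' →
      G.Adj p q' ∨ G.Adj p' q) :
    Blk G ℓ 2 (P ∪ Q) := by
  classical
  obtain ⟨f, g, hfg, -, -, -⟩ := chain_rank hch
  have hPQ : ∀ u ∈ Q, u ∉ P := fun u hu hp => lQ u hu (lP u hp)
  refine ⟨fun v => if v ∈ P then 2 * f v + 1 else 2 * g v, fun x y => isP x ∧ ¬ isP y, ?_, ?_⟩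
  · rintro u (hu | hu) v (hv | hv) huv
    · simp [lP u hu, lP v hv, hP u hu v hv]
    · simp only [if_pos hu, if_neg (hPQ v hv)] at huv
      simp only [lP u hu, lQ v hv, not_false_eq_true, and_self, iff_true]
      rw [hfg u hu v hv]
      omega
    · simp only [if_pos hv, if_neg (hPQ u hu)] at huv
      simp only [lQ u hu, false_and, iff_false]
      intro h
      have := (hfg v hv u hu).mp h.symm
      omega
    · simp [lQ u hu, hQ u hu v hv]
  · intro k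
    apply Blk.indep
    rintro u ⟨hu | hu, huk⟩ v ⟨hv | hv, hvk⟩
    · exact hP u hu v hv
    · simp only [if_pos hu] at huk
      simp only [if_neg (hPQ v hv)] at hvk
      omega
    · simp only [if_neg (hPQ u hu)] at huk
      simp only [if_pos hv] at hvk
      omega
    · exact hQ u hu v hv

/-- `P₁+2P₂`-free bipartite graphs -/
theorem bip_blk [Finite V] {ℓ : V → ℕ} {P Q : Set V} (isP : ℕ → Prop)
    (hP : ∀ u ∈ P, ∀ v ∈ P, ¬ G.Adj u v) (hQ : ∀ u ∈ Q, ∀ v ∈ Q, ¬ G.Adj u v)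
    (lP : ∀ u ∈ P, isP (ℓ u)) (lQ : ∀ u ∈ Q, ¬ isP (ℓ u))
    (h1 : ∀ p1 ∈ P, ∀ p2 ∈ P, ∀ p3 ∈ P, ∀ q1 ∈ Q, ∀ q2 ∈ Q, G.Adj p1 q1 → G.Adj p2 q2 →
      ¬ G.Adj p1 q2 → ¬ G.Adj p2 q1 → G.Adj p3 q1 ∨ G.Adj p3 q2)
    (h2 : ∀ q1 ∈ Q, ∀ q2 ∈ Q, ∀ q3 ∈ Q, ∀ p1 ∈ P, ∀ p2 ∈ P, G.Adj p1 q1 → G.Adj p2 q2 →
      ¬ G.Adj p1 q2 → ¬ G.Adj p2 q1 → G.Adj p1 q3 ∨ G.Adj p2 q3) :
    Blk G ℓ 3 (P ∪ Q) := by
  classical
  have hPQ : ∀ u ∈ Q, u ∉ P := fun u hu hp => lQ u hu (lP u hp)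
  have hQP : ∀ u ∈ P, u ∉ Q := fun u hp hu => lQ u hu (lP u hp)
  -- the relation on `Q`
  let r : V → V → Prop := fun q q' => q = q' ∨
    (q ∈ Q ∧ q' ∈ Q ∧ ∃ p ∈ P, ¬ G.Adj p q ∧ ¬ G.Adj p q')
  have rsymm : ∀ q q', r q q' → r q' q := by
    rintro q q' (h | ⟨hq, hq', p, hp, a, b⟩)
    · exact Or.inl h.symm
    · exact Or.inr ⟨hq', hq, p, hp, b, a⟩
  have rtrans : ∀ q q' q'', r q q' → r q' q'' → r q q'' := by
    rintro q q' q'' (h | ⟨hq, hq', p, hp, a, b⟩) (h' | ⟨_, hq'', p', hp', a', b'⟩)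
    · exact Or.inl (h.trans h')
    · subst h; exact Or.inr ⟨by assumption, hq'', p', hp', a', b'⟩
    · subst h'; exact Or.inr ⟨hq, hq', p, hp, a, b⟩
    · by_cases c1 : G.Adj p q''
      · by_cases c2 : G.Adj p' q
        · -- `p q''`, `p' q`, isolated `q'`
          rcases h2 q'' hq'' q hq q' hq' p hp p' hp' c1 c2 a b' with h | h
          · exact absurd h b
          · exact absurd h a'
        · exact Or.inr ⟨hq, hq'', p', hp', c2, b'⟩
      · exact Or.inr ⟨hq, hq'', p, hp, a, c1⟩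
  let s : Setoid V := ⟨r, fun q => Or.inl rfl, fun {a b} h => rsymm a b h,
    fun {a b c} h h' => rtrans a b c h h'⟩
  let c : V → Option (Quotient s) := fun v =>
    if v ∈ Q then some (Quotient.mk s v) else
      if h : ∃ q ∈ Q, ¬ G.Adj v q then some (Quotient.mk s h.choose) else none
  have cQ : ∀ q ∈ Q, c q = some (Quotient.mk s q) := fun q hq => by simp only [c, if_pos hq]
  have cP : ∀ p ∈ P, ∀ q ∈ Q, ¬ G.Adj p q → c p = some (Quotient.mk s q) := by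
    intro p hp q hq hpq
    have h : ∃ q ∈ Q, ¬ G.Adj p q := ⟨q, hq, hpq⟩
    simp only [c, if_neg (hQP p hp), dif_pos h, Option.some.injEq]
    exact Quotient.sound (Or.inr ⟨h.choose_spec.1, hq, p, hp, h.choose_spec.2, hpq⟩ :
      r h.choose q)
  refine Blk.of_index c (fun x y => isP x ↔ ¬ isP y) ?_ ?_
  · rintro u (hu | hu) v (hv | hv) huv
    · simp [lP u hu, lP v hv, hP u hu v hv]
    · simp only [lP u hu, lQ v hv, not_false_eq_true, iff_true]
      by_contra hn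
      exact huv ((cP u hu v hv hn).trans (cQ v hv).symm)
    · simp only [lQ u hu, lP v hv, not_true_eq_false, iff_true]
      by_contra hn
      exact huv ((cQ u hu).trans (cP v hv u hu (fun h => hn h.symm)).symm)
    · simp [lQ u hu, lQ v hv, hQ u hu v hv]
  · intro w hw
    have key := chain_blk (G := G) (ℓ := ℓ) (P := {v | v ∈ P ∧ c v = c w})
      (Q := {v | v ∈ Q ∧ c v = c w}) isP
      (fun u hu v hv => hP u hu.1 v hv.1) (fun u hu v hv => hQ u hu.1 v hv.1)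
      (fun u hu => lP u hu.1) (fun u hu => lQ u hu.1) ?_
    · refine key.subset ?_
      rintro v ⟨hv | hv, hc⟩
      · exact Or.inl ⟨hv, hc⟩
      · exact Or.inr ⟨hv, hc⟩
    · rintro p ⟨hp, hcp⟩ p' ⟨hp', hcp'⟩ q ⟨hq, hcq⟩ q' ⟨hq', hcq'⟩ e1 e2
      by_contra hcon
      push Not at hcon
      obtain ⟨n1, n2⟩ := hcon
      -- `q` and `q'` are related
      have hr : r q q' := by
        have : (some (Quotient.mk s q) : Option (Quotient s)) = some (Quotient.mk s q') := by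
          rw [← cQ q hq, ← cQ q' hq', hcq, hcq']
        exact Quotient.exact (Option.some.inj this)
      rcases hr with h | ⟨_, _, p3, hp3, a, b⟩
      · subst h; exact n1 e1
      · rcases h1 p hp p' hp' p3 hp3 q hq q' hq' e1 e2 n1 n2 with h | h
        · exact a h
        · exact b h

end H79.BlockWQO
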