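import Pool.Agent.Lib_helper79.BlockStr

/-! Diamond-free graphs without an induced `P₄` have a bounded block structure. -/

namespace H79.BlockWQO

open Set

variable {V : Type} {G : SimpleGraph V}

/-- `G` has no induced diamond, in first order form -/
def Dia (G : SimpleGraph V) : Prop :=
  ∀ a b c d, G.Adj a b → G.Adj a c → G.Adj a d → G.Adj b c → G.Adj b d → c ≠ d → G.Adj c d

/-- no induced `P₄` inside `A` -/
def P4free (G : SimpleGraph V) (A : Set V) : Prop :=
  ∀ p ∈ A, ∀ q ∈ A, ∀ r ∈ A, ∀ s ∈ A, G.Adj p q → G.Adj q r → G.Adj r s →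
    ¬ G.Adj p r → ¬ G.Adj p s → ¬ G.Adj q s → False

/-- being in the same component (of an induced `P₄`-free set) -/
def Rel (G : SimpleGraph V) (A : Set V) (u v : V) : Prop :=
  u ∈ A ∧ v ∈ A ∧ (u = v ∨ G.Adj u v ∨ ∃ c ∈ A, G.Adj u c ∧ G.Adj c v)

theorem Rel.symm {A : Set V} {u v : V} (h : Rel G A u v) : Rel G A v u := by
  obtain ⟨hu, hv, h⟩ := h
  refine ⟨hv, hu, ?_⟩
  rcases h with h | h | ⟨c, hc, h1, h2⟩
  · exact Or.inl h.symm
  · exact Or.inr (Or.inl h.symm)
  · exact Or.inr (Or.inr ⟨c, hc, h2.symm, h1.symm⟩)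

theorem Rel.step {A : Set V} (hP : P4free G A) {u v w : V} (h : Rel G A u v) (hw : w ∈ A)
    (hvw : G.Adj v w) : Rel G A u w := by
  obtain ⟨hu, hv, h⟩ := h
  refine ⟨hu, hw, ?_⟩
  rcases h with h | h | ⟨c, hc, h1, h2⟩
  · subst h; exact Or.inr (Or.inl hvw)
  · exact Or.inr (Or.inr ⟨v, hv, h, hvw⟩)
  · by_cases e1 : G.Adj u v
    · exact Or.inr (Or.inr ⟨v, hv, e1, hvw⟩)
    by_cases e2 : G.Adj u w
    · exact Or.inr (Or.inl e2)
    by_cases e3 : G.Adj c w
    · exact Or.inr (Or.inr ⟨c, hc, h1, e3⟩)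
    exact (hP u hu c hc v hv w hw h1 h2 hvw e1 e2 e3).elim

theorem Rel.trans {A : Set V} (hP : P4free G A) {u v w : V} (h : Rel G A u v)
    (h' : Rel G A v w) : Rel G A u w := by
  obtain ⟨hv, hw, h'⟩ := h'
  rcases h' with h' | h' | ⟨c, hc, h1, h2⟩
  · subst h'; exact h
  · exact h.step hP hw h'
  · exact (h.step hP hc h1).step hP hw h2

section bic

variable {A C : Set V} (hD : Dia G) (hP : P4free G A)
  (hCA : C ⊆ A) (hC : ∀ u ∈ C, ∀ v ∈ C, u ≠ v → ¬ G.Adj u v → ∃ c ∈ C, G.Adj u c ∧ G.Adj c v)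
  (hnd : ∀ v ∈ C, ∃ w ∈ C, w ≠ v ∧ ¬ G.Adj v w)

include hD hP hCA hC hnd

theorem bic_step1 {r : V} (hr : r ∈ C) :
    ∃ p ∈ C, ∃ q ∈ C, G.Adj r p ∧ G.Adj r q ∧ p ≠ q ∧ ¬ G.Adj p q := by
  by_contra hcon
  push Not at hcon
  obtain ⟨v, hv, hvr, hrv⟩ := hnd r hr
  obtain ⟨c, hc, hrc, hcv⟩ := hC r hr v hv (Ne.symm hvr) hrv
  obtain ⟨w, hw, hwc, hcw⟩ := hnd c hc
  have hwr : w ≠ r := by
    rintro rfl
    exact hcw hrc.symm
  have hrw : ¬ G.Adj r w := by
    intro h
    exact hcw (hcon c hc w hw hrc h (Ne.symm hwc))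
  obtain ⟨d, hd, hrd, hdw⟩ := hC r hr w hw (Ne.symm hwr) hrw
  have hcd : G.Adj c d := by
    apply hcon c hc d hd hrc hrd
    rintro rfl
    exact hcw hdw
  have hvd : ¬ G.Adj d v := by
    intro h
    exact hrv (hD c d r v hcd hrc.symm hcv hrd.symm h (Ne.symm hvr))
  by_cases hvw : G.Adj v w
  · exact hP r (hCA hr) d (hCA hd) w (hCA hw) v (hCA hv) hrd hdw hvw.symm hrw hrv hvd
  · exact hP v (hCA hv) c (hCA hc) d (hCA hd) w (hCA hw) hcv.symm hcd hdw
      (fun h => hvd h.symm) hvw hcw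

theorem bic_step2 {r v : V} (hr : r ∈ C) (hv : v ∈ C) (hvr : v ≠ r) (hrv : ¬ G.Adj r v)
    {p : V} (hp : p ∈ C) (hrp : G.Adj r p) : G.Adj v p := by
  by_contra hvp
  obtain ⟨c, hc, hrc, hcv⟩ := hC r hr v hv (Ne.symm hvr) hrv
  have star : ∀ a ∈ C, ∀ c ∈ C, G.Adj r a → ¬ G.Adj v a → G.Adj r c → G.Adj v c → G.Adj a c := by
    intro a ha c hc hra hva hrc hvc
    by_contra hac
    exact hP a (hCA ha) r (hCA hr) c (hCA hc) v (hCA hv) hra.symm hrc hvc.symm hac
      (fun h => hva h.symm) hrv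
  have hpc := star p hp c hc hrp hvp hrc hcv.symm
  obtain ⟨x, hx, y, hy, hrx, hry, hxy, hnxy⟩ := bic_step1 hD hP hCA hC hnd hr
  have key : ∀ x ∈ C, G.Adj r x → x = c ∨ G.Adj x c := by
    intro x hx hrx
    by_cases hvx : G.Adj v x
    · have := star p hp x hx hrp hvp hrx hvx
      by_cases hxc : x = c
      · exact Or.inl hxc
      · exact Or.inr (hD r p x c hrp hrx hrc this hpc hxc)
    · exact Or.inr (star x hx c hc hrx hvx hrc hcv.symm)
  rcases key x hx hrx with h1 | h1 <;> rcases key y hy hry with h2 | h2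
  · exact hxy (h1.trans h2.symm)
  · subst h1; exact hnxy h2.symm
  · subst h2; exact hnxy h1
  · exact hnxy (hD r c x y hrc hrx hry h1.symm h2.symm hxy)

theorem bic_main {r : V} (hr : r ∈ C) :
    (∀ u ∈ C, ∀ v ∈ C, G.Adj r u → G.Adj r v → ¬ G.Adj u v) ∧
    (∀ u ∈ C, ∀ v ∈ C, ¬ G.Adj r u → ¬ G.Adj r v → ¬ G.Adj u v) ∧
    (∀ u ∈ C, ∀ v ∈ C, G.Adj r u → ¬ G.Adj r v → G.Adj u v) := by
  have s2 := fun {v} (hv : v ∈ C) hvr hrv {p} (hp : p ∈ C) hrp =>
    bic_step2 hD hP hCA hC hnd hr (v := v) hv hvr hrv (p := p) hp hrp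
  refine ⟨?_, ?_, ?_⟩
  · intro u hu v hv hru hrv huv
    obtain ⟨w, hw, hwr, hrw⟩ := hnd r hr
    have h1 := s2 hw hwr hrw hu hru
    have h2 := s2 hw hwr hrw hv hrv
    exact hrw (hD u v r w huv hru.symm h1.symm hrv.symm h2.symm (Ne.symm hwr))
  · intro u hu v hv hru hrv huv
    have hur : u ≠ r := by
      rintro rfl; exact hrv huv
    have hvr : v ≠ r := by
      rintro rfl; exact hru huv.symm
    obtain ⟨x, hx, y, hy, hrx, hry, hxy, hnxy⟩ := bic_step1 hD hP hCA hC hnd hr
    exact hnxy (hD u v x y huv (s2 hu hur hru hx hrx) (s2 hu hur hru hy hry)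
      (s2 hv hvr hrv hx hrx) (s2 hv hvr hrv hy hry) hxy)
  · intro u hu v hv hru hrv
    by_cases hvr : v = r
    · subst hvr; exact hru.symm
    · exact (s2 hv hvr hrv hu hru).symm

end bic

theorem cograph_str [Finite V] {A : Set V} (hD : Dia G) (hP : P4free G A) : Str G 3 3 A := by
  classical
  let s : Setoid V :=
    { r := fun u v => u = v ∨ Rel G A u v
      iseqv :=
        { refl := fun u => Or.inl rfl
          symm := by
            rintro u v (h | h)
            · exact Or.inl h.symm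
            · exact Or.inr h.symm
          trans := by
            rintro u v w (h | h) (h' | h')
            · exact Or.inl (h.trans h')
            · subst h; exact Or.inr h'
            · subst h'; exact Or.inr h
            · exact Or.inr (h.trans hP h') } }
  let c : V → Quotient s := Quotient.mk s
  have hc : ∀ u ∈ A, ∀ v ∈ A, (c u = c v ↔ Rel G A u v) := by
    intro u hu v hv
    constructor
    · intro h
      rcases (Quotient.exact h : u = v ∨ Rel G A u v) with h | h
      · subst h; exact ⟨hu, hv, Or.inl rfl⟩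
      · exact h
    · intro h
      exact Quotient.sound (Or.inr h : u = v ∨ Rel G A u v)
  let Dom : V → Prop := fun v => v ∈ A ∧ ∀ w, Rel G A v w → w ≠ v → G.Adj v w
  let g : Quotient s → V := fun q =>
    if h : ∃ v, c v = q ∧ Dom v then h.choose else q.out
  have hg : ∀ q, c (g q) = q := by
    intro q
    by_cases h : ∃ v, c v = q ∧ Dom v
    · simp only [g, dif_pos h]
      exact h.choose_spec.1
    · simp only [g, dif_neg h]
      exact Quotient.out_eq q
  have hgD : ∀ v, Dom v → Dom (g (c v)) := by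
    intro v hv
    have h : ∃ v', c v' = c v ∧ Dom v' := ⟨v, rfl, hv⟩
    simp only [g, dif_pos h]
    exact h.choose_spec.2
  have hgA : ∀ v ∈ A, g (c v) ∈ A := by
    intro v hv
    have h : g (c v) = v ∨ Rel G A (g (c v)) v := Quotient.exact (hg (c v))
    rcases h with h | h
    · rw [h]; exact hv
    · exact h.1
  let ℓ : V → ℕ := fun v => if v = g (c v) then 1 else if G.Adj (g (c v)) v then 0 else 2
  refine ⟨ℓ, ?_, ?_⟩
  · intro v _
    simp only [ℓ]
    split_ifs <;> omega
  refine Blk.of_index c (fun _ _ => False) ?_ ?_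
  · intro u hu v hv huv
    simp only [iff_false]
    intro h
    exact huv ((hc u hu v hv).mpr ⟨hu, hv, Or.inr (Or.inl h)⟩)
  intro w hw
  set C : Set V := {v | v ∈ A ∧ c v = c w} with hCdef
  set r := g (c w) with hrdef
  have hrC : r ∈ C := ⟨hgA w hw, hg (c w)⟩
  have hroot : ∀ v ∈ C, g (c v) = r := by
    intro v hv
    rw [hv.2]
  have hCA : C ⊆ A := fun v hv => hv.1
  have hCC : ∀ u ∈ C, ∀ v ∈ A, Rel G A u v → v ∈ C := by
    intro u hu v hv huv
    refine ⟨hv, ?_⟩
    rw [← hu.2]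
    exact ((hc u hu.1 v hv).mpr huv).symm
  have hCrel : ∀ u ∈ C, ∀ v ∈ C, Rel G A u v := by
    intro u hu v hv
    exact (hc u hu.1 v hv.1).mp (hu.2.trans hv.2.symm)
  have hl1 : ℓ r = 1 := by
    simp only [ℓ, hroot r hrC, if_true]
  have hl0 : ∀ v ∈ C, G.Adj r v → ℓ v = 0 := by
    intro v hv hrv
    have : v ≠ r := by rintro rfl; exact G.irrefl hrv
    simp only [ℓ, hroot v hv, if_neg this, if_pos hrv]
  have hl2 : ∀ v ∈ C, v ≠ r → ¬ G.Adj r v → ℓ v = 2 := by
    intro v hv hvr hrv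
    simp only [ℓ, hroot v hv, if_neg hvr, if_neg hrv]
  by_cases hdom : Dom r
  · have hadj : ∀ v ∈ C, v ≠ r → G.Adj r v := fun v hv hvr =>
      hdom.2 v (hCrel r hrC v hv) hvr
    have htr : ∀ u ∈ C, ∀ v ∈ C, ∀ x ∈ C, u ≠ r → v ≠ r → x ≠ r → G.Adj u v → G.Adj v x →
        u ≠ x → G.Adj u x := by
      intro u hu v hv x hx hur hvr hxr huv hvx hux
      exact hD r v u x (hadj v hv hvr) (hadj u hu hur) (hadj x hx hxr) huv.symm hvx hux
    let d : V → Option (Set V) := fun v =>
      if v = r then none else some {x | x ∈ C ∧ x ≠ r ∧ (x = v ∨ G.Adj x v)}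
    refine Blk.of_index d (fun p q => (p = 1 ∧ q = 0) ∨ (p = 0 ∧ q = 1)) ?_ ?_
    · intro u hu v hv huv
      by_cases hur : u = r
      · by_cases hvr : v = r
        · exact absurd (by rw [hur, hvr]) huv
        · have h := hadj v hv hvr
          rw [hur, hl1, hl0 v hv h]
          simp [h]
      · by_cases hvr : v = r
        · have h := hadj u hu hur
          rw [hvr, hl1, hl0 u hu h]
          simp [h.symm]
        · rw [hl0 u hu (hadj u hu hur), hl0 v hv (hadj v hv hvr)]
          simp only [zero_ne_one, false_and, and_false, or_false, iff_false]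
          intro h
          apply huv
          simp only [d, if_neg hur, if_neg hvr, Option.some.injEq]
          ext x
          simp only [Set.mem_setOf_eq]
          constructor
          · rintro ⟨hxC, hxr, hx⟩
            refine ⟨hxC, hxr, ?_⟩
            rcases hx with rfl | hx
            · exact Or.inr h
            · by_cases hxv : x = v
              · exact Or.inl hxv
              · exact Or.inr (htr x hxC u hu v hv hxr hur hvr hx h hxv)
          · rintro ⟨hxC, hxr, hx⟩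
            refine ⟨hxC, hxr, ?_⟩
            rcases hx with rfl | hx
            · exact Or.inr h.symm
            · by_cases hxu : x = u
              · exact Or.inl hxu
              · exact Or.inr (htr x hxC v hv u hu hxr hvr hur hx h.symm hxu)
    · intro w' hw'
      refine Blk.one (fun _ _ => True) ?_
      rintro u ⟨hu, hud⟩ v ⟨hv, hvd⟩ huv
      simp only [iff_true]
      have hd : d u = d v := hud.trans hvd.symm
      by_cases hur : u = r
      · by_cases hvr : v = r
        · exact absurd (hur.trans hvr.symm) huv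
        · simp [d, hur, hvr] at hd
      · by_cases hvr : v = r
        · simp [d, hur, hvr] at hd
        · simp only [d, if_neg hur, if_neg hvr, Option.some.injEq] at hd
          have : u ∈ {x | x ∈ C ∧ x ≠ r ∧ (x = u ∨ G.Adj x u)} := ⟨hu, hur, Or.inl rfl⟩
          rw [hd] at this
          rcases this.2.2 with h | h
          · exact absurd h huv
          · exact h
  · apply Blk.succ
    have hC : ∀ u ∈ C, ∀ v ∈ C, u ≠ v → ¬ G.Adj u v → ∃ c ∈ C, G.Adj u c ∧ G.Adj c v := by
      intro u hu v hv huv hnuv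
      rcases (hCrel u hu v hv).2.2 with h | h | ⟨x, hx, h1, h2⟩
      · exact absurd h huv
      · exact absurd h hnuv
      · exact ⟨x, hCC u hu x hx ⟨hu.1, hx, Or.inr (Or.inl h1)⟩, h1, h2⟩
    have hnd : ∀ v ∈ C, ∃ w ∈ C, w ≠ v ∧ ¬ G.Adj v w := by
      intro v hv
      by_contra hcon
      push Not at hcon
      have hDv : Dom v := ⟨hv.1, fun x hx hxv => hcon x (hCC v hv x hx.2.1 hx) hxv⟩
      have := hgD v hDv
      rw [hroot v hv] at this
      exact hdom this
    obtain ⟨h1, h2, h3⟩ := bic_main hD hP hCA hC hnd hrC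
    have hlab : ∀ v ∈ C, (ℓ v = 0 ↔ G.Adj r v) := by
      intro v hv
      by_cases hvr : v = r
      · rw [hvr, hl1]; simp
      · by_cases h : G.Adj r v
        · simp [hl0 v hv h, h]
        · simp [hl2 v hv hvr h, h]
    refine Blk.one (fun p q => (p = 0 ∧ q ≠ 0) ∨ (p ≠ 0 ∧ q = 0)) ?_
    intro u hu v hv huv
    simp only [ne_eq, hlab u hu, hlab v hv]
    by_cases hu' : G.Adj r u <;> by_cases hv' : G.Adj r v
    · simp [hu', hv', h1 u hu v hv hu' hv']
    · simp [hu', hv', h3 u hu v hv hu' hv']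
    · simp [hu', hv', (h3 v hv u hu hv' hu').symm]
    · simp [hu', hv', h2 u hu v hv hu' hv']

end H79.BlockWQO
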