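import Pool.Agent.Lib_helper79.TriFreeP1P4

/-! Structure of (diamond, P₁+P₄)-free graphs. -/

namespace H79.BlockWQO

open Set

variable {V : Type} {G : SimpleGraph V}

theorem P4dom.subset {A A' : Set V} (h : P4dom G A) (hA : A' ⊆ A) : P4dom G A' := by
  intro p hp q hq r hr s hs t ht
  exact h p (hA hp) q (hA hq) r (hA hr) s (hA hs) t (hA ht)

/-- Two cliques `K`, `Kᶜ` with a matching between them. -/
theorem matched_str [Finite V] {K : Set V} (hK : ∀ u ∈ K, ∀ v ∈ K, u ≠ v → G.Adj u v)
    (hL : ∀ u, u ∉ K → ∀ v, v ∉ K → u ≠ v → G.Adj u v)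
    (h1 : ∀ a ∈ K, ∀ u, u ∉ K → ∀ v, v ∉ K → G.Adj u a → G.Adj v a → u = v)
    (h2 : ∀ a ∈ K, ∀ b ∈ K, ∀ u, u ∉ K → G.Adj u a → G.Adj u b → a = b) :
    Str G 2 2 Set.univ := by
  classical
  let c : V → V := fun v => if v ∈ K then v else if h : ∃ a ∈ K, G.Adj v a then h.choose else v
  have cK : ∀ v ∈ K, c v = v := fun v hv => by simp only [c, if_pos hv]
  have cL : ∀ v, v ∉ K → ∀ a ∈ K, G.Adj v a → c v = a := by
    intro v hv a ha hva
    have h : ∃ a ∈ K, G.Adj v a := ⟨a, ha, hva⟩
    simp only [c, if_neg hv, dif_pos h]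
    exact h2 _ h.choose_spec.1 _ ha v hv h.choose_spec.2 hva
  have cL' : ∀ v, v ∉ K → (c v ∈ K ∧ G.Adj v (c v)) ∨ c v = v := by
    intro v hv
    by_cases h : ∃ a ∈ K, G.Adj v a
    · left
      simp only [c, if_neg hv, dif_pos h]
      exact ⟨h.choose_spec.1, h.choose_spec.2⟩
    · right
      simp only [c, if_neg hv, dif_neg h]
  refine ⟨fun v => if v ∈ K then 1 else 0, ?_, ?_⟩
  · intro v _
    dsimp only
    split_ifs <;> omega
  refine Blk.of_index c (fun p q => p = q) ?_ ?_
  · intro u _ v _ huv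
    have huv' : u ≠ v := fun h => huv (by rw [h])
    by_cases hu : u ∈ K <;> by_cases hv : v ∈ K
    · simp [hu, hv, hK u hu v hv huv']
    · simp only [if_pos hu, if_neg hv, one_ne_zero, iff_false]
      intro h
      exact huv ((cK u hu).trans (cL v hv u hu h.symm).symm)
    · simp only [if_pos hv, if_neg hu, zero_ne_one, iff_false]
      intro h
      exact huv ((cL u hu v hv h).trans (cK v hv).symm)
    · simp [hu, hv, hL u hu v hv huv']
  · intro w _
    refine Blk.one (fun _ _ => True) ?_
    rintro u ⟨_, hcu⟩ v ⟨_, hcv⟩ huv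
    simp only [iff_true]
    have hc : c u = c v := hcu.trans hcv.symm
    by_cases hu : u ∈ K <;> by_cases hv : v ∈ K
    · exact hK u hu v hv huv
    · rcases cL' v hv with h | h
      · rw [← hc, cK u hu] at h
        exact h.2.symm
      · rw [← hc, cK u hu] at h
        exact absurd h huv
    · rcases cL' u hu with h | h
      · rw [hc, cK v hv] at h
        exact h.2
      · rw [hc, cK v hv] at h
        exact absurd h.symm huv
    · exact hL u hu v hv huv

section clique

variable (hD : Dia G) (hP : P4dom G Set.univ) {K : Finset V}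
  (hK : ∀ u ∈ K, ∀ v ∈ K, u ≠ v → G.Adj u v)
  (hatt : ∀ o, o ∉ K → ∀ a ∈ K, ∀ b ∈ K, G.Adj o a → G.Adj o b → a = b)
  (hcard : 4 ≤ K.card)

include hP hK hatt hcard

/-- Claim 1. -/
theorem clique_claim {u w z a b : V} (hu : u ∉ K) (hw : w ∉ K) (hz : z ∉ K) (ha : a ∈ K)
    (hb : b ∈ K) (hab : a ≠ b) (hua : G.Adj u a) (hwb : G.Adj w b) (hza : ¬ G.Adj z a)
    (hzb : ¬ G.Adj z b) (hzu : z ≠ u) (hzw : z ≠ w) : G.Adj z u ∨ G.Adj z w := by
  classical
  have hub : ¬ G.Adj u b := fun h => hab (hatt u hu a ha b hb hua h)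
  have hwa : ¬ G.Adj w a := fun h => hab (hatt w hw a ha b hb h hwb)
  by_cases huw : G.Adj u w
  · -- choose `c`
    obtain ⟨c, hc, hca, hcb, hzc⟩ : ∃ c ∈ K, c ≠ a ∧ c ≠ b ∧ ¬ G.Adj z c := by
      by_contra hcon
      push Not at hcon
      have h1 : ((K.erase a).erase b).card ≤ 1 := by
        rw [Finset.card_le_one]
        intro x hx y hy
        simp only [Finset.mem_erase, ne_eq] at hx hy
        exact hatt z hz x hx.2.2 y hy.2.2 (hcon x hx.2.2 hx.2.1 hx.1)
          (hcon y hy.2.2 hy.2.1 hy.1)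
      have h2 := Finset.card_erase_of_mem ha
      have h3 : b ∈ K.erase a := Finset.mem_erase.mpr ⟨hab.symm, hb⟩
      have h4 := Finset.card_erase_of_mem h3
      omega
    have hwc : ¬ G.Adj w c := fun h => hcb (hatt w hw c hc b hb h hwb)
    have huc : ¬ G.Adj u c := fun h => hca (hatt u hu c hc a ha h hua)
    rcases hP w trivial u trivial a trivial c trivial z trivial huw.symm hua
      (hK a ha c hc hca.symm) hwa hwc huc with h | h | h | h | h | h | h | h
    · exact absurd h hzw
    · exact absurd h hzu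
    · subst h; exact absurd ha hz
    · subst h; exact absurd hc hz
    · exact Or.inr h
    · exact Or.inl h
    · exact absurd h hza
    · exact absurd h hzc
  · rcases hP u trivial a trivial b trivial w trivial z trivial hua
      (hK a ha b hb hab) hwb.symm hub huw (fun h => hwa h.symm) with h | h | h | h | h | h | h | h
    · exact absurd h hzu
    · subst h; exact absurd ha hz
    · subst h; exact absurd hb hz
    · exact absurd h hzw
    · exact Or.inl h
    · exact absurd h hza
    · exact absurd h hzb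
    · exact Or.inr h

/-- outside the clique there is no `P₄` -/
theorem clique_out_P4free : P4free G {v | v ∉ K} := by
  classical
  intro p hp q hq r hr s hs hpq hqr hrs hpr hps hqs
  -- attachment function
  have hex : ∀ o, o ∉ K → ∃ a, ∀ k ∈ K, G.Adj o k → k = a := by
    intro o ho
    by_cases h : ∃ a ∈ K, G.Adj o a
    · obtain ⟨a, ha, hoa⟩ := h
      exact ⟨a, fun k hk hok => hatt o ho k hk a ha hok hoa⟩
    · push Not at h
      exact ⟨o, fun k hk hok => absurd hok (h k hk)⟩
  obtain ⟨ap, hap⟩ := hex p hp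
  obtain ⟨aq, haq⟩ := hex q hq
  obtain ⟨ar, har⟩ := hex r hr
  obtain ⟨as, has⟩ := hex s hs
  have hdom : ∀ k ∈ K, G.Adj p k ∨ G.Adj q k ∨ G.Adj r k ∨ G.Adj s k := by
    intro k hk
    rcases hP p trivial q trivial r trivial s trivial k trivial hpq hqr hrs hpr hps hqs with
      h | h | h | h | h | h | h | h
    · subst h; exact absurd hk hp
    · subst h; exact absurd hk hq
    · subst h; exact absurd hk hr
    · subst h; exact absurd hk hs
    · exact Or.inl h.symm
    · exact Or.inr (Or.inl h.symm)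
    · exact Or.inr (Or.inr (Or.inl h.symm))
    · exact Or.inr (Or.inr (Or.inr h.symm))
  have hsub : K ⊆ {ap, aq, ar, as} := by
    intro k hk
    simp only [Finset.mem_insert, Finset.mem_singleton]
    rcases hdom k hk with h | h | h | h
    · exact Or.inl (hap k hk h)
    · exact Or.inr (Or.inl (haq k hk h))
    · exact Or.inr (Or.inr (Or.inl (har k hk h)))
    · exact Or.inr (Or.inr (Or.inr (has k hk h)))
  have hle : ({ap, aq, ar, as} : Finset V).card ≤ 4 := Finset.card_le_four
  have heq : K = {ap, aq, ar, as} := Finset.eq_of_subset_of_card_le hsub (by omega)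
  have hc4 : ({ap, aq, ar, as} : Finset V).card = 4 := by rw [← heq]; rw [← heq] at hle; omega
  have hc3 : ∀ x y z : V, ({x, y, z} : Finset V).card ≤ 3 := fun x y z => Finset.card_le_three
  have d1 : ap ≠ aq := by
    rintro h
    rw [h] at hc4
    have := hc3 aq ar as
    simp only [Finset.insert_idem] at hc4
    omega
  have d2 : ap ≠ ar := by
    rintro h
    rw [h] at hc4
    have h' : ({ar, aq, ar, as} : Finset V) = {aq, ar, as} := by
      ext x; simp only [Finset.mem_insert, Finset.mem_singleton]; tauto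
    have := hc3 aq ar as
    rw [h'] at hc4
    omega
  have d3 : ap ≠ as := by
    rintro h
    rw [h] at hc4
    have h' : ({as, aq, ar, as} : Finset V) = {aq, ar, as} := by
      ext x; simp only [Finset.mem_insert, Finset.mem_singleton]; tauto
    have := hc3 aq ar as
    rw [h'] at hc4
    omega
  have d4 : aq ≠ ar := by
    rintro h
    rw [h] at hc4
    have h' : ({ap, ar, ar, as} : Finset V) = {ap, ar, as} := by
      ext x; simp only [Finset.mem_insert, Finset.mem_singleton]; tauto
    have := hc3 ap ar as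
    rw [h'] at hc4
    omega
  have d5 : aq ≠ as := by
    rintro h
    rw [h] at hc4
    have h' : ({ap, as, ar, as} : Finset V) = {ap, ar, as} := by
      ext x; simp only [Finset.mem_insert, Finset.mem_singleton]; tauto
    have := hc3 ap ar as
    rw [h'] at hc4
    omega
  have d6 : ar ≠ as := by
    rintro h
    rw [h] at hc4
    have h' : ({ap, aq, as, as} : Finset V) = {ap, aq, as} := by
      ext x; simp only [Finset.mem_insert, Finset.mem_singleton]; tauto
    have := hc3 ap aq as
    rw [h'] at hc4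
    omega
  have mp : ap ∈ K := by rw [heq]; simp
  have mr : ar ∈ K := by rw [heq]; simp
  have ms : as ∈ K := by rw [heq]; simp
  have kr : G.Adj r ar := by
    rcases hdom ar mr with h | h | h | h
    · exact absurd (hap ar mr h).symm d2
    · exact absurd (haq ar mr h).symm d4
    · exact h
    · exact absurd (has ar mr h) d6
  have ks : G.Adj s as := by
    rcases hdom as ms with h | h | h | h
    · exact absurd (hap as ms h).symm d3
    · exact absurd (haq as ms h).symm d5
    · exact absurd (har as ms h).symm d6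
    · exact h
  have hp1 : ¬ G.Adj p ar := fun h => d2 (hap ar mr h).symm
  have hp2 : ¬ G.Adj p as := fun h => d3 (hap as ms h).symm
  have hpr' : p ≠ r := by
    rintro rfl; exact hps hrs
  have hps' : p ≠ s := by
    rintro rfl; exact hpr hrs.symm
  rcases clique_claim hP hK hatt hcard hr hs hp mr ms d6 kr ks hp1 hp2 hpr' hps' with h | h
  · exact hpr h
  · exact hps h

/-- few attached vertices of the clique -/
theorem clique_few [Finite V] (hD : Dia G) (W : Finset V) (hWK : W ⊆ K)
    (hW : ∀ a ∈ K, ∀ o, o ∉ K → G.Adj o a → a ∈ W) :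
    Str G (3 ^ W.card * 4) 3 Set.univ := by
  have h4 := clique_out_P4free hP hK hatt hcard
  apply Str.delFinset (n := 2) (m := 3) W
  apply cograph_str hD
  have key : ∀ x y, x ∉ W → x ∈ K → G.Adj x y → y ∈ K := by
    intro x y hx hxK hxy
    by_contra hy
    exact hx (hW x hxK y hy hxy.symm)
  intro p hp q hq r hr s hs hpq hqr hrs hpr hps hqs
  have hpW : p ∉ W := fun h => hp.2 h
  have hqW : q ∉ W := fun h => hq.2 h
  have hrW : r ∉ W := fun h => hr.2 h
  have hsW : s ∉ W := fun h => hs.2 h
  have hpr' : p ≠ r := by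
    rintro rfl; exact hps hrs
  by_cases h1 : p ∈ K
  · have h2 := key p q hpW h1 hpq
    have h3 := key q r hqW h2 hqr
    exact hpr (hK p h1 r h3 hpr')
  by_cases h2 : q ∈ K
  · exact h1 (key q p hqW h2 hpq.symm)
  by_cases h3 : r ∈ K
  · exact h2 (key r q hrW h3 hqr.symm)
  by_cases h4' : s ∈ K
  · exact h3 (key s r hsW h4' hrs.symm)
  exact h4 p h1 q h2 r h3 s h4' hpq hqr hrs hpr hps hqs

/-- many attached vertices of the clique -/
theorem clique_many [Finite V] (hD : Dia G) (W : Finset V) (hWK : W ⊆ K)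
    (hW : ∀ a ∈ W, ∃ o, o ∉ K ∧ G.Adj o a) (hW5 : 5 ≤ W.card) :
    Str G 2 2 Set.univ := by
  classical
  choose! ρ hρ1 hρ2 using hW
  have ρne : ∀ a ∈ W, ∀ b ∈ W, a ≠ b → ρ a ≠ ρ b := by
    intro a ha b hb hab h
    apply hab
    refine hatt (ρ a) (hρ1 a ha) a (hWK ha) b (hWK hb) (hρ2 a ha) ?_
    rw [h]; exact hρ2 b hb
  have ρn : ∀ a ∈ W, ∀ k ∈ K, G.Adj (ρ a) k → k = a := fun a ha k hk h =>
    hatt (ρ a) (hρ1 a ha) k hk a (hWK ha) h (hρ2 a ha)
  -- choose elements of `W` avoiding few elements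
  have pick : ∀ F : Finset V, F.card ≤ 4 → ∃ c ∈ W, c ∉ F := by
    intro F hF
    by_contra hcon
    push Not at hcon
    have := Finset.card_le_card (show W ⊆ F from hcon)
    omega
  -- (α)
  have alpha : ∀ u, u ∉ K → ∀ w, w ∉ K → ∀ a ∈ K, ∀ b ∈ K, a ≠ b → G.Adj u a → G.Adj w b →
      G.Adj u w := by
    intro u hu w hw a ha b hb hab hua hwb
    by_contra huw
    have huw' : u ≠ w := by
      rintro rfl; exact hab (hatt u hu a ha b hb hua hwb)
    have hun : ∀ k ∈ K, G.Adj u k → k = a := fun k hk h => hatt u hu k hk a ha h hua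
    have hwn : ∀ k ∈ K, G.Adj w k → k = b := fun k hk h => hatt w hw k hk b hb h hwb
    have both : ∀ c ∈ W, c ≠ a → c ≠ b → G.Adj (ρ c) u ∧ G.Adj (ρ c) w := by
      intro c hc hca hcb
      have hcK := hWK hc
      have hr := hρ1 c hc
      have hrc := hρ2 c hc
      have r1 : ρ c ≠ u := by
        rintro h
        rw [h] at hrc
        exact hca (hun c hcK hrc)
      have r2 : ρ c ≠ w := by
        rintro h
        rw [h] at hrc
        exact hcb (hwn c hcK hrc)
      constructor
      · -- third vertex `u`, pair (ρ c, w)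
        rcases clique_claim hP hK hatt hcard hr hw hu hcK hb hcb hrc hwb
          (fun h => hca (hun c hcK h)) (fun h => hab (hun b hb h).symm)
          r1.symm huw' with h | h
        · exact h.symm
        · exact absurd h huw
      · rcases clique_claim hP hK hatt hcard hr hu hw hcK ha hca hrc hua
          (fun h => hcb (hwn c hcK h)) (fun h => hab (hwn a ha h))
          r2.symm huw'.symm with h | h
        · exact h.symm
        · exact absurd h.symm huw
    obtain ⟨c, hc, hcF⟩ := pick {a, b} (Finset.card_le_two.trans (by norm_num))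
    obtain ⟨d, hd, hdF⟩ := pick {a, b, c} (Finset.card_le_three.trans (by norm_num))
    obtain ⟨e, he, heF⟩ := pick {a, b, c, d} Finset.card_le_four
    simp only [Finset.mem_insert, Finset.mem_singleton, not_or] at hcF hdF heF
    have pair : ∃ x ∈ W, ∃ y ∈ W, x ≠ a ∧ x ≠ b ∧ y ≠ a ∧ y ≠ b ∧ G.Adj (ρ x) (ρ y) := by
      rcases clique_claim hP hK hatt hcard (hρ1 c hc) (hρ1 d hd) (hρ1 e he) (hWK hc) (hWK hd)
        (Ne.symm hdF.2.2) (hρ2 c hc) (hρ2 d hd)
        (fun h => heF.2.2.1 (ρn e he c (hWK hc) h).symm)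
        (fun h => heF.2.2.2 (ρn e he d (hWK hd) h).symm)
        (ρne e he c hc heF.2.2.1) (ρne e he d hd heF.2.2.2) with h | h
      · exact ⟨e, he, c, hc, heF.1, heF.2.1, hcF.1, hcF.2, h⟩
      · exact ⟨e, he, d, hd, heF.1, heF.2.1, hdF.1, hdF.2.1, h⟩
    obtain ⟨x, hx, y, hy, hxa, hxb, hya, hyb, hxy⟩ := pair
    obtain ⟨x1, x2⟩ := both x hx hxa hxb
    obtain ⟨y1, y2⟩ := both y hy hya hyb
    exact huw (hD _ _ u w hxy x1 x2 y1 y2 huw')
  -- (β)
  have beta : ∀ a ∈ K, ∀ u, u ∉ K → ∀ v, v ∉ K → G.Adj u a → G.Adj v a → u = v := by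
    intro a ha u hu v hv hua hva
    by_contra huv
    obtain ⟨b, hb, hbF⟩ := pick {a} (by simp)
    obtain ⟨c, hc, hcF⟩ := pick {a, b} (Finset.card_le_two.trans (by norm_num))
    simp only [Finset.mem_insert, Finset.mem_singleton, not_or] at hbF hcF
    have e1 := alpha (ρ b) (hρ1 b hb) (ρ c) (hρ1 c hc) b (hWK hb) c (hWK hc) (Ne.symm hcF.2)
      (hρ2 b hb) (hρ2 c hc)
    have e2 := alpha (ρ b) (hρ1 b hb) u hu b (hWK hb) a ha hbF (hρ2 b hb) hua
    have e3 := alpha (ρ b) (hρ1 b hb) v hv b (hWK hb) a ha hbF (hρ2 b hb) hva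
    have e4 := alpha (ρ c) (hρ1 c hc) u hu c (hWK hc) a ha hcF.1 (hρ2 c hc) hua
    have e5 := alpha (ρ c) (hρ1 c hc) v hv c (hWK hc) a ha hcF.1 (hρ2 c hc) hva
    have e6 := hD _ _ u v e1 e2 e3 e4 e5 huv
    have hne : a ≠ ρ b := by
      rintro h; exact hρ1 b hb (h ▸ ha)
    have e7 := hD u v a (ρ b) e6 hua e2.symm hva e3.symm hne
    exact hbF (ρn b hb a ha e7.symm).symm
  -- unattached vertices see all attached ones
  have rr : ∀ a ∈ W, ∀ b ∈ W, a ≠ b → G.Adj (ρ a) (ρ b) := fun a ha b hb hab =>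
    alpha _ (hρ1 a ha) _ (hρ1 b hb) a (hWK ha) b (hWK hb) hab (hρ2 a ha) (hρ2 b hb)
  have two : ∀ z, z ∉ K → (∀ k ∈ K, ¬ G.Adj z k) → ∃ a ∈ W, ∃ b ∈ W, a ≠ b ∧
      G.Adj z (ρ a) ∧ G.Adj z (ρ b) := by
    intro z hz hzK
    have hne : ∀ a ∈ W, z ≠ ρ a := by
      rintro a ha rfl
      exact hzK a (hWK ha) (hρ2 a ha)
    have cl : ∀ a ∈ W, ∀ b ∈ W, a ≠ b → G.Adj z (ρ a) ∨ G.Adj z (ρ b) := fun a ha b hb hab =>
      clique_claim hP hK hatt hcard (hρ1 a ha) (hρ1 b hb) hz (hWK ha) (hWK hb) hab (hρ2 a ha)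
        (hρ2 b hb) (hzK a (hWK ha)) (hzK b (hWK hb)) (hne a ha) (hne b hb)
    obtain ⟨a, ha, -⟩ := pick ∅ (by simp)
    obtain ⟨b, hb, hbF⟩ := pick {a} (by simp)
    obtain ⟨c, hc, hcF⟩ := pick {a, b} (Finset.card_le_two.trans (by norm_num))
    simp only [Finset.mem_insert, Finset.mem_singleton, not_or] at hbF hcF
    rcases cl a ha b hb (Ne.symm hbF) with h | h
    · rcases cl b hb c hc (Ne.symm hcF.2) with h' | h'
      · exact ⟨a, ha, b, hb, Ne.symm hbF, h, h'⟩
      · exact ⟨a, ha, c, hc, Ne.symm hcF.1, h, h'⟩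
    · rcases cl a ha c hc (Ne.symm hcF.1) with h' | h'
      · exact ⟨b, hb, a, ha, hbF, h, h'⟩
      · exact ⟨b, hb, c, hc, Ne.symm hcF.2, h, h'⟩
  have gam1 : ∀ z, z ∉ K → (∀ k ∈ K, ¬ G.Adj z k) → ∀ w, w ∉ K → ∀ d ∈ K, G.Adj w d →
      G.Adj z w := by
    intro z hz hzK w hw d hd hwd
    have hzw : z ≠ w := by
      rintro rfl; exact hzK d hd hwd
    obtain ⟨a, ha, b, hb, hab, e1, e2⟩ := two z hz hzK
    -- `w` is adjacent to `ρ a` unless `w = ρ a`
    by_cases had : a = d
    · subst had
      have : w = ρ a := beta a hd w hw _ (hρ1 a ha) hwd (hρ2 a ha)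
      rw [this]; exact e1
    · by_cases hbd : b = d
      · subst hbd
        have : w = ρ b := beta b hd w hw _ (hρ1 b hb) hwd (hρ2 b hb)
        rw [this]; exact e2
      · have f1 := alpha _ (hρ1 a ha) w hw a (hWK ha) d hd had (hρ2 a ha) hwd
        have f2 := alpha _ (hρ1 b hb) w hw b (hWK hb) d hd hbd (hρ2 b hb) hwd
        exact hD (ρ a) (ρ b) z w (rr a ha b hb hab) e1.symm f1 e2.symm f2 hzw
  have hL : ∀ u, u ∉ K → ∀ v, v ∉ K → u ≠ v → G.Adj u v := by
    intro u hu v hv huv
    by_cases h1 : ∃ a ∈ K, G.Adj u a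
    · obtain ⟨a, ha, hua⟩ := h1
      by_cases h2 : ∃ b ∈ K, G.Adj v b
      · obtain ⟨b, hb, hvb⟩ := h2
        have hab : a ≠ b := by
          rintro rfl; exact huv (beta a ha u hu v hv hua hvb)
        exact alpha u hu v hv a ha b hb hab hua hvb
      · push Not at h2
        exact (gam1 v hv h2 u hu a ha hua).symm
    · push Not at h1
      by_cases h2 : ∃ b ∈ K, G.Adj v b
      · obtain ⟨b, hb, hvb⟩ := h2
        exact gam1 u hu h1 v hv b hb hvb
      · push Not at h2
        obtain ⟨a, ha, b, hb, hab, e1, e2⟩ := two u hu h1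
        have f1 := gam1 v hv h2 _ (hρ1 a ha) a (hWK ha) (hρ2 a ha)
        have f2 := gam1 v hv h2 _ (hρ1 b hb) b (hWK hb) (hρ2 b hb)
        exact hD (ρ a) (ρ b) u v (rr a ha b hb hab) e1.symm f1.symm e2.symm f2.symm huv
  exact matched_str (K := (K : Set V)) (fun u hu v hv => hK u hu v hv) hL beta
    (fun a ha b hb u hu => hatt u hu a ha b hb)

end clique

/-- graphs containing a clique of size four -/
theorem case_K4 [Finite V] (hD : Dia G) (hP : P4dom G Set.univ) {K0 : Finset V}
    (hK0 : ∀ u ∈ K0, ∀ v ∈ K0, u ≠ v → G.Adj u v) (h0 : 4 ≤ K0.card) :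
    Str G (3 ^ 4 * 4) 3 Set.univ := by
  classical
  have := Fintype.ofFinite V
  -- a maximum clique
  obtain ⟨K, hK, hmax⟩ := Finset.exists_max_image
    (Finset.univ.filter (fun K : Finset V => ∀ u ∈ K, ∀ v ∈ K, u ≠ v → G.Adj u v))
    Finset.card ⟨K0, by simpa using hK0⟩
  simp only [Finset.mem_filter, Finset.mem_univ, true_and] at hK hmax
  have hcard : 4 ≤ K.card := h0.trans (hmax K0 hK0)
  have hatt : ∀ o, o ∉ K → ∀ a ∈ K, ∀ b ∈ K, G.Adj o a → G.Adj o b → a = b := by
    intro o ho a ha b hb hoa hob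
    by_contra hab
    have hall : ∀ k ∈ K, G.Adj o k := by
      intro k hk
      by_cases hka : k = a
      · rw [hka]; exact hoa
      by_cases hkb : k = b
      · rw [hkb]; exact hob
      have hok : o ≠ k := by rintro rfl; exact ho hk
      exact hD a b o k (hK a ha b hb hab) hoa.symm (hK a ha k hk (Ne.symm hka)) hob.symm
        (hK b hb k hk (Ne.symm hkb)) hok
    have h1 : ∀ u ∈ insert o K, ∀ v ∈ insert o K, u ≠ v → G.Adj u v := by
      intro u hu v hv huv
      rw [Finset.mem_insert] at hu hv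
      rcases hu with rfl | hu <;> rcases hv with rfl | hv
      · exact absurd rfl huv
      · exact hall v hv
      · exact (hall u hu).symm
      · exact hK u hu v hv huv
    have h2 := hmax _ h1
    rw [Finset.card_insert_of_notMem ho] at h2
    omega
  let W : Finset V := K.filter (fun a => ∃ o, o ∉ K ∧ G.Adj o a)
  have hWK : W ⊆ K := Finset.filter_subset _ _
  by_cases hW : 5 ≤ W.card
  · refine (clique_many hP hK hatt hcard hD W hWK ?_ hW).mono (by norm_num) (by norm_num)
    intro a ha
    exact (Finset.mem_filter.mp ha).2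
  · refine (clique_few hP hK hatt hcard hD W hWK ?_).mono ?_ le_rfl
    · intro a ha o ho hoa
      exact Finset.mem_filter.mpr ⟨ha, o, ho, hoa⟩
    · have : 3 ^ W.card ≤ 3 ^ 4 := Nat.pow_le_pow_right (by norm_num) (by omega)
      exact Nat.mul_le_mul_right 4 this

/-- the key triangle lemma -/
theorem case_tri_edge [Finite V] (hD : Dia G) (hP : P4dom G Set.univ)
    (hu : ∀ a b c d, G.Adj a b → G.Adj a c → G.Adj b c → G.Adj a d → G.Adj b d → c = d)
    {x y z u u' : V} (hxy : G.Adj x y) (hyz : G.Adj y z) (hxz : G.Adj x z)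
    (hux : G.Adj u x) (huy : u ≠ y) (huz : u ≠ z) (hu'y : G.Adj u' y) (hu'x : u' ≠ x)
    (hu'z : u' ≠ z) (huu' : G.Adj u u') :
    Str G 4374 3 Set.univ := by
  classical
  have uy : ¬ G.Adj u y := fun h => huz (hu x y z u hxy hxz hyz hux.symm h.symm).symm
  have uz : ¬ G.Adj u z := fun h => huy (hu x z y u hxz hxy hyz.symm hux.symm h.symm).symm
  have u'x : ¬ G.Adj u' x := fun h => hu'z (hu x y z u' hxy hxz hyz h.symm hu'y.symm).symm
  have u'z : ¬ G.Adj u' z := fun h => hu'x (hu y z x u' hyz hxy.symm hxz.symm hu'y.symm h.symm).symm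
  -- the exceptional vertex
  obtain ⟨t, ht⟩ : ∃ t, ∀ s, G.Adj s x → G.Adj s u → s = t := by
    by_cases h : ∃ s, G.Adj s x ∧ G.Adj s u
    · obtain ⟨s, h1, h2⟩ := h
      exact ⟨s, fun s' h1' h2' => hu x u s' s hux.symm h1'.symm h2'.symm h1.symm h2.symm⟩
    · push Not at h
      exact ⟨x, fun s h1 h2 => absurd h2 (h s h1)⟩
  let S : Finset V := {x, y, z, u, u', t}
  have hS : S.card ≤ 6 := Finset.card_le_six
  have hmain : Str G 5 3 (Set.univ \ (S : Set V)) := by
    apply trifree_str hD ?_ (hP.subset (fun _ _ => trivial))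
    have hmem : ∀ v, v ∈ (Set.univ \ (S : Set V)) →
        v ≠ x ∧ v ≠ y ∧ v ≠ z ∧ v ≠ u ∧ v ≠ u' ∧ v ≠ t := by
      intro v hv
      have := hv.2
      simpa [S] using this
    -- every vertex outside is adjacent to u, u' or z
    have hcov : ∀ v, v ∈ (Set.univ \ (S : Set V)) → G.Adj v u ∨ G.Adj v u' ∨ G.Adj v z := by
      intro v hv
      obtain ⟨vx, vy, vz, vu, vu', -⟩ := hmem v hv
      by_contra hcon
      push Not at hcon
      obtain ⟨c1, c2, c3⟩ := hcon
      have g1 : G.Adj v x := by
        rcases hP u' trivial u trivial x trivial z trivial v trivial huu'.symm hux hxz u'x u'z uz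
          with h | h | h | h | h | h | h | h
        · exact absurd h vu'
        · exact absurd h vu
        · exact absurd h vx
        · exact absurd h vz
        · exact absurd h c2
        · exact absurd h c1
        · exact h
        · exact absurd h c3
      have g2 : G.Adj v y := by
        rcases hP u trivial u' trivial y trivial z trivial v trivial huu' hu'y hyz uy uz u'z
          with h | h | h | h | h | h | h | h
        · exact absurd h vu
        · exact absurd h vu'
        · exact absurd h vy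
        · exact absurd h vz
        · exact absurd h c1
        · exact absurd h c2
        · exact h
        · exact absurd h c3
      exact vz (hu x y z v hxy hxz hyz g1.symm g2.symm).symm
    -- the three neighbourhoods are triangle-hitting
    have one : ∀ w, (w = u ∨ w = u' ∨ w = z) → ∀ a b c, c ∈ (Set.univ \ (S : Set V)) →
        G.Adj a b → G.Adj b c → G.Adj a c → G.Adj a w → G.Adj b w → False := by
      intro w hw a b c hc hab hbc hac haw hbw
      have := hu a b c w hab hac hbc haw hbw
      obtain ⟨cx, cy, cz, cu, cu', -⟩ := hmem c hc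
      rcases hw with h | h | h
      · exact cu (this.trans h)
      · exact cu' (this.trans h)
      · exact cz (this.trans h)
    -- main configuration
    have conf : ∀ a ∈ (Set.univ \ (S : Set V)), ∀ b ∈ (Set.univ \ (S : Set V)),
        ∀ c ∈ (Set.univ \ (S : Set V)), G.Adj a b → G.Adj b c → G.Adj a c →
        G.Adj a u → G.Adj b u' → G.Adj c z → False := by
      intro a ha b hb c hc hab hbc hac hau hbu hcz
      obtain ⟨ax, ay, az, au, au', at'⟩ := hmem a ha
      obtain ⟨cx, cy, cz', cu, cu', -⟩ := hmem c hc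
      have naz : ¬ G.Adj a z := fun h => one z (Or.inr (Or.inr rfl)) a c b hb hac hbc.symm hab h hcz
      have nau' : ¬ G.Adj a u' := fun h => one u' (Or.inr (Or.inl rfl)) a b c hc hab hbc hac h hbu
      have ncu' : ¬ G.Adj c u' := fun h => one u' (Or.inr (Or.inl rfl)) b c a ha hbc hac.symm hab.symm hbu h
      have ncx : ¬ G.Adj c x := fun h =>
        cy (hu x z y c hxz hxy hyz.symm h.symm hcz.symm).symm
      have nax : ¬ G.Adj a x := by
        intro h
        exact at' (ht a h hau)
      rcases hP a trivial c trivial z trivial x trivial u' trivial hac hcz hxz.symm naz nax ncx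
        with h | h | h | h | h | h | h | h
      · exact au' h.symm
      · exact cu' h.symm
      · exact hu'z h
      · exact hu'x h
      · exact nau' h.symm
      · exact ncu' h.symm
      · exact u'z h
      · exact u'x h
    intro a ha b hb c hc hab hbc hac
    have key : ∀ w, (w = u ∨ w = u' ∨ w = z) → ¬ (G.Adj a w ∧ G.Adj b w) ∧
        ¬ (G.Adj b w ∧ G.Adj c w) ∧ ¬ (G.Adj a w ∧ G.Adj c w) := by
      intro w hw
      refine ⟨fun h => one w hw a b c hc hab hbc hac h.1 h.2,
        fun h => one w hw b c a ha hbc hac.symm hab.symm h.1 h.2,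
        fun h => one w hw a c b hb hac hbc.symm hab h.1 h.2⟩
    have k1 := key u (Or.inl rfl)
    have k2 := key u' (Or.inr (Or.inl rfl))
    have k3 := key z (Or.inr (Or.inr rfl))
    rcases hcov a ha with p | p | p <;> rcases hcov b hb with q | q | q <;>
      rcases hcov c hc with r | r | r
    · exact k1.1 ⟨p, q⟩
    · exact k1.1 ⟨p, q⟩
    · exact k1.1 ⟨p, q⟩
    · exact k1.2.2 ⟨p, r⟩
    · exact k2.2.1 ⟨q, r⟩
    · exact conf a ha b hb c hc hab hbc hac p q r
    · exact k1.2.2 ⟨p, r⟩
    · exact conf a ha c hc b hb hac hbc.symm hab p r q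
    · exact k3.2.1 ⟨q, r⟩
    · exact k1.2.1 ⟨q, r⟩
    · exact k2.2.2 ⟨p, r⟩
    · exact conf b hb a ha c hc hab.symm hac hbc q p r
    · exact k2.1 ⟨p, q⟩
    · exact k2.1 ⟨p, q⟩
    · exact k2.1 ⟨p, q⟩
    · exact conf c hc a ha b hb hac.symm hab hbc.symm r p q
    · exact k2.2.2 ⟨p, r⟩
    · exact k3.2.1 ⟨q, r⟩
    · exact k1.2.1 ⟨q, r⟩
    · exact conf b hb c hc a ha hbc hac.symm hab.symm q r p
    · exact k3.2.2 ⟨p, r⟩
    · exact conf c hc b hb a ha hbc.symm hab.symm hac.symm r q p
    · exact k2.2.1 ⟨q, r⟩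
    · exact k3.2.2 ⟨p, r⟩
    · exact k3.1 ⟨p, q⟩
    · exact k3.1 ⟨p, q⟩
    · exact k3.1 ⟨p, q⟩
  refine (Str.delFinset S hmain).mono ?_ le_rfl
  have : 3 ^ S.card ≤ 3 ^ 6 := Nat.pow_le_pow_right (by norm_num) hS
  exact (Nat.mul_le_mul_right (5 + 1) this).trans (by norm_num)

theorem case_tri [Finite V] (hD : Dia G) (hP : P4dom G Set.univ)
    (hu : ∀ a b c d, G.Adj a b → G.Adj a c → G.Adj b c → G.Adj a d → G.Adj b d → c = d)
    {x y z : V} (hxy : G.Adj x y) (hyz : G.Adj y z) (hxz : G.Adj x z) :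
    Str G 4374 3 Set.univ := by
  classical
  -- a vertex of the triangle without further neighbours
  have few : ∀ p, (p = x ∨ p = y ∨ p = z) → (∀ w, G.Adj w p → w = x ∨ w = y ∨ w = z) →
      Str G 4374 3 Set.univ := by
    intro p hp hnb
    let S : Finset V := {x, y, z}
    have hS : S.card ≤ 3 := Finset.card_le_three
    have h1 : Str G 3 3 (Set.univ \ (S : Set V)) := by
      apply cograph_str hD
      intro a ha b hb c hc d hd hab hbc hcd hac had hbd
      have hmem : ∀ v, v ∈ (Set.univ \ (S : Set V)) → ¬ (v = x ∨ v = y ∨ v = z) := by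
        intro v hv
        have := hv.2
        simpa [S] using this
      rcases hP a trivial b trivial c trivial d trivial p trivial hab hbc hcd hac had hbd
        with h | h | h | h | h | h | h | h
      · exact hmem a ha (h ▸ hp)
      · exact hmem b hb (h ▸ hp)
      · exact hmem c hc (h ▸ hp)
      · exact hmem d hd (h ▸ hp)
      · exact hmem a ha (hnb a h.symm)
      · exact hmem b hb (hnb b h.symm)
      · exact hmem c hc (hnb c h.symm)
      · exact hmem d hd (hnb d h.symm)
    refine (Str.delFinset S h1).mono ?_ le_rfl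
    have : 3 ^ S.card ≤ 3 ^ 3 := Nat.pow_le_pow_right (by norm_num) hS
    exact (Nat.mul_le_mul_right (3 + 1) this).trans (by norm_num)
  by_cases hX : ∃ u, G.Adj u x ∧ u ≠ y ∧ u ≠ z
  · by_cases hY : ∃ w, G.Adj w y ∧ w ≠ x ∧ w ≠ z
    · by_cases hZ : ∃ t, G.Adj t z ∧ t ≠ x ∧ t ≠ y
      · obtain ⟨u, hux, huy, huz⟩ := hX
        obtain ⟨w, hwy, hwx, hwz⟩ := hY
        obtain ⟨t, htz, htx, hty⟩ := hZ
        by_cases e1 : G.Adj u w
        · exact case_tri_edge hD hP hu hxy hyz hxz hux huy huz hwy hwx hwz e1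
        by_cases e2 : G.Adj w t
        · exact case_tri_edge hD hP hu hyz hxz.symm hxy.symm hwy hwz hwx htz hty htx e2
        by_cases e3 : G.Adj u t
        · exact case_tri_edge hD hP hu hxz hyz.symm hxy hux huz huy htz htx hty e3
        exfalso
        have uy : ¬ G.Adj u y := fun h => huz (hu x y z u hxy hxz hyz hux.symm h.symm).symm
        have wx : ¬ G.Adj w x := fun h => hwz (hu x y z w hxy hxz hyz h.symm hwy.symm).symm
        have tx : ¬ G.Adj t x := fun h => hty (hu x z y t hxz hxy hyz.symm h.symm htz.symm).symm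
        have ty : ¬ G.Adj t y := fun h => htx (hu y z x t hyz hxy.symm hxz.symm h.symm
          htz.symm).symm
        rcases hP u trivial x trivial y trivial w trivial t trivial hux hxy hwy.symm uy e1
          (fun h => wx h.symm) with h | h | h | h | h | h | h | h
        · subst h; exact tx hux
        · exact htx h
        · exact hty h
        · subst h; exact ty hwy
        · exact e3 h.symm
        · exact tx h
        · exact ty h
        · exact e2 h.symm
      · push Not at hZ
        refine few z (by tauto) (fun w hw => ?_)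
        by_cases h1 : w = x
        · exact Or.inl h1
        · exact Or.inr (Or.inl (hZ w hw h1))
    · push Not at hY
      refine few y (by tauto) (fun w hw => ?_)
      by_cases h1 : w = x
      · exact Or.inl h1
      · exact Or.inr (Or.inr (hY w hw h1))
  · push Not at hX
    refine few x (by tauto) (fun w hw => ?_)
    by_cases h1 : w = y
    · exact Or.inr (Or.inl h1)
    · exact Or.inr (Or.inr (hX w hw h1))

/-- every (diamond, P₁+P₄)-free graph has a bounded block structure. -/
theorem diamond_P1P4_str [Finite V] (hD : Dia G) (hP : P4dom G Set.univ) :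
    Str G 5000 3 Set.univ := by
  classical
  by_cases h4 : ∃ a b c d, G.Adj a b ∧ G.Adj a c ∧ G.Adj a d ∧ G.Adj b c ∧ G.Adj b d ∧ G.Adj c d
  · obtain ⟨a, b, c, d, hab, hac, had, hbc, hbd, hcd⟩ := h4
    refine (case_K4 hD hP (K0 := {a, b, c, d}) ?_ ?_).mono (by norm_num) le_rfl
    · intro u hu v hv huv
      simp only [Finset.mem_insert, Finset.mem_singleton] at hu hv
      rcases hu with rfl | rfl | rfl | rfl <;> rcases hv with rfl | rfl | rfl | rfl <;>
        first
        | exact absurd rfl huv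
        | assumption
        | (apply SimpleGraph.Adj.symm; assumption)
    · rw [Finset.card_insert_of_notMem, Finset.card_insert_of_notMem,
        Finset.card_insert_of_notMem, Finset.card_singleton]
      · simp [hcd.ne]
      · simp [hbc.ne, hbd.ne]
      · simp [hab.ne, hac.ne, had.ne]
  push Not at h4
  have hu : ∀ a b c d, G.Adj a b → G.Adj a c → G.Adj b c → G.Adj a d → G.Adj b d → c = d := by
    intro a b c d hab hac hbc had hbd
    by_contra hcd
    exact h4 a b c d hab hac had hbc hbd (hD a b c d hab hac had hbc hbd hcd)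
  by_cases h3 : ∃ x y z, G.Adj x y ∧ G.Adj y z ∧ G.Adj x z
  · obtain ⟨x, y, z, hxy, hyz, hxz⟩ := h3
    exact (case_tri hD hP hu hxy hyz hxz).mono (by norm_num) le_rfl
  push Not at h3
  exact (trifree_str hD (fun a _ b _ c _ h1 h2 h => h3 a b c h1 h2 h) hP).mono (by norm_num) le_rfl

end H79.BlockWQO
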