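import Pool.Agent.Lib_helper79.Haven

set_option autoImplicit false

namespace Pool.Agent.Lib_helper79

open Cardinal Set

variable {V : Type}

section

variable {X : SimpleGraph V} {G : Type} [CommGroup G] [MulAction G V]

theorem orbits_small (hE : Exact X G) {μ ρ τ : Cardinal.{0}} (hc : Cards μ ρ τ) (hNM : NM X μ)
    (x : V) : #(orbF G ∅ x) ≤ τ := by
  classical
  by_contra hcon
  rw [not_le] at hcon
  set Z : Set V := {y | τ < #(orbF G ∅ y)} with hZ
  set E : Set V := comp X Z x with hEdef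
  have hxE : x ∈ E := self_mem_comp hcon
  set N : Set V := {b | b ∉ E ∧ ∃ c ∈ E, X.Adj b c} with hN
  have hNZ : ∀ b ∈ N, #(orbF G ∅ b) ≤ τ := by
    intro b hb
    by_contra hb2
    rw [not_le] at hb2
    obtain ⟨hbC, c, hcC, hbc⟩ := hb
    exact hbC (comp_closed hcC hb2 hbc.symm)
  have hNlk : ∀ b ∈ N, ∀ b' ∈ N, Lk X μ b b' := by
    intro b hb b' hb'
    obtain ⟨hbC, c, hcC, hbc⟩ := id hb
    obtain ⟨hbC', c', hcC', hbc'⟩ := id hb'
    refine link hE hc.hμ (∅ ∪ {b, b'}) (by simp) (by simp) E hcC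
      (comp_rch hcC hcC') hbc hbc' ?_
    intro y hy
    have hyZ : y ∈ Z := comp_subset hy
    by_contra hy2
    rw [not_lt] at hy2
    have h1 := mk_orbF_le (G := G) ∅ {b, b'} y τ μ hc.oneτ
      (by
        refine le_trans ?_ hc.hμ
        exact (Cardinal.lt_aleph0_of_finite _).le)
      (by
        intro s hs
        rcases hs with rfl | hs
        · exact hNZ _ hb
        · rw [Set.mem_singleton_iff] at hs
          rw [hs]; exact hNZ _ hb')
    rw [hc.hτμ] at h1
    have h2 : #(orbF G ∅ y) ≤ τ := h1.trans (by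
      calc τ * #(orbF G (∅ ∪ {b, b'}) y) ≤ τ * τ :=
            mul_le_mul_right (hy2.trans (hc.hμρ.trans hc.hρτ.le)) τ
        _ = τ := hc.mτ)
    exact absurd hyZ (not_lt.mpr h2)
  have hNle : #N ≤ μ := hNM N hNlk
  obtain ⟨a, haE, ha⟩ := center hE hc hNM E ⟨x, hxE⟩ (fun y hy z hz => comp_rch hy hz)
  have h1 := mk_orbF_le (G := G) ∅ N a τ μ hc.oneτ hNle hNZ
  rw [hc.hτμ] at h1
  have hsub : orbF G (∅ ∪ N) a ⊆ orbF G Eᶜ a := by
    rintro _ ⟨g, hg, rfl⟩
    obtain ⟨g', hg'1, hg'2⟩ := hE.localize E (fun y hy z hz => comp_rch hy hz) g (by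
      intro c hcC b hbC hcb
      exact hg b (Or.inr ⟨hbC, c, hcC, hcb.symm⟩))
    exact ⟨g', fun b hb => hg'2 b hb, (hg'1 a haE).1⟩
  have h2 : #(orbF G ∅ a) ≤ τ := h1.trans (by
    calc τ * #(orbF G (∅ ∪ N) a) ≤ τ * τ :=
          mul_le_mul_right ((Cardinal.mk_le_mk_of_subset hsub).trans ha) τ
      _ = τ := hc.mτ)
  have haZ : a ∈ Z := comp_subset haE
  exact absurd haZ (not_lt.mpr h2)

/-- the components of the complement of `Q` supporting a nontrivial automorphism -/
def bigD (X : SimpleGraph V) (G : Type) [CommGroup G] [MulAction G V] (Q : Set V) : Set (Set V) :=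
  {D | (∃ x, x ∉ Q ∧ D = comp X Qᶜ x) ∧
    ∃ g : G, (∀ y : V, y ∉ D → g • y = y) ∧ ∃ y : V, g • y ≠ y}

theorem bigD_finite (hE : Exact X G) (hfaith : ∀ g : G, (∀ x : V, g • x = x) → g = 1)
    (hsl : ∀ φ : Multiplicative (ℕ → ℤ) →* G,
      ¬ ∀ n : ℕ, φ (Multiplicative.ofAdd (Pi.single n 1)) ≠ 1)
    (Q : Set V) : (bigD X G Q).Finite := by
  classical
  by_contra hinf
  have hinf' : (bigD X G Q).Infinite := hinf
  let e := hinf'.natEmbedding
  let D : ℕ → Set V := fun n => (e n : Set V)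
  have hDinj : ∀ m n, D m = D n → m = n := fun m n h => e.injective (Subtype.ext h)
  have hD1 : ∀ n, ∃ x, x ∉ Q ∧ D n = comp X Qᶜ x := fun n => (e n).2.1
  have hD2 : ∀ n, ∃ g : G, (∀ y : V, y ∉ D n → g • y = y) ∧ ∃ y : V, g • y ≠ y :=
    fun n => (e n).2.2
  choose g hg1 hg2 using hD2
  have hsame : ∀ m n : ℕ, ∀ y z : V, y ∈ D m → z ∈ D n → Rch X Qᶜ y z → m = n := by
    intro m n y z hy hz hyz
    obtain ⟨xm, hxm, hDm⟩ := hD1 m
    obtain ⟨xn, hxn, hDn⟩ := hD1 n
    rw [hDm] at hy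
    rw [hDn] at hz
    apply hDinj
    rw [hDm, hDn]
    have h1 : Rch X Qᶜ xm xn := hy.2.trans (hyz.trans hz.2.symm)
    ext w
    exact ⟨fun h => ⟨h.1, h1.symm.trans h.2⟩, fun h => ⟨h.1, h1.trans h.2⟩⟩
  have hDQ : ∀ n, ∀ y ∈ D n, y ∉ Q := by
    intro n y hy
    obtain ⟨xn, hxn, hDn⟩ := hD1 n
    rw [hDn] at hy
    exact hy.1
  let idx : V → Option ℕ := fun y => if h : ∃ n, y ∈ D n then some h.choose else none
  have hidx1 : ∀ n, ∀ y ∈ D n, idx y = some n := by
    intro n y hy
    have h : ∃ n, y ∈ D n := ⟨n, hy⟩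
    have h2 : idx y = some h.choose := dif_pos h
    rw [h2, hsame _ n y y h.choose_spec hy Rch.rfl']
  have hidx2 : ∀ n y, idx y = some n → y ∈ D n := by
    intro n y hy
    by_cases h : ∃ n, y ∈ D n
    · have h2 : idx y = some h.choose := dif_pos h
      rw [h2] at hy
      have h3 : h.choose = n := Option.some.inj hy
      rw [← h3]; exact h.choose_spec
    · have h2 : idx y = none := dif_neg h
      rw [h2] at hy; exact absurd hy (by simp)
  let k : (ℕ → ℤ) → Option ℕ → G := fun a o => o.elim 1 (fun n => g n ^ a n)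
  have hgz : ∀ (n : ℕ) (z : ℤ) (y : V), y ∉ D n → (g n ^ z) • y = y := by
    intro n z y hy
    have h1 : g n ∈ MulAction.stabilizer G y := hg1 n y hy
    exact zpow_mem h1 z
  have hgD : ∀ (n : ℕ) (z : ℤ) (y : V), y ∈ D n → (g n ^ z) • y ∈ D n := by
    intro n z y hy
    exact fix_preserves (D := D n) (fun b hb => hgz n z b hb) hy
  let f : (ℕ → ℤ) → V → V := fun a y => k a (idx y) • y
  have hf1 : ∀ a n y, y ∈ D n → f a y = (g n ^ a n) • y := by
    intro a n y hy
    show k a (idx y) • y = _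
    rw [hidx1 n y hy]; rfl
  have hf2 : ∀ a y, (∀ n, y ∉ D n) → f a y = y := by
    intro a y hy
    show k a (idx y) • y = _
    have h : idx y = none := dif_neg (fun ⟨n, hn⟩ => hy n hn)
    rw [h]; simp [k]
  have hfadd : ∀ a b y, f (a + b) y = f a (f b y) := by
    intro a b y
    by_cases h : ∃ n, y ∈ D n
    · obtain ⟨n, hn⟩ := h
      rw [hf1 _ n y hn, hf1 b n y hn, hf1 a n _ (hgD n _ y hn), smul_smul, ← zpow_add]
      rfl
    · push Not at h
      rw [hf2 _ y h, hf2 b y h, hf2 a y h]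
  have hf0 : ∀ y, f 0 y = y := by
    intro y
    by_cases h : ∃ n, y ∈ D n
    · obtain ⟨n, hn⟩ := h
      rw [hf1 _ n y hn]; simp
    · push Not at h
      rw [hf2 _ y h]
  have hfadj1 : ∀ a n y z, y ∈ D n → X.Adj y z → X.Adj (f a y) (f a z) := by
    intro a n y z hy hyz
    rw [hf1 a n y hy]
    by_cases hz : ∃ m, z ∈ D m
    · obtain ⟨m, hm⟩ := hz
      have hmn : n = m := hsame n m y z hy hm (Rch.step hyz (hDQ n y hy) (hDQ m z hm))
      subst hmn
      rw [hf1 a n z hm]
      exact hE.adj _ _ _ hyz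
    · push Not at hz
      rw [hf2 a z hz]
      have h1 := hE.adj (g n ^ a n) _ _ hyz
      rwa [hgz n _ z (hz n)] at h1
  have hfadj : ∀ a y z, X.Adj y z → X.Adj (f a y) (f a z) := by
    intro a y z hyz
    by_cases hy : ∃ n, y ∈ D n
    · obtain ⟨n, hn⟩ := hy
      exact hfadj1 a n y z hn hyz
    · by_cases hz : ∃ n, z ∈ D n
      · obtain ⟨n, hn⟩ := hz
        exact (hfadj1 a n z y hn hyz.symm).symm
      · push Not at hy hz
        rw [hf2 a y hy, hf2 a z hz]; exact hyz
  have hex : ∀ a : ℕ → ℤ, ∃ γ : G, ∀ y : V, γ • y = f a y := by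
    intro a
    obtain ⟨γ, hγ⟩ := hE.ex (mkAut X (f a) (f (-a))
      (fun y => by rw [← hfadd]; simp [hf0]) (fun y => by rw [← hfadd]; simp [hf0])
      (hfadj a) (hfadj (-a)))
    exact ⟨γ, hγ⟩
  choose γ hγ using hex
  have heq : ∀ s t : G, (∀ y : V, s • y = t • y) → s = t := by
    intro s t hst
    have h1 : t⁻¹ * s = 1 := hfaith _ (fun y => by
      rw [mul_smul, hst y, inv_smul_smul])
    have h2 : t * (t⁻¹ * s) = t * 1 := by rw [h1]
    simpa using h2
  let φ : Multiplicative (ℕ → ℤ) →* G :=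
    { toFun := fun a => γ (Multiplicative.toAdd a)
      map_one' := by
        apply hfaith
        intro y
        show γ 0 • y = y
        rw [hγ, hf0]
      map_mul' := by
        intro a b
        apply heq
        intro y
        show γ (Multiplicative.toAdd a + Multiplicative.toAdd b) • y = _
        rw [hγ, hfadd, mul_smul, hγ, hγ] }
  apply hsl φ
  intro n hn
  obtain ⟨y, hy⟩ := hg2 n
  have hyD : y ∈ D n := by
    by_contra h
    exact hy (hg1 n y h)
  apply hy
  have h1 : φ (Multiplicative.ofAdd (Pi.single n 1)) • y = g n • y := by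
    show γ (Pi.single n 1) • y = g n • y
    rw [hγ, hf1 _ n y hyD]
    simp
  rw [← h1, hn, one_smul]

lemma exists_enum {B : Type} {A : Set V} (x0 : V) (h : #A ≤ #B) :
    ∃ f : B → V, A ⊆ Set.range f ∧ Set.range f ⊆ A ∪ {x0} := by
  classical
  obtain ⟨e⟩ := Cardinal.le_def _ _ |>.mp h
  refine ⟨fun b => if hb : ∃ a : A, e a = b then (hb.choose : V) else x0, ?_, ?_⟩
  · intro a ha
    have hb : ∃ a' : A, e a' = e ⟨a, ha⟩ := ⟨⟨a, ha⟩, rfl⟩
    refine ⟨e ⟨a, ha⟩, ?_⟩
    show (if hb : ∃ a' : A, e a' = e ⟨a, ha⟩ then (hb.choose : V) else x0) = a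
    rw [dif_pos hb]
    have h1 := e.injective hb.choose_spec
    rw [h1]
  · rintro _ ⟨b, rfl⟩
    by_cases hb : ∃ a : A, e a = b
    · left
      show (if hb : ∃ a : A, e a = b then (hb.choose : V) else x0) ∈ A
      rw [dif_pos hb]; exact hb.choose.2
    · right
      show (if hb : ∃ a : A, e a = b then (hb.choose : V) else x0) ∈ ({x0} : Set V)
      rw [dif_neg hb]; rfl

/-- arities of the closure operations -/
def ar (B : Type) : Option B → Type
  | none => Empty
  | some _ => B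

/-- sets of size at most `2 ^ μ` closed under a small-valued operator on small sets -/
lemma exists_closed {μ ρ τ : Cardinal.{0}} (hc : Cards μ ρ τ) (x0 : V) (Φ : Set V → Set V)
    (hΦ : ∀ Q : Set V, #Q ≤ μ → #(Φ Q) ≤ μ) :
    ∃ M : Set V, x0 ∈ M ∧ #M ≤ ρ ∧ ∀ Q : Set V, Q ⊆ M → Q.Nonempty → #Q ≤ μ → Φ Q ⊆ M := by
  classical
  obtain ⟨B, hB⟩ : ∃ B : Type, #B = μ := ⟨μ.out, Cardinal.mk_out μ⟩
  -- for every `q : B → V`, enumerate `Φ (range q)`
  have hq : ∀ q : B → V, ∃ f : B → V, Φ (Set.range q) ⊆ Set.range f := by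
    intro q
    have h1 : #(Φ (Set.range q)) ≤ #B := by
      rw [hB]
      apply hΦ
      exact Cardinal.mk_range_le.trans hB.le
    obtain ⟨f, hf, _⟩ := exists_enum x0 h1
    exact ⟨f, hf⟩
  choose φ hφ using hq
  let ev : WType (ar B) → V := WType.elim V (fun p : Σ a : Option B, (ar B a → V) =>
    match p with
    | ⟨none, _⟩ => x0
    | ⟨some b, q⟩ => φ q b)
  refine ⟨Set.range ev, ?_, ?_, ?_⟩
  · exact ⟨WType.mk none (fun e => Empty.elim e), rfl⟩
  · refine Cardinal.mk_range_le.trans ?_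
    apply WType.cardinalMk_le_of_le'
    calc Cardinal.sum (fun a : Option B => ρ ^ Cardinal.lift.{0} #(ar B a))
        ≤ Cardinal.sum (fun _ : Option B => ρ) := by
          apply Cardinal.sum_le_sum
          intro a
          cases a with
          | none =>
            have : #(ar B none) = 0 := by
              show #Empty = 0
              simp
            simp only [Cardinal.lift_id, this, Cardinal.power_zero]
            exact hc.oneρ
          | some b =>
            have : #(ar B (some b)) = μ := hB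
            simp only [Cardinal.lift_id, this]
            exact hc.hρ.le
      _ = #(Option B) * ρ := by simp
      _ ≤ ρ * ρ := by
        refine mul_le_mul_left ?_ ρ
        rw [Cardinal.mk_option, hB]
        calc μ + 1 ≤ ρ + ρ := add_le_add hc.hμρ hc.oneρ
          _ = ρ := Cardinal.add_eq_self hc.aρ
      _ = ρ := hc.mρ
  · intro Q hQM hQne hQc
    obtain ⟨q0, hq0⟩ := hQne
    obtain ⟨q, hq1, hq2⟩ := exists_enum (B := B) (A := Q) q0 (by rw [hB]; exact hQc)
    have hrange : Set.range q = Q := by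
      apply Set.Subset.antisymm
      · intro z hz
        rcases hq2 hz with h | h
        · exact h
        · rw [Set.mem_singleton_iff] at h
          rw [h]; exact hq0
      · exact hq1
    have hlift : ∀ b : B, ∃ w : WType (ar B), ev w = q b := by
      intro b
      have : q b ∈ Q := by rw [← hrange]; exact ⟨b, rfl⟩
      exact hQM this
    choose w hw using hlift
    have hkey : ∀ b : B, φ q b ∈ Set.range ev := by
      intro b
      refine ⟨WType.mk (some b) w, ?_⟩
      show φ (fun b' => ev (w b')) b = φ q b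
      have : (fun b' => ev (w b')) = q := funext hw
      rw [this]
    intro z hz
    have h1 : z ∈ Φ (Set.range q) := by rw [hrange]; exact hz
    obtain ⟨b, rfl⟩ := hφ q h1
    exact hkey b

theorem card_group_le (hE : Exact X G) (hfaith : ∀ g : G, (∀ x : V, g • x = x) → g = 1)
    (hsl : ∀ φ : Multiplicative (ℕ → ℤ) →* G,
      ¬ ∀ n : ℕ, φ (Multiplicative.ofAdd (Pi.single n 1)) ≠ 1)
    {μ ρ τ : Cardinal.{0}} (hc : Cards μ ρ τ) (hNM : NM X μ) : #G ≤ τ := by
  classical
  rcases isEmpty_or_nonempty V with hV | ⟨⟨x0⟩⟩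
  · have : Subsingleton G := ⟨fun a b => by
      rw [hfaith a (fun x => (hV.false x).elim), hfaith b (fun x => (hV.false x).elim)]⟩
    exact (Cardinal.le_one_iff_subsingleton.mpr this).trans hc.oneτ
  -- separators
  have hsep : ∀ x y : V, ∃ S : Set V, #S ≤ μ ∧
      (¬ Lk X μ x y → x ∉ S ∧ y ∉ S ∧ ¬ Rch X Sᶜ x y) := by
    intro x y
    by_cases h : Lk X μ x y
    · exact ⟨∅, by simp, fun h' => absurd h h'⟩
    · have h2 := h
      unfold Lk at h2
      push Not at h2
      obtain ⟨S, hS1, hS2, hS3, hS4⟩ := h2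
      exact ⟨S, hS1, fun _ => ⟨hS2, hS3, hS4⟩⟩
  choose Sep hSep1 hSep2 using hsep
  -- representatives
  have hrep : ∀ Q : Set V, ∃ R : Set V, R.Finite ∧ ∀ D ∈ bigD X G Q, ∃ x ∈ R, x ∈ D := by
    intro Q
    have hfin := bigD_finite hE hfaith hsl Q
    have hne : ∀ D ∈ bigD X G Q, ∃ x, x ∈ D := by
      rintro D ⟨⟨x, hx, rfl⟩, _⟩
      exact ⟨x, self_mem_comp hx⟩
    have : Nonempty V := ⟨x0⟩
    choose! r hr using hne
    refine ⟨r '' bigD X G Q, hfin.image r, ?_⟩
    intro D hD
    exact ⟨r D, ⟨D, hD, rfl⟩, hr D hD⟩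
  choose R hR1 hR2 using hrep
  let Φ : Set V → Set V := fun Q => (R Q ∪ R ∅) ∪ ⋃ x : Q, ⋃ y : Q, Sep x y
  have hfinμ : ∀ A : Set V, A.Finite → #A ≤ μ := fun A hA =>
    (Cardinal.lt_aleph0_iff_set_finite.mpr hA).le.trans hc.hμ
  have hΦ : ∀ Q : Set V, #Q ≤ μ → #(Φ Q) ≤ μ := by
    intro Q hQ
    calc #(Φ Q) ≤ #(R Q ∪ R ∅ : Set V) + #(⋃ x : Q, ⋃ y : Q, Sep x y : Set V) :=
          Cardinal.mk_union_le _ _
      _ ≤ μ + μ := by
        refine add_le_add (hfinμ _ ((hR1 Q).union (hR1 ∅))) ?_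
        exact mk_iUnion_le_c hc.hμ hQ (fun x => mk_iUnion_le_c hc.hμ hQ (fun y => hSep1 x y))
      _ = μ := Cardinal.add_eq_self hc.hμ
  obtain ⟨M, hx0M, hMρ, hMcl⟩ := exists_closed hc x0 Φ hΦ
  -- the pointwise stabilizer of M is trivial
  have htriv : ∀ g : G, (∀ m ∈ M, g • m = m) → g = 1 := by
    intro g hg
    apply hfaith
    intro x
    by_contra hgx
    have hxM : x ∉ M := fun h => hgx (hg x h)
    set C : Set V := comp X Mᶜ x with hCdef
    have hxC : x ∈ C := self_mem_comp hxM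
    have hCM : ∀ c ∈ C, c ∉ M := fun c hc' => comp_subset hc'
    set N : Set V := {b | b ∉ C ∧ ∃ c ∈ C, X.Adj b c} with hN
    have hNM' : N ⊆ M := by
      rintro b ⟨hbC, c, hcC, hbc⟩
      by_contra hbM
      exact hbC (comp_closed hcC hbM hbc.symm)
    have hNlk : ∀ b ∈ N, ∀ b' ∈ N, Lk X μ b b' := by
      intro b hb b' hb'
      by_contra hno
      obtain ⟨h1, h2, h3⟩ := hSep2 b b' hno
      apply h3
      have hsub : Sep b b' ⊆ M := by
        have h4 : Φ {b, b'} ⊆ M := by
          apply hMcl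
          · intro z hz
            rcases hz with rfl | hz
            · exact hNM' hb
            · rw [Set.mem_singleton_iff] at hz; rw [hz]; exact hNM' hb'
          · exact ⟨b, by simp⟩
          · exact hfinμ _ (Set.toFinite _)
        intro z hz
        apply h4
        right
        rw [Set.mem_iUnion]
        refine ⟨⟨b, by simp⟩, ?_⟩
        rw [Set.mem_iUnion]
        exact ⟨⟨b', by simp⟩, hz⟩
      obtain ⟨hbC, c, hcC, hbc⟩ := hb
      obtain ⟨hbC', c', hcC', hbc'⟩ := hb'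
      have hCS : C ⊆ (Sep b b')ᶜ := fun z hz h => hCM z hz (hsub h)
      exact (Rch.step hbc h1 (hCS hcC)).trans
        (((comp_rch hcC hcC').mono hCS).trans (Rch.step hbc'.symm (hCS hcC') h2))
    have hNle : #N ≤ μ := hNM N hNlk
    obtain ⟨g', hg'1, hg'2⟩ := hE.localize C (fun y hy z hz => comp_rch hy hz) g (by
      intro c hcC b hbC hcb
      exact hg b (hNM' ⟨hbC, c, hcC, hcb.symm⟩))
    have hg'x : g' • x ≠ x := by rw [(hg'1 x hxC).1]; exact hgx
    have hxN : x ∉ N := fun h => hxM (hNM' h)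
    have hCeq : C = comp X Nᶜ x := by
      apply Set.Subset.antisymm
      · exact comp_mono (fun z hz h => hz (hNM' h))
      · rintro y ⟨hyN, hy⟩
        induction hy with
        | refl => exact hxC
        | @tail b c hab hbc ih =>
          have hb := ih hbc.2.1
          by_contra hcC
          exact hbc.2.2 ⟨hcC, b, hb, hbc.1.symm⟩
    have hCbig : C ∈ bigD X G N := ⟨⟨x, hxN, hCeq⟩, g', hg'2, x, hg'x⟩
    obtain ⟨z, hzR, hzC⟩ := hR2 N C hCbig
    apply hCM z hzC
    rcases N.eq_empty_or_nonempty with hNe | hNne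
    · have h4 : Φ {x0} ⊆ M := by
        apply hMcl
        · intro w hw
          rw [Set.mem_singleton_iff] at hw
          rw [hw]; exact hx0M
        · exact ⟨x0, rfl⟩
        · exact hfinμ _ (Set.toFinite _)
      apply h4
      left; right
      rw [← hNe]; exact hzR
    · exact hMcl N hNM' hNne hNle (Or.inl (Or.inl hzR))
  -- injection into a product of orbits
  let F : G → (∀ m : M, orbF G ∅ (m : V)) := fun g m => ⟨g • (m : V), g, by simp, rfl⟩
  have hF : Function.Injective F := by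
    intro s t hst
    have h1 : t⁻¹ * s = 1 := by
      apply htriv
      intro m hm
      have h2 : s • m = t • m := congrArg Subtype.val (congrFun hst ⟨m, hm⟩)
      rw [mul_smul, h2, inv_smul_smul]
    have h2 : t * (t⁻¹ * s) = t * 1 := by rw [h1]
    simpa using h2
  calc #G ≤ #(∀ m : M, orbF G ∅ (m : V)) := Cardinal.mk_le_of_injective hF
    _ = Cardinal.prod (fun m : M => #(orbF G ∅ (m : V))) := by rw [← Cardinal.mk_pi]
    _ ≤ Cardinal.prod (fun _ : M => τ) :=
        Cardinal.prod_le_prod _ _ (fun m => orbits_small hE hc hNM m)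
    _ = τ ^ #M := by simp
    _ ≤ τ ^ ρ := Cardinal.power_le_power_left (by
        intro h0; have := hc.oneτ; rw [h0] at this; simp at this) hMρ
    _ = τ := hc.hτ

end

end Pool.Agent.Lib_helper79
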