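import Pool.Agent.Lib_helper79.QTriFree

/-! `P₁+2P₂`-free diamond-free graphs with a clique of size four. -/

namespace H79.BlockWQO

open Set

variable {V : Type} {G : SimpleGraph V}

/-- transport of a relation along a coding -/
def liftR {L : Type} (e : L → ℕ) (R : L → L → Prop) : ℕ → ℕ → Prop :=
  fun p q => ∃ a b, e a = p ∧ e b = q ∧ R a b

theorem liftR_iff {L : Type} {e : L → ℕ} (he : Function.Injective e) (R : L → L → Prop)
    (a b : L) : liftR e R (e a) (e b) ↔ R a b := by
  constructor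
  · rintro ⟨a', b', ha, hb, h⟩
    rw [he ha, he hb] at h
    exact h
  · intro h
    exact ⟨a, b, rfl, rfl, h⟩

theorem Blk.oneL [Finite V] {L : Type} {e : L → ℕ} (he : Function.Injective e) {l : V → L}
    {A : Set V} (R : L → L → Prop)
    (hR : ∀ u ∈ A, ∀ v ∈ A, u ≠ v → (G.Adj u v ↔ R (l u) (l v))) :
    Blk G (fun v => e (l v)) 1 A :=
  Blk.one (liftR e R) (fun u hu v hv huv => by rw [liftR_iff he]; exact hR u hu v hv huv)

theorem Blk.of_indexL [Finite V] {L : Type} {e : L → ℕ} (he : Function.Injective e) {l : V → L}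
    {n : ℕ} {A : Set V} {β : Type} (c : V → β) (R : L → L → Prop)
    (hR : ∀ u ∈ A, ∀ v ∈ A, c u ≠ c v → (G.Adj u v ↔ R (l u) (l v)))
    (hb : ∀ w ∈ A, Blk G (fun v => e (l v)) n {v | v ∈ A ∧ c v = c w}) :
    Blk G (fun v => e (l v)) (n + 1) A :=
  Blk.of_index c (liftR e R) (fun u hu v hv huv => by
    rw [liftR_iff he]; exact hR u hu v hv huv) hb

theorem Str.ofL {L : Type} [Fintype L] {l : V → L} {n : ℕ} {A : Set V}
    (h : ∀ e : L → ℕ, Function.Injective e → Blk G (fun v => e (l v)) n A) :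
    Str G (Fintype.card L) n A := by
  classical
  let e : L → ℕ := fun a => (Fintype.equivFin L a).val
  have he : Function.Injective e := fun a b hab => (Fintype.equivFin L).injective (Fin.ext hab)
  exact ⟨fun v => e (l v), fun v _ => (Fintype.equivFin L (l v)).isLt, h e he⟩

/-- `(P₁+P₂)`-free diamond-free graphs are uniform for two labels -/
theorem uni_P1P2 (hD : Dia G) {O : Set V}
    (hO : ∀ p ∈ O, ∀ q ∈ O, ∀ t ∈ O, G.Adj p q → G.Adj t p ∨ G.Adj t q) :
    ∃ (s : V → Bool) (S : Bool → Bool → Prop), ∀ u ∈ O, ∀ v ∈ O, u ≠ v →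
      (G.Adj u v ↔ S (s u) (s v)) := by
  classical
  by_cases hT : ∃ x ∈ O, ∃ y ∈ O, ∃ z ∈ O, G.Adj x y ∧ G.Adj y z ∧ G.Adj x z
  · obtain ⟨x, hx, y, hy, z, hz, hxy, hyz, hxz⟩ := hT
    refine ⟨fun _ => true, fun _ _ => True, ?_⟩
    intro u hu v hv huv
    simp only [iff_true]
    by_contra hn
    -- adjacency of `u` and `v` to a vertex agree
    have tw : ∀ w ∈ O, G.Adj u w → G.Adj v w := by
      intro w hw h
      rcases hO u hu w hw v hv h with h' | h'
      · exact absurd h'.symm hn
      · exact h'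
    have fin : ∀ a ∈ O, ∀ b ∈ O, G.Adj a b → G.Adj u a → G.Adj u b → False := by
      intro a ha b hb hab h1 h2
      exact hn (hD a b u v hab h1.symm (tw a ha h1).symm h2.symm (tw b hb h2).symm huv)
    rcases hO x hx y hy u hu hxy with h1 | h1
    · rcases hO y hy z hz u hu hyz with h2 | h2
      · exact fin x hx y hy hxy h1 h2
      · exact fin x hx z hz hxz h1 h2
    · rcases hO x hx z hz u hu hxz with h2 | h2
      · exact fin x hx y hy hxy h2 h1
      · exact fin y hy z hz hyz h1 h2
  · push Not at hT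
    by_cases hne : O.Nonempty
    · obtain ⟨o, ho⟩ := hne
      refine ⟨fun v => decide (G.Adj v o), fun p q => p ≠ q, ?_⟩
      intro u hu v hv huv
      by_cases h1 : G.Adj u o <;> by_cases h2 : G.Adj v o
      · simp only [h1, h2, decide_true, ne_eq, not_true_eq_false, iff_false]
        intro h
        exact hT u hu v hv o ho h h2 h1
      · simp only [h1, h2, decide_true, decide_false, ne_eq, Bool.true_eq_false,
          not_false_eq_true, iff_true]
        rcases hO u hu o ho v hv h1 with h | h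
        · exact h.symm
        · exact absurd h h2
      · simp only [h1, h2, decide_true, decide_false, ne_eq, Bool.false_eq_true,
          not_false_eq_true, iff_true]
        rcases hO v hv o ho u hu h2 with h | h
        · exact h
        · exact absurd h h1
      · simp only [h1, h2, decide_false, ne_eq, not_true_eq_false, iff_false]
        intro h
        rcases hO u hu v hv o ho h with h' | h'
        · exact h1 h'.symm
        · exact h2 h'.symm
    · refine ⟨fun _ => true, fun _ _ => True, ?_⟩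
      intro u hu
      exact absurd ⟨u, hu⟩ hne

/-- cliques of size at least five -/
theorem q_K5 [Finite V] (hD : Dia G) (hQ : QF G) {K : Finset V}
    (hK : ∀ u ∈ K, ∀ v ∈ K, u ≠ v → G.Adj u v)
    (hatt : ∀ o, o ∉ K → ∀ a ∈ K, ∀ b ∈ K, G.Adj o a → G.Adj o b → a = b)
    (hcard : 5 ≤ K.card) : Str G 3 2 Set.univ := by
  classical
  -- attachment function
  have hex : ∀ o, o ∉ K → ∃ a, ∀ k ∈ K, G.Adj o k → k = a := by
    intro o ho
    by_cases h : ∃ a ∈ K, G.Adj o a
    · obtain ⟨a, ha, hoa⟩ := h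
      exact ⟨a, fun k hk hok => hatt o ho k hk a ha hok hoa⟩
    · push Not at h
      exact ⟨o, fun k hk hok => absurd hok (h k hk)⟩
  have hO : ∀ p ∈ {v | v ∉ K}, ∀ q ∈ {v | v ∉ K}, ∀ t ∈ {v | v ∉ K}, G.Adj p q →
      G.Adj t p ∨ G.Adj t q := by
    intro p hp q hq t ht hpq
    by_contra hcon
    push Not at hcon
    obtain ⟨ap, hap⟩ := hex p hp
    obtain ⟨aq, haq⟩ := hex q hq
    obtain ⟨at', hat⟩ := hex t ht
    have h1 : 1 < (K \ {ap, aq, at'}).card := by
      have h2 := Finset.le_card_sdiff ({ap, aq, at'} : Finset V) K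
      have h3 : ({ap, aq, at'} : Finset V).card ≤ 3 := Finset.card_le_three
      omega
    obtain ⟨k1, hk1, k2, hk2, hne⟩ := Finset.one_lt_card.mp h1
    simp only [Finset.mem_sdiff, Finset.mem_insert, Finset.mem_singleton, not_or] at hk1 hk2
    exact hQ p q k1 k2 t hpq (hK k1 hk1.1 k2 hk2.1 hne)
      (fun h => hk1.2.1 (hap k1 hk1.1 h)) (fun h => hk2.2.1 (hap k2 hk2.1 h))
      (fun h => hk1.2.2.1 (haq k1 hk1.1 h)) (fun h => hk2.2.2.1 (haq k2 hk2.1 h))
      hcon.1 hcon.2
      (fun h => hk1.2.2.2 (hat k1 hk1.1 h)) (fun h => hk2.2.2.2 (hat k2 hk2.1 h))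
  obtain ⟨s, S, hS⟩ := uni_P1P2 hD hO
  let l : V → Option Bool := fun v => if v ∈ K then none else some (s v)
  have lK : ∀ v ∈ K, l v = none := fun v hv => if_pos hv
  have lO : ∀ v, v ∉ K → l v = some (s v) := fun v hv => if_neg hv
  let c : V → V := fun v => if v ∈ K then v else if h : ∃ a ∈ K, G.Adj v a then h.choose else v
  have cK : ∀ v ∈ K, c v = v := fun v hv => by simp only [c, if_pos hv]
  have cL : ∀ v, v ∉ K → ∀ a ∈ K, G.Adj v a → c v = a := by
    intro v hv a ha hva
    have h : ∃ a ∈ K, G.Adj v a := ⟨a, ha, hva⟩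
    simp only [c, if_neg hv, dif_pos h]
    exact hatt v hv _ h.choose_spec.1 _ ha h.choose_spec.2 hva
  have cL' : ∀ v, v ∉ K → (c v ∈ K ∧ G.Adj v (c v)) ∨ c v = v := by
    intro v hv
    by_cases h : ∃ a ∈ K, G.Adj v a
    · left
      simp only [c, if_neg hv, dif_pos h]
      exact ⟨h.choose_spec.1, h.choose_spec.2⟩
    · right
      simp only [c, if_neg hv, dif_neg h]
  have key : Str G (Fintype.card (Option Bool)) 2 Set.univ := by
    apply Str.ofL (l := l)
    intro e he
    refine Blk.of_indexL he c (fun p q => (p = none ∧ q = none) ∨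
      ∃ a b, p = some a ∧ q = some b ∧ S a b) ?_ ?_
    · intro u _ v _ huv
      have huv' : u ≠ v := fun h => huv (by rw [h])
      by_cases hu : u ∈ K <;> by_cases hv : v ∈ K
      · simp [lK u hu, lK v hv, hK u hu v hv huv']
      · simp only [lK u hu, lO v hv, reduceCtorEq, and_false, false_and, exists_false,
          or_false, iff_false]
        intro h
        exact huv ((cK u hu).trans (cL v hv u hu h.symm).symm)
      · simp only [lO u hu, lK v hv, reduceCtorEq, and_false, false_and, exists_false,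
          or_false, iff_false]
        intro h
        exact huv ((cL u hu v hv h).trans (cK v hv).symm)
      · simp only [lO u hu, lO v hv, reduceCtorEq, false_and, Option.some.injEq,
          false_or]
        rw [hS u hu v hv huv']
        constructor
        · intro h
          exact ⟨_, _, rfl, rfl, h⟩
        · rintro ⟨a, b, rfl, rfl, h⟩
          exact h
    · intro w _
      refine Blk.oneL he (fun p q => p = none ∨ q = none ∨
        ∃ a b, p = some a ∧ q = some b ∧ S a b) ?_
      rintro u ⟨_, hcu⟩ v ⟨_, hcv⟩ huv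
      have hc : c u = c v := hcu.trans hcv.symm
      by_cases hu : u ∈ K <;> by_cases hv : v ∈ K
      · exact absurd ((cK u hu).symm.trans (hc.trans (cK v hv))) huv
      · simp only [lK u hu, true_or, iff_true]
        rcases cL' v hv with h | h
        · rw [← hc, cK u hu] at h
          exact h.2.symm
        · rw [← hc, cK u hu] at h
          exact absurd h huv
      · simp only [lK v hv, true_or, or_true, iff_true]
        rcases cL' u hu with h | h
        · rw [hc, cK v hv] at h
          exact h.2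
        · rw [hc, cK v hv] at h
          exact absurd h.symm huv
      · simp only [lO u hu, lO v hv, reduceCtorEq, Option.some.injEq, false_or]
        rw [hS u hu v hv huv]
        constructor
        · intro h
          exact ⟨_, _, rfl, rfl, h⟩
        · rintro ⟨a, b, rfl, rfl, h⟩
          exact h
  exact key.mono (by simp) le_rfl

/-- cliques of size four -/
theorem q_K4 [Finite V] (hD : Dia G) (hQ : QF G) {k : Fin 4 → V}
    (hK : ∀ i j, i ≠ j → G.Adj (k i) (k j))
    (hatt : ∀ o, (∀ i, o ≠ k i) → ∀ i j, G.Adj o (k i) → G.Adj o (k j) → i = j) :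
    Str G 1048576 1 {v | ∀ i, v ≠ k i} := by
  classical
  have hcard : Fintype.card ((Fin 4 → Bool) × (Fin 4 → Fin 4 → Bool)) = 1048576 := by
    simp only [Fintype.card_prod, Fintype.card_pi, Fintype.card_bool, Finset.prod_const,
      Finset.card_univ, Fintype.card_fin]
    norm_num
  have hO : ∀ i j, ∀ p ∈ {v | (∀ i, v ≠ k i) ∧ ∀ l, l ≠ i → l ≠ j → ¬ G.Adj v (k l)},
      ∀ q ∈ {v | (∀ i, v ≠ k i) ∧ ∀ l, l ≠ i → l ≠ j → ¬ G.Adj v (k l)},
      ∀ t ∈ {v | (∀ i, v ≠ k i) ∧ ∀ l, l ≠ i → l ≠ j → ¬ G.Adj v (k l)}, G.Adj p q →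
      G.Adj t p ∨ G.Adj t q := by
    intro i j p hp q hq t ht hpq
    obtain ⟨l, l', hll, h1, h2, h3, h4⟩ := (by decide : ∀ i j : Fin 4, ∃ l l' : Fin 4, l ≠ l' ∧
      l ≠ i ∧ l ≠ j ∧ l' ≠ i ∧ l' ≠ j) i j
    by_contra hcon
    push Not at hcon
    exact hQ p q (k l) (k l') t hpq (hK l l' hll) (hp.2 l h1 h2) (hp.2 l' h3 h4) (hq.2 l h1 h2)
      (hq.2 l' h3 h4) hcon.1 hcon.2 (ht.2 l h1 h2) (ht.2 l' h3 h4)
  choose s S hS using fun i j => uni_P1P2 hD (hO i j)
  rw [← hcard]
  apply Str.ofL (L := (Fin 4 → Bool) × (Fin 4 → Fin 4 → Bool))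
    (l := fun v => (fun i => decide (G.Adj v (k i)), fun i j => s i j v))
  intro e he
  refine Blk.oneL he (fun a b => ∃ i j, (∀ l, l ≠ i → l ≠ j → a.1 l = false ∧ b.1 l = false) ∧
    S i j (a.2 i j) (b.2 i j)) ?_
  intro u hu v hv huv
  simp only [decide_eq_false_iff_not]
  constructor
  · intro h
    -- find a suitable pair
    obtain ⟨i, hi⟩ : ∃ i, ∀ l, l ≠ i → ¬ G.Adj u (k l) := by
      by_cases hc : ∃ i, G.Adj u (k i)
      · obtain ⟨i, hi⟩ := hc
        exact ⟨i, fun l hl h' => hl (hatt u hu l i h' hi)⟩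
      · push Not at hc
        exact ⟨0, fun l _ => hc l⟩
    obtain ⟨j, hj⟩ : ∃ i, ∀ l, l ≠ i → ¬ G.Adj v (k l) := by
      by_cases hc : ∃ i, G.Adj v (k i)
      · obtain ⟨i, hi⟩ := hc
        exact ⟨i, fun l hl h' => hl (hatt v hv l i h' hi)⟩
      · push Not at hc
        exact ⟨0, fun l _ => hc l⟩
    refine ⟨i, j, fun l h1 h2 => ⟨hi l h1, hj l h2⟩, ?_⟩
    exact (hS i j u ⟨hu, fun l h1 _ => hi l h1⟩ v ⟨hv, fun l _ h2 => hj l h2⟩ huv).mp h
  · rintro ⟨i, j, h1, h2⟩
    exact (hS i j u ⟨hu, fun l a b => (h1 l a b).1⟩ v ⟨hv, fun l a b => (h1 l a b).2⟩ huv).mpr h2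

end H79.BlockWQO
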