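import Pool.Agent.Lib_helper79.QTour

/-! Structure of (diamond, `P₁+2P₂`)-free graphs. -/

namespace H79.BlockWQO

open Set

variable {V : Type} {G : SimpleGraph V}

/-- adding vertices whose adjacencies are given by labels -/
theorem Str.add_uniform [Finite V] {L : Type} [Fintype L] {m n : ℕ} {B M : Set V}
    (h : Str G m (n + 2) B) (l : V → L) (T : L → L → Prop)
    (hT : ∀ u ∈ M, ∀ v ∈ B ∪ M, u ≠ v → (G.Adj u v ↔ T (l u) (l v))) :
    Str G (Fintype.card (Option (Fin m) × L)) (n + 2) (B ∪ M) := by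
  classical
  obtain ⟨ℓ, hℓ, b, R, hR, hb⟩ := h
  let lab : V → Option (Fin m) × L := fun v =>
    (if v ∈ M then none else if h : ℓ v < m then some ⟨ℓ v, h⟩ else none, l v)
  have labM : ∀ v ∈ M, lab v = (none, l v) := fun v hv => by simp only [lab, if_pos hv]
  have labB : ∀ v ∈ B, v ∉ M → ∃ h : ℓ v < m, lab v = (some ⟨ℓ v, h⟩, l v) := fun v hv hvM =>
    ⟨hℓ v hv, by simp only [lab, if_neg hvM, dif_pos (hℓ v hv)]⟩
  have hBM : ∀ v ∈ B ∪ M, v ∉ M → v ∈ B := by
    rintro v (hv | hv) hvM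
    · exact hv
    · exact absurd hv hvM
  apply Str.ofL (l := lab)
  intro e he
  refine ⟨fun v => if v ∈ M then 0 else b v + 1, liftR e (fun p q =>
    (p.1 = none ∧ T p.2 q.2) ∨ (∃ x y, p.1 = some x ∧ q.1 = some y ∧ R x.val y.val)), ?_, ?_⟩
  · intro u hu v hv huv
    rw [liftR_iff he]
    have hvM : v ∉ M := by
      intro h
      simp [h] at huv
    by_cases huM : u ∈ M
    · have hne : u ≠ v := by
        rintro rfl; exact hvM huM
      rw [labM u huM, hT u huM v hv hne]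
      simp only [true_and, reduceCtorEq, false_and, exists_false, or_false]
      obtain ⟨_, h2⟩ := labB v (hBM v hv hvM) hvM
      rw [h2]
    · obtain ⟨a1, h1⟩ := labB u (hBM u hu huM) huM
      obtain ⟨a2, h2⟩ := labB v (hBM v hv hvM) hvM
      simp only [if_neg huM, if_neg hvM] at huv
      rw [h1, h2, hR u (hBM u hu huM) v (hBM v hv hvM) (by omega)]
      simp only [reduceCtorEq, false_and, Option.some.injEq, false_or]
      constructor
      · intro h
        exact ⟨_, _, rfl, rfl, h⟩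
      · rintro ⟨x, y, rfl, rfl, h⟩
        exact h
  · intro k
    rcases k with _ | k
    · refine (Blk.oneL he (fun p q => T p.2 q.2) ?_).mono (by omega)
      rintro u ⟨hu, hu0⟩ v ⟨hv, hv0⟩ huv
      have huM : u ∈ M := by
        by_contra h
        simp [h] at hu0
      exact hT u huM v hv huv
    · have h2 : {w | w ∈ B ∪ M ∧ (if w ∈ M then 0 else b w + 1) = k + 1} ⊆
          {w | w ∈ B ∧ b w = k} := by
        rintro w ⟨hw, hwk⟩
        by_cases hwM : w ∈ M
        · simp [hwM] at hwk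
        · simp only [if_neg hwM] at hwk
          exact ⟨hBM w hw hwM, by omega⟩
      -- decode the old label
      let g : ℕ → ℕ := fun p => if h : ∃ a : Option (Fin m) × L, e a = p then
        (match h.choose.1 with
          | none => 0
          | some x => x.val) else 0
      have hg : ∀ a : Option (Fin m) × L, g (e a) = match a.1 with
          | none => 0
          | some x => x.val := by
        intro a
        have hex : ∃ a' : Option (Fin m) × L, e a' = e a := ⟨a, rfl⟩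
        simp only [g, dif_pos hex]
        rw [he hex.choose_spec]
      refine ((hb k).subset h2).relabel g (fun w hw => ?_)
      have hw' := h2 hw
      have hwM : w ∉ M := by
        intro h
        have := hw.2
        simp [h] at this
      obtain ⟨a1, h1⟩ := labB w hw'.1 hwM
      rw [h1, hg]

section indep

variable {A : Set V} {cl : V → Fin 3} {x : Fin 3 → V}
  (hQ : QF G)
  (hI : ∀ u ∈ A, ∀ v ∈ A, cl u = cl v → ¬ G.Adj u v)
  (hch : ∀ u ∈ A, ∀ u' ∈ A, ∀ v ∈ A, ∀ v' ∈ A, cl u = cl u' → cl v = cl v' → G.Adj u v →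
    G.Adj u' v' → G.Adj u v' ∨ G.Adj u' v)
  (hu : ∀ a b c d, G.Adj a b → G.Adj a c → G.Adj b c → G.Adj a d → G.Adj b d → c = d)
  (hx1 : ∀ v ∈ A, G.Adj v (x (cl v))) (hx2 : ∀ v ∈ A, ∀ k, k ≠ cl v → ¬ G.Adj v (x k))
  {τ : Fin 3 → V} (hτ : ∀ i, τ i ∈ A) (hτc : ∀ i, cl (τ i) = i)
  (hτn : ∀ i j, ¬ G.Adj (τ i) (τ j))

include hQ hI hx1 hx2 hτ hτc hτn in
theorem ind1 {p : V} (hp : p ∈ A) {j k : Fin 3} (_ : j ≠ cl p) (hk : k ≠ cl p)
    (h : G.Adj p (τ j)) : G.Adj p (τ k) := by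
  by_cases hjk : j = k
  · rw [← hjk]; exact h
  by_contra hn
  have e1 := hx1 (τ k) (hτ k)
  rw [hτc] at e1
  refine hQ p (τ j) (x k) (τ k) (τ (cl p)) h e1.symm (hx2 p hp k hk) hn
    (hx2 _ (hτ j) k (by rw [hτc]; exact Ne.symm hjk)) (hτn j k) ?_ (hτn _ _)
    (hx2 _ (hτ _) k (by rw [hτc]; exact hk)) (hτn _ _)
  exact hI _ (hτ _) p hp (hτc _)

include hQ hI hx1 hx2 hτ hτc hτn in
theorem ind2 {p q : V} (hp : p ∈ A) (hq : q ∈ A) (hne : cl p ≠ cl q)
    (h1 : ¬ G.Adj p (τ (cl p + 1))) (h2 : ¬ G.Adj q (τ (cl q + 1))) : ¬ G.Adj p q := by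
  intro hpq
  have n1 : ∀ k, k ≠ cl p → ¬ G.Adj p (τ k) := fun k hk h =>
    h1 (ind1 hQ hI hx1 hx2 hτ hτc hτn hp hk (f1 _).symm h)
  have n2 : ∀ k, k ≠ cl q → ¬ G.Adj q (τ k) := fun k hk h =>
    h2 (ind1 hQ hI hx1 hx2 hτ hτc hτn hq hk (f1 _).symm h)
  obtain ⟨k, hk1, hk2⟩ := f8 _ _ hne
  have e1 := hx1 (τ k) (hτ k)
  rw [hτc] at e1
  exact hQ p q (x k) (τ k) (τ (cl p)) hpq e1.symm (hx2 p hp k hk1) (n1 k hk1) (hx2 q hq k hk2)
    (n2 k hk2) (hI _ (hτ _) p hp (hτc _)) (fun h => n2 _ hne h.symm)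
    (hx2 _ (hτ _) k (by rw [hτc]; exact hk1)) (hτn _ _)

include hQ hI hx1 hx2 hτ hτc hτn in
theorem ind3 {p q : V} (hp : p ∈ A) (hq : q ∈ A) (hne : cl p ≠ cl q)
    (h1 : G.Adj p (τ (cl p + 1))) (h2 : ¬ G.Adj q (τ (cl q + 1))) : G.Adj p q := by
  by_contra hpq
  have n2 : ∀ k, k ≠ cl q → ¬ G.Adj q (τ k) := fun k hk h =>
    h2 (ind1 hQ hI hx1 hx2 hτ hτc hτn hq hk (f1 _).symm h)
  obtain ⟨k, hk1, hk2⟩ := f8 _ _ hne
  have h1' : G.Adj p (τ k) := ind1 hQ hI hx1 hx2 hτ hτc hτn hp (f1 _).symm hk1 h1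
  exact hQ p (τ k) (x (cl q)) q (τ (cl p)) h1' (hx1 q hq).symm (hx2 p hp _ (Ne.symm hne)) hpq
    (hx2 _ (hτ k) _ (by rw [hτc]; exact Ne.symm hk2)) (fun h => n2 k hk2 h.symm)
    (hI _ (hτ _) p hp (hτc _)) (hτn _ _) (hx2 _ (hτ _) _ (by rw [hτc]; exact Ne.symm hne))
    (fun h => n2 _ hne h.symm)

include hQ hI hch hu hx1 hx2 hτ hτc hτn in
theorem ind4 {p q p' q' : V} (hp : p ∈ A) (hq : q ∈ A) (hp' : p' ∈ A) (hq' : q' ∈ A)
    (hne : cl p ≠ cl q) (e1 : cl p = cl p') (e2 : cl q = cl q')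
    (a1 : G.Adj p (τ (cl p + 1))) (a2 : G.Adj q (τ (cl q + 1)))
    (a3 : G.Adj p' (τ (cl p' + 1))) (a4 : G.Adj q' (τ (cl q' + 1)))
    (h : G.Adj p q) (h' : G.Adj p' q') : p = p' ∧ q = q' := by
  obtain ⟨k, hk1, hk2⟩ := f8 _ _ hne
  have b1 : G.Adj p (τ k) := ind1 hQ hI hx1 hx2 hτ hτc hτn hp (f1 _).symm hk1 a1
  have b2 : G.Adj q (τ k) := ind1 hQ hI hx1 hx2 hτ hτc hτn hq (f1 _).symm hk2 a2
  have b3 : G.Adj p' (τ k) := ind1 hQ hI hx1 hx2 hτ hτc hτn hp' (f1 _).symm (e1 ▸ hk1) a3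
  have b4 : G.Adj q' (τ k) := ind1 hQ hI hx1 hx2 hτ hτc hτn hq' (f1 _).symm (e2 ▸ hk2) a4
  exact tri_disj hch hu hp hq hp' hq' e1 e2 b1.symm h b2.symm b3.symm h' b4.symm

include hQ hI hch hu hx1 hx2 hτ hτc hτn in
theorem ind_str [Finite V] : Str G (Fintype.card (Fin 3 × Bool × Bool × Bool)) 1 A := by
  classical
  let a : V → Prop := fun v => G.Adj v (τ (cl v + 1))
  let nx : V → Prop := fun v => ∃ w ∈ A, a w ∧ cl w = cl v + 1 ∧ G.Adj v w
  let pv : V → Prop := fun v => ∃ w ∈ A, a w ∧ cl v = cl w + 1 ∧ G.Adj v w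
  apply Str.ofL (l := fun v => (cl v, decide (a v), decide (nx v), decide (pv v)))
  intro e he
  refine Blk.oneL he (fun p q =>
    (q.1 = p.1 + 1 ∧ (p.2.1 ≠ q.2.1 ∨ (p.2.1 = true ∧ q.2.1 = true ∧ p.2.2.1 = true ∧
      q.2.2.2 = true))) ∨
    (p.1 = q.1 + 1 ∧ (p.2.1 ≠ q.2.1 ∨ (p.2.1 = true ∧ q.2.1 = true ∧ q.2.2.1 = true ∧
      p.2.2.2 = true)))) ?_
  have main : ∀ u ∈ A, ∀ v ∈ A, cl v = cl u + 1 → (G.Adj u v ↔
      (decide (a u) ≠ decide (a v) ∨ (a u ∧ a v ∧ nx u ∧ pv v))) := by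
    intro u hu' v hv hcl
    have hne : cl u ≠ cl v := by rw [hcl]; exact f1 _
    by_cases h1 : a u <;> by_cases h2 : a v
    · simp only [h1, h2, decide_true, ne_eq, not_true_eq_false, true_and, false_or]
      constructor
      · intro h
        exact ⟨⟨v, hv, h2, hcl, h⟩, ⟨u, hu', h1, hcl, h.symm⟩⟩
      · rintro ⟨⟨w, hw, aw, cw, hw1⟩, ⟨w', hw', aw', cw', hw1'⟩⟩
        have e1 : cl u = cl w' := by
          have := hcl.symm.trans cw'
          exact (by omega : ∀ i j : Fin 3, i + 1 = j + 1 → i = j) _ _ this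
        have := ind4 hQ hI hch hu hx1 hx2 hτ hτc hτn hu' hw hw' hv (by rw [cw]; exact f1 _) e1
          (by rw [cw, hcl]) h1 aw aw' h2 hw1 hw1'.symm
        rw [this.1]
        exact hw1'.symm
    · simp only [h1, h2, decide_true, decide_false, ne_eq, Bool.true_eq_false,
        not_false_eq_true, true_or, iff_true]
      exact ind3 hQ hI hx1 hx2 hτ hτc hτn hu' hv hne h1 h2
    · simp only [h1, h2, decide_true, decide_false, ne_eq, Bool.false_eq_true,
        not_false_eq_true, true_or, iff_true]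
      exact (ind3 hQ hI hx1 hx2 hτ hτc hτn hv hu' hne.symm h2 h1).symm
    · simp only [h1, h2, decide_false, ne_eq, not_true_eq_false, false_and, or_false, iff_false]
      exact ind2 hQ hI hx1 hx2 hτ hτc hτn hu' hv hne h1 h2
  intro u hu' v hv huv
  simp only [decide_eq_true_eq]
  by_cases hcl : cl u = cl v
  · simp only [hI u hu' v hv hcl, false_iff, hcl]
    rintro (⟨h, -⟩ | ⟨h, -⟩)
    · exact f1 _ h
    · exact f1 _ h
  · rcases (by omega : ∀ i j : Fin 3, i ≠ j → j = i + 1 ∨ i = j + 1) _ _ hcl with h | h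
    · have h' : ¬ cl u = cl v + 1 := fun h' => f11 _ _ ⟨h, h'⟩
      constructor
      · intro hadj
        exact Or.inl ⟨h, (main u hu' v hv h).mp hadj⟩
      · rintro (⟨-, hh⟩ | ⟨hh, -⟩)
        · exact (main u hu' v hv h).mpr hh
        · exact absurd hh h'
    · have h' : ¬ cl v = cl u + 1 := fun h' => f11 _ _ ⟨h', h⟩
      constructor
      · intro hadj
        refine Or.inr ⟨h, ?_⟩
        rcases (main v hv u hu' h).mp hadj.symm with hh | ⟨h1, h2, h3, h4⟩
        · exact Or.inl hh.symm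
        · exact Or.inr ⟨h2, h1, h3, h4⟩
      · rintro (⟨hh, -⟩ | ⟨-, hh⟩)
        · exact absurd hh h'
        · apply SimpleGraph.Adj.symm
          apply (main v hv u hu' h).mpr
          rcases hh with hh | ⟨h1, h2, h3, h4⟩
          · exact Or.inl hh.symm
          · exact Or.inr ⟨h2, h1, h3, h4⟩

end indep

/-- graphs with a triangle and without a clique of size four -/
theorem q_K3 [Finite V] (hD : Dia G) (hQ : QF G)
    (hu : ∀ a b c d, G.Adj a b → G.Adj a c → G.Adj b c → G.Adj a d → G.Adj b d → c = d)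
    {x : Fin 3 → V} (hx : ∀ i j, i ≠ j → G.Adj (x i) (x j)) :
    Str G (3 ^ 9 * (1600 + 1)) 2 Set.univ := by
  classical
  have hcard : Fintype.card (Option (Fin 24) × ((Fin 3 → Bool) × (Fin 3 → Bool))) = 1600 := by
    simp only [Fintype.card_prod, Fintype.card_pi, Fintype.card_bool, Finset.prod_const,
      Finset.card_univ, Fintype.card_fin, Fintype.card_option]
    norm_num
  let K : Finset V := Finset.univ.image x
  have hKc : K.card ≤ 3 := Finset.card_image_le
  have hKx : ∀ i, x i ∈ K := fun i => Finset.mem_image_of_mem x (Finset.mem_univ i)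
  have hKn : ∀ o, o ∉ K → ∀ i, o ≠ x i := fun o ho i h => ho (h ▸ hKx i)
  have hatt : ∀ o, o ∉ K → ∀ i j, G.Adj o (x i) → G.Adj o (x j) → i = j := by
    intro o ho i j hi hj
    by_contra hij
    obtain ⟨k, hk1, hk2⟩ := f8 _ _ hij
    exact hKn o ho k (hu (x i) (x j) (x k) o (hx i j hij) (hx i k hk1.symm) (hx j k hk2.symm)
      hi.symm hj.symm).symm
  -- `(P₁+P₂)`-free parts
  have hU : ∀ i, ∀ p ∈ {o | o ∉ K ∧ ∀ j, j ≠ i → ¬ G.Adj o (x j)},
      ∀ q ∈ {o | o ∉ K ∧ ∀ j, j ≠ i → ¬ G.Adj o (x j)},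
      ∀ t ∈ {o | o ∉ K ∧ ∀ j, j ≠ i → ¬ G.Adj o (x j)}, G.Adj p q →
      G.Adj t p ∨ G.Adj t q := by
    intro i p hp q hq t ht hpq
    by_contra hcon
    push Not at hcon
    exact hQ p q (x (i + 1)) (x (i + 2)) t hpq (hx _ _ (f3 i)) (hp.2 _ (f1 i).symm)
      (hp.2 _ (f2 i).symm) (hq.2 _ (f1 i).symm) (hq.2 _ (f2 i).symm) hcon.1 hcon.2
      (ht.2 _ (f1 i).symm) (ht.2 _ (f2 i).symm)
  have hUmem : ∀ o, o ∉ K → ∀ i, G.Adj o (x i) →
      o ∈ {o | o ∉ K ∧ ∀ j, j ≠ i → ¬ G.Adj o (x j)} :=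
    fun o ho i hi => ⟨ho, fun j hj h => hj (hatt o ho j i h hi)⟩
  choose s S hS using fun i => uni_P1P2 hD (hU i)
  -- small classes
  have hDex : ∀ i, ∃ D : Finset V, D.card ≤ 2 ∧ ∀ u v, u ∉ K → v ∉ K → G.Adj u (x i) →
      G.Adj v (x i) → u ∉ D → v ∉ D → ¬ G.Adj u v := by
    intro i
    by_cases h : ∃ p q, p ∉ K ∧ q ∉ K ∧ G.Adj p (x i) ∧ G.Adj q (x i) ∧ G.Adj p q
    · obtain ⟨p, q, hp, hq, hpx, hqx, hpq⟩ := h
      refine ⟨{p, q}, Finset.card_le_two, ?_⟩
      intro u v huK _ hux _ huD _ _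
      simp only [Finset.mem_insert, Finset.mem_singleton, not_or] at huD
      rcases hU i p (hUmem p hp i hpx) q (hUmem q hq i hqx) u (hUmem u huK i hux) hpq with h | h
      · exact huD.2 (hu (x i) p q u hpx.symm hqx.symm hpq hux.symm h.symm).symm
      · exact huD.1 (hu (x i) q p u hqx.symm hpx.symm hpq.symm hux.symm h.symm).symm
    · push Not at h
      exact ⟨∅, by simp, fun u v hu' hv h1 h2 _ _ h3 => h u v hu' hv h1 h2 h3⟩
  choose Ds hDs1 hDs2 using hDex
  let D : Finset V := K ∪ (Ds 0 ∪ (Ds 1 ∪ Ds 2))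
  have hDc : D.card ≤ 9 := by
    have h1 := Finset.card_union_le K (Ds 0 ∪ (Ds 1 ∪ Ds 2))
    have h2 := Finset.card_union_le (Ds 0) (Ds 1 ∪ Ds 2)
    have h3 := Finset.card_union_le (Ds 1) (Ds 2)
    have h4 := hDs1 0
    have h5 := hDs1 1
    have h6 := hDs1 2
    have h7 : D.card = (K ∪ (Ds 0 ∪ (Ds 1 ∪ Ds 2))).card := rfl
    omega
  have hDK : ∀ v, v ∉ D → v ∉ K := fun v hv h => hv (Finset.mem_union_left _ h)
  have hDD : ∀ v, v ∉ D → ∀ i, v ∉ Ds i := by
    intro v hv i h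
    apply hv
    apply Finset.mem_union_right
    fin_cases i
    · exact Finset.mem_union_left _ h
    · exact Finset.mem_union_right _ (Finset.mem_union_left _ h)
    · exact Finset.mem_union_right _ (Finset.mem_union_right _ h)
  let A : Set V := {v | v ∉ D ∧ ∃ i, G.Adj v (x i)}
  let M : Set V := {v | v ∉ D ∧ ∀ i, ¬ G.Adj v (x i)}
  obtain ⟨cl, hcl⟩ : ∃ cl : V → Fin 3, ∀ v ∈ A, G.Adj v (x (cl v)) := by
    refine ⟨fun v => if h : ∃ i, G.Adj v (x i) then h.choose else 0, ?_⟩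
    intro v hv
    simp only [dif_pos hv.2]
    exact hv.2.choose_spec
  have hx2 : ∀ v ∈ A, ∀ k, k ≠ cl v → ¬ G.Adj v (x k) := fun v hv k hk h =>
    hk (hatt v (hDK v hv.1) k (cl v) h (hcl v hv))
  have hI : ∀ u ∈ A, ∀ v ∈ A, cl u = cl v → ¬ G.Adj u v := by
    intro u hu' v hv h
    exact hDs2 (cl u) u v (hDK u hu'.1) (hDK v hv.1) (hcl u hu') (by rw [h]; exact hcl v hv)
      (hDD u hu'.1 _) (hDD v hv.1 _)
  have hch : ∀ u ∈ A, ∀ u' ∈ A, ∀ v ∈ A, ∀ v' ∈ A, cl u = cl u' → cl v = cl v' → G.Adj u v →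
      G.Adj u' v' → G.Adj u v' ∨ G.Adj u' v := by
    intro u hu1 u' hu2 v hv1 v' hv2 e1 e2 h1 h2
    by_cases hne : cl u = cl v
    · exact absurd h1 (hI u hu1 v hv1 hne)
    obtain ⟨k, hk1, hk2⟩ := f8 _ _ hne
    by_contra hcon
    push Not at hcon
    exact hQ u v u' v' (x k) h1 h2 (hI u hu1 u' hu2 e1) hcon.1 (fun h => hcon.2 h.symm)
      (hI v hv1 v' hv2 e2) (fun h => hx2 u hu1 k hk1 h.symm) (fun h => hx2 v hv1 k hk2 h.symm)
      (fun h => hx2 u' hu2 k (e1 ▸ hk1) h.symm) (fun h => hx2 v' hv2 k (e2 ▸ hk2) h.symm)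
  have hA : Str G 24 2 A := by
    by_cases hno : ∀ u ∈ A, ∀ v ∈ A, ∀ w ∈ A, cl u ≠ cl v → cl v ≠ cl w → cl u ≠ cl w →
        G.Adj u v ∨ G.Adj v w ∨ G.Adj u w
    · exact (tour_str hI hch hu hno).mono (by simp) le_rfl
    · push Not at hno
      obtain ⟨u, hu', v, hv, w, hw, n1, n2, n3, m1, m2, m3⟩ := hno
      let τ : Fin 3 → V := fun i => if i = cl u then u else if i = cl v then v else w
      have hτA : ∀ i, τ i ∈ A := by
        intro i
        simp only [τ]
        split_ifs <;> assumption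
      have hτc : ∀ i, cl (τ i) = i := by
        intro i
        simp only [τ]
        split_ifs with h h'
        · exact h.symm
        · exact h'.symm
        · exact (f10 _ _ _ i n1 n2 n3 h h').symm
      have hτn : ∀ i j, ¬ G.Adj (τ i) (τ j) := by
        intro i j
        simp only [τ]
        split_ifs
        · exact G.loopless.irrefl u
        · exact m1
        · exact m3
        · exact fun h => m1 h.symm
        · exact G.loopless.irrefl v
        · exact m2
        · exact fun h => m3 h.symm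
        · exact fun h => m2 h.symm
        · exact G.loopless.irrefl w
      exact (ind_str hQ hI hch hu hcl hx2 hτA hτc hτn).mono (by simp) (by norm_num)
  have hAM0 : Str G (Fintype.card (Option (Fin 24) × ((Fin 3 → Bool) × (Fin 3 → Bool)))) 2
      (A ∪ M) := hA.add_uniform (M := M)
    (fun v => ((fun i => decide (G.Adj v (x i))), (fun i => s i v)))
    (fun p q => ∃ i, (∀ j, j ≠ i → q.1 j = false) ∧ S i (p.2 i) (q.2 i)) (by
      intro u huM v hv huv
      simp only [decide_eq_false_iff_not]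
      have huK := hDK u huM.1
      have hvK : v ∉ K := by
        rcases hv with hv | hv
        · exact hDK v hv.1
        · exact hDK v hv.1
      constructor
      · intro h
        obtain ⟨i, hi⟩ : ∃ i, ∀ j, j ≠ i → ¬ G.Adj v (x j) := by
          rcases hv with hv | hv
          · exact ⟨cl v, hx2 v hv⟩
          · exact ⟨0, fun j _ => hv.2 j⟩
        exact ⟨i, hi, (hS i u ⟨huK, fun j _ => huM.2 j⟩ v ⟨hvK, hi⟩ huv).mp h⟩
      · rintro ⟨i, hi, h⟩
        exact (hS i u ⟨huK, fun j _ => huM.2 j⟩ v ⟨hvK, hi⟩ huv).mpr h)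
  have hAM : Str G 1600 2 (A ∪ M) := hcard ▸ hAM0
  refine Str.delFinset' hDc (hAM.subset ?_)
  intro v hv
  have hvD : v ∉ D := fun h => hv.2 h
  by_cases h : ∃ i, G.Adj v (x i)
  · exact Or.inl ⟨hvD, h⟩
  · push Not at h
    exact Or.inr ⟨hvD, h⟩

/-- every (diamond, `P₁+2P₂`)-free graph has a bounded block structure. -/
theorem diamond_P12P2_str [Finite V] (hD : Dia G) (hQ : QF G) : Str G 100000000 4 Set.univ := by
  classical
  have := Fintype.ofFinite V
  by_cases h4 : ∃ a b c d, G.Adj a b ∧ G.Adj a c ∧ G.Adj a d ∧ G.Adj b c ∧ G.Adj b d ∧ G.Adj c d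
  · obtain ⟨a, b, c, d, hab, hac, had, hbc, hbd, hcd⟩ := h4
    -- a maximum clique
    obtain ⟨K, hK, hmax⟩ := Finset.exists_max_image
      (Finset.univ.filter (fun K : Finset V => ∀ u ∈ K, ∀ v ∈ K, u ≠ v → G.Adj u v))
      Finset.card ⟨∅, by simp⟩
    simp only [Finset.mem_filter, Finset.mem_univ, true_and] at hK hmax
    have h0 : ({a, b, c, d} : Finset V).card = 4 := by
      rw [Finset.card_insert_of_notMem, Finset.card_insert_of_notMem,
        Finset.card_insert_of_notMem, Finset.card_singleton]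
      · simp [hcd.ne]
      · simp [hbc.ne, hbd.ne]
      · simp [hab.ne, hac.ne, had.ne]
    have hcard : 4 ≤ K.card := by
      rw [← h0]
      apply hmax
      intro u hu v hv huv
      simp only [Finset.mem_insert, Finset.mem_singleton] at hu hv
      rcases hu with rfl | rfl | rfl | rfl <;> rcases hv with rfl | rfl | rfl | rfl <;>
        first
        | exact absurd rfl huv
        | assumption
        | (apply SimpleGraph.Adj.symm; assumption)
    have hatt : ∀ o, o ∉ K → ∀ a ∈ K, ∀ b ∈ K, G.Adj o a → G.Adj o b → a = b := by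
      intro o ho a ha b hb hoa hob
      by_contra hab
      have hall : ∀ k ∈ K, G.Adj o k := by
        intro k hk
        by_cases hka : k = a
        · rw [hka]; exact hoa
        by_cases hkb : k = b
        · rw [hkb]; exact hob
        have hok : o ≠ k := by rintro rfl; exact ho hk
        exact hD a b o k (hK a ha b hb hab) hoa.symm (hK a ha k hk (Ne.symm hka)) hob.symm
          (hK b hb k hk (Ne.symm hkb)) hok
      have h1 : ∀ u ∈ insert o K, ∀ v ∈ insert o K, u ≠ v → G.Adj u v := by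
        intro u hu v hv huv
        rw [Finset.mem_insert] at hu hv
        rcases hu with rfl | hu <;> rcases hv with rfl | hv
        · exact absurd rfl huv
        · exact hall v hv
        · exact (hall u hu).symm
        · exact hK u hu v hv huv
      have h2 := hmax _ h1
      rw [Finset.card_insert_of_notMem ho] at h2
      omega
    by_cases h5 : 5 ≤ K.card
    · exact (q_K5 hD hQ hK hatt h5).mono (by norm_num) (by norm_num)
    · have hc4 : K.card = 4 := by omega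
      let e := K.equivFinOfCardEq hc4
      let k : Fin 4 → V := fun i => (e.symm i).1
      have hkK : ∀ i, k i ∈ K := fun i => (e.symm i).2
      have hkinj : ∀ i j, k i = k j → i = j := fun i j h => e.symm.injective (Subtype.ext h)
      have hksurj : ∀ v ∈ K, ∃ i, v = k i := fun v hv => ⟨e ⟨v, hv⟩, by simp [k]⟩
      have hout : ∀ o, (∀ i, o ≠ k i) → o ∉ K := by
        intro o ho h
        obtain ⟨i, hi⟩ := hksurj o h
        exact ho i hi
      have h1 := q_K4 (k := k) hD hQ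
        (fun i j hij => hK _ (hkK i) _ (hkK j) (fun h => hij (hkinj i j h)))
        (fun o ho i j hi hj => hkinj i j (hatt o (hout o ho) _ (hkK i) _ (hkK j) hi hj))
      refine (Str.delFinset' (n := 0) (k := 4) (S := K) (by omega) (h1.subset ?_)).mono ?_
        (by norm_num)
      · intro v hv i h
        exact hv.2 (h ▸ hkK i)
      · norm_num
  push Not at h4
  have hu : ∀ a b c d, G.Adj a b → G.Adj a c → G.Adj b c → G.Adj a d → G.Adj b d → c = d := by
    intro a b c d hab hac hbc had hbd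
    by_contra hcd
    exact h4 a b c d hab hac had hbc hbd (hD a b c d hab hac had hbc hbd hcd)
  by_cases h3 : ∃ a b c, G.Adj a b ∧ G.Adj b c ∧ G.Adj a c
  · obtain ⟨a, b, c, hab, hbc, hac⟩ := h3
    refine (q_K3 hD hQ hu (x := ![a, b, c]) ?_).mono ?_ (by norm_num)
    · intro i j hij
      fin_cases i <;> fin_cases j <;>
        simp [hab, hbc, hac, hab.symm, hbc.symm, hac.symm] at hij ⊢
    · norm_num
  · push Not at h3
    exact (tf_str hQ (fun a b c h1 h2 h => h3 a b c h1 h2 h)).mono (by norm_num) le_rfl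

end H79.BlockWQO
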