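import Pool.Agent.Lib_helper79.QClique

/-! Tripartite graphs coming from `P₁+2P₂`-free diamond-free graphs: the cyclic tournament
argument. -/

namespace H79.BlockWQO

open Set

variable {V : Type} {G : SimpleGraph V}

/-- a relation without cycles of length two, three and four has a source -/
theorem exists_source [Finite V] (r : V → V → Prop) (S : Set V) (hS : S.Nonempty)
    (h1 : ∀ a ∈ S, ∀ b ∈ S, r a b → ¬ r b a)
    (h2 : ∀ a ∈ S, ∀ b ∈ S, ∀ c ∈ S, r a b → r b c → ¬ r c a)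
    (h3 : ∀ a ∈ S, ∀ b ∈ S, ∀ c ∈ S, ∀ d ∈ S, r a b → r b c → r c d → r d a →
      ¬ r a c → ¬ r c a → ¬ r b d → ¬ r d b → False)
    (h4 : ∀ w ∈ S, ∀ c ∈ S, ∀ e ∈ S, ¬ r w c → ¬ r c w → r e w → r c e ∨ r e c) :
    ∃ c ∈ S, ∀ d ∈ S, ¬ r d c := by
  classical
  have := Fintype.ofFinite V
  obtain ⟨c, hc, hmin⟩ := Finset.exists_min_image (Finset.univ.filter (fun c => c ∈ S))
    (fun c => (Finset.univ.filter (fun d => d ∈ S ∧ r d c)).card)
    (by obtain ⟨x, hx⟩ := hS; exact ⟨x, by simpa using hx⟩)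
  simp only [Finset.mem_filter, Finset.mem_univ, true_and] at hc hmin
  refine ⟨c, hc, fun d hd hdc => ?_⟩
  -- elements outside
  have out : ∀ x ∈ S, ¬ r d x → ∃ w ∈ S, r w x ∧ ¬ r w c := by
    intro x hx hdx
    by_contra hcon
    push Not at hcon
    have hlt : (Finset.univ.filter (fun d => d ∈ S ∧ r d x)).card <
        (Finset.univ.filter (fun d => d ∈ S ∧ r d c)).card := by
      apply Finset.card_lt_card
      rw [Finset.ssubset_iff_of_subset]
      · exact ⟨d, by simp [hd, hdc], by simp [hdx]⟩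
      · intro w hw
        simp only [Finset.mem_filter, Finset.mem_univ, true_and] at hw ⊢
        exact ⟨hw.1, hcon w hw.1 hw.2⟩
    have := hmin x hx
    omega
  obtain ⟨w, hw, hwd, hwc⟩ := out d hd (fun h => h1 d hd d hd h h)
  have hcw : ¬ r c w := fun h => h2 c hc w hw d hd h hwd hdc
  obtain ⟨e, he, hew, hec⟩ := out w hw (h1 w hw d hd hwd)
  have hce : r c e := by
    rcases h4 w hw c hc e he hwc hcw hew with h | h
    · exact h
    · exact absurd h hec
  have n1 : ¬ r e d := fun h => h2 c hc e he d hd hce h hdc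
  have n2 : ¬ r d e := fun h => h2 e he w hw d hd hew hwd h
  exact h3 c hc e he w hw d hd hce hew hwd hdc hcw hwc n1 n2

/-- the cyclic orientation -/
def arc (G : SimpleGraph V) (cl : V → Fin 3) (u v : V) : Prop :=
  (cl v = cl u + 1 ∧ G.Adj u v) ∨ (cl u = cl v + 1 ∧ ¬ G.Adj u v)

theorem arc_ne {cl : V → Fin 3} {u v : V} (h : arc G cl u v) : cl u ≠ cl v := by
  rcases h with ⟨h, -⟩ | ⟨h, -⟩
  · rw [h]; exact (by decide : ∀ i : Fin 3, i ≠ i + 1) _
  · rw [h]; exact (by decide : ∀ i : Fin 3, i + 1 ≠ i) _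

theorem arc_total {cl : V → Fin 3} {u v : V} (h : cl u ≠ cl v) : arc G cl u v ∨ arc G cl v u := by
  rcases (by decide : ∀ i j : Fin 3, i ≠ j → j = i + 1 ∨ i = j + 1) _ _ h with h' | h'
  · by_cases hadj : G.Adj u v
    · exact Or.inl (Or.inl ⟨h', hadj⟩)
    · exact Or.inr (Or.inr ⟨h', fun h => hadj h.symm⟩)
  · by_cases hadj : G.Adj v u
    · exact Or.inr (Or.inl ⟨h', hadj⟩)
    · exact Or.inl (Or.inr ⟨h', fun h => hadj h.symm⟩)

theorem arc_asymm {cl : V → Fin 3} {u v : V} (h : arc G cl u v) : ¬ arc G cl v u := by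
  have key : ∀ i j : Fin 3, ¬ (j = i + 1 ∧ i = j + 1) := by decide
  intro h'
  rcases h with ⟨a, b⟩ | ⟨a, b⟩ <;> rcases h' with ⟨a', b'⟩ | ⟨a', b'⟩
  · exact key _ _ ⟨a, a'⟩
  · exact b' b.symm
  · exact b b'.symm
  · exact key _ _ ⟨a', a⟩

/-- adjacency from arcs -/
theorem arc_iff {cl : V → Fin 3} {u v : V} (h : arc G cl u v) : G.Adj u v ↔ cl v = cl u + 1 := by
  have key : ∀ i j : Fin 3, ¬ (j = i + 1 ∧ i = j + 1) := by decide
  rcases h with ⟨a, b⟩ | ⟨a, b⟩
  · simp [a, b]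
  · simp only [b, false_iff]
    exact fun h => key _ _ ⟨h, a⟩

section tour

variable {A : Set V} {cl : V → Fin 3}
  (hI : ∀ u ∈ A, ∀ v ∈ A, cl u = cl v → ¬ G.Adj u v)
  (hch : ∀ u ∈ A, ∀ u' ∈ A, ∀ v ∈ A, ∀ v' ∈ A, cl u = cl u' → cl v = cl v' → G.Adj u v →
    G.Adj u' v' → G.Adj u v' ∨ G.Adj u' v)
  (hu : ∀ a b c d, G.Adj a b → G.Adj a c → G.Adj b c → G.Adj a d → G.Adj b d → c = d)
  (hno : ∀ u ∈ A, ∀ v ∈ A, ∀ w ∈ A, cl u ≠ cl v → cl v ≠ cl w → cl u ≠ cl w →
    G.Adj u v ∨ G.Adj v w ∨ G.Adj u w)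

/-- transversal triangles -/
def Tri (G : SimpleGraph V) (A : Set V) (cl : V → Fin 3) (t : Fin 3 → V) : Prop :=
  (∀ i, t i ∈ A) ∧ (∀ i, cl (t i) = i) ∧ ∀ i j, i ≠ j → G.Adj (t i) (t j)

include hno in
theorem three_cycle {a b c : V} (ha : a ∈ A) (hb : b ∈ A) (hc : c ∈ A) (hab : arc G cl a b)
    (hbc : arc G cl b c) (hca : arc G cl c a) :
    cl a ≠ cl b ∧ cl b ≠ cl c ∧ cl a ≠ cl c ∧ G.Adj a b ∧ G.Adj b c ∧ G.Adj c a := by
  have n1 := arc_ne hab
  have n2 := arc_ne hbc
  have n3 := arc_ne hca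
  refine ⟨n1, n2, n3.symm, ?_⟩
  have key : ∀ i j k : Fin 3, i ≠ j → j ≠ k → k ≠ i →
      (i ≠ j + 1 ∧ j ≠ k + 1 ∧ k ≠ i + 1) ∨ (j ≠ i + 1 ∧ k ≠ j + 1 ∧ i ≠ k + 1) := by decide
  rcases key _ _ _ n1 n2 n3 with ⟨k1, k2, k3⟩ | ⟨k1, k2, k3⟩
  · rcases hab with ⟨-, h1⟩ | ⟨h, -⟩
    · rcases hbc with ⟨-, h2⟩ | ⟨h, -⟩
      · rcases hca with ⟨-, h3⟩ | ⟨h, -⟩
        · exact ⟨h1, h2, h3⟩
        · exact absurd h k3
      · exact absurd h k2
    · exact absurd h k1
  · exfalso
    rcases hab with ⟨h, -⟩ | ⟨-, h1⟩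
    · exact k1 h
    · rcases hbc with ⟨h, -⟩ | ⟨-, h2⟩
      · exact k2 h
      · rcases hca with ⟨h, -⟩ | ⟨-, h3⟩
        · exact k3 h
        · rcases hno a ha b hb c hc n1 n2 n3.symm with h | h | h
          · exact h1 h
          · exact h2 h
          · exact h3 h.symm

include hch hu in
/-- transversal triangles sharing a vertex are equal -/
theorem tri_disj {a b c b' c' : V} (hb : b ∈ A) (hc : c ∈ A) (hb' : b' ∈ A) (hc' : c' ∈ A)
    (e1 : cl b = cl b') (e2 : cl c = cl c') (hab : G.Adj a b) (hbc : G.Adj b c) (hac : G.Adj a c)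
    (hab' : G.Adj a b') (hbc' : G.Adj b' c') (hac' : G.Adj a c') : b = b' ∧ c = c' := by
  rcases hch b hb b' hb' c hc c' hc' e1 e2 hbc hbc' with h | h
  · have h1 : c = c' := hu a b c c' hab hac hbc hac' h
    subst h1
    exact ⟨hu a c b b' hac hab hbc.symm hab' hbc'.symm, rfl⟩
  · have h1 : c = c' := hu a b' c c' hab' hac h hac' hbc'
    subst h1
    exact ⟨hu a c b b' hac hab hbc.symm hab' hbc'.symm, rfl⟩

/-- the block of a triangle -/
def Bl (G : SimpleGraph V) (cl : V → Fin 3) (t : Fin 3 → V) (p : V) : Prop :=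
  p = t (cl p) ∨ ∀ k, k ≠ cl p → ¬ G.Adj p (t k)

def Aft (G : SimpleGraph V) (cl : V → Fin 3) (t : Fin 3 → V) (p : V) : Prop :=
  ¬ G.Adj p (t (cl p + 1)) ∧ G.Adj p (t (cl p + 2))

def Bef (G : SimpleGraph V) (cl : V → Fin 3) (t : Fin 3 → V) (p : V) : Prop :=
  G.Adj p (t (cl p + 1)) ∧ ¬ G.Adj p (t (cl p + 2))

theorem f1 (i : Fin 3) : i ≠ i + 1 := (by decide : ∀ i : Fin 3, i ≠ i + 1) i
theorem f2 (i : Fin 3) : i ≠ i + 2 := (by decide : ∀ i : Fin 3, i ≠ i + 2) i
theorem f3 (i : Fin 3) : i + 1 ≠ i + 2 := (by decide : ∀ i : Fin 3, i + 1 ≠ i + 2) i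
theorem f4 (i : Fin 3) : i + 1 + 1 = i + 2 := (by decide : ∀ i : Fin 3, i + 1 + 1 = i + 2) i
theorem f5 (i : Fin 3) : i + 1 + 2 = i := (by decide : ∀ i : Fin 3, i + 1 + 2 = i) i
theorem f6 (i : Fin 3) : i + 2 + 1 = i := (by decide : ∀ i : Fin 3, i + 2 + 1 = i) i
theorem f7 (i k : Fin 3) : k ≠ i → k = i + 1 ∨ k = i + 2 :=
  (by decide : ∀ i k : Fin 3, k ≠ i → k = i + 1 ∨ k = i + 2) i k
theorem f8 (i j : Fin 3) : i ≠ j → ∃ k, k ≠ i ∧ k ≠ j :=
  (by decide : ∀ i j : Fin 3, i ≠ j → ∃ k, k ≠ i ∧ k ≠ j) i j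
theorem f10 (i j k l : Fin 3) : i ≠ j → j ≠ k → i ≠ k → l ≠ i → l ≠ j → l = k := by
  intro h1 h2 h3 h4 h5
  omega
theorem f11 (i j : Fin 3) : ¬ (j = i + 1 ∧ i = j + 1) :=
  (by decide : ∀ i j : Fin 3, ¬ (j = i + 1 ∧ i = j + 1)) i j
theorem f9 (i j : Fin 3) : j = i + 1 → i = j + 2 ∧ i + 2 = j + 1 :=
  (by decide : ∀ i j : Fin 3, j = i + 1 → i = j + 2 ∧ i + 2 = j + 1) i j

include hu in
theorem bl_cases {t : Fin 3 → V} (ht : Tri G A cl t) (p : V) :
    Bl G cl t p ∨ Aft G cl t p ∨ Bef G cl t p := by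
  by_cases h1 : G.Adj p (t (cl p + 1)) <;> by_cases h2 : G.Adj p (t (cl p + 2))
  · left; left
    exact hu _ _ _ _ (ht.2.2 _ _ (f3 (cl p))) h1.symm h2.symm (ht.2.2 _ _ (f1 (cl p)).symm)
      (ht.2.2 _ _ (f2 (cl p)).symm)
  · exact Or.inr (Or.inr ⟨h1, h2⟩)
  · exact Or.inr (Or.inl ⟨h1, h2⟩)
  · left; right
    intro k hk
    rcases f7 _ _ hk with h | h
    · rw [h]; exact h1
    · rw [h]; exact h2

theorem not_aft_of_bl {t : Fin 3 → V} (ht : Tri G A cl t) {p : V} (h : Bl G cl t p) :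
    ¬ Aft G cl t p := by
  rintro ⟨h1, h2⟩
  rcases h with h | h
  · apply h1
    have := ht.2.2 _ _ (f1 (cl p))
    rwa [← h] at this
  · exact h _ (f2 (cl p)).symm h2

theorem not_bef_of_bl {t : Fin 3 → V} (ht : Tri G A cl t) {p : V} (h : Bl G cl t p) :
    ¬ Bef G cl t p := by
  rintro ⟨h1, h2⟩
  rcases h with h | h
  · apply h2
    have := ht.2.2 _ _ (f2 (cl p))
    rwa [← h] at this
  · exact h _ (f1 (cl p)).symm h1

theorem arc_of_aft {t : Fin 3 → V} (ht : Tri G A cl t) {p : V} (h : Aft G cl t p) {k : Fin 3}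
    (hk : k ≠ cl p) : arc G cl (t k) p := by
  rcases f7 _ _ hk with h' | h'
  · right
    rw [ht.2.1, h']
    exact ⟨rfl, fun h'' => h.1 h''.symm⟩
  · left
    rw [ht.2.1, h']
    exact ⟨(f6 _).symm, h.2.symm⟩

theorem arc_of_bef {t : Fin 3 → V} (ht : Tri G A cl t) {p : V} (h : Bef G cl t p) {k : Fin 3}
    (hk : k ≠ cl p) : arc G cl p (t k) := by
  rcases f7 _ _ hk with h' | h'
  · left
    rw [ht.2.1, h']
    exact ⟨rfl, h.1⟩
  · right
    rw [ht.2.1, h']
    exact ⟨(f6 _).symm, h.2⟩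

include hch hno in
/-- vertices behind a block -/
theorem out_bl {t : Fin 3 → V} (ht : Tri G A cl t) {p q : V} (hp : p ∈ A) (hq : q ∈ A)
    (hbl : Bl G cl t p) (hpq : arc G cl p q) : ¬ Bef G cl t q := by
  intro hbef
  rcases hbl with h | h
  · have := arc_of_bef ht hbef (k := cl p) (arc_ne hpq)
    rw [← h] at this
    exact arc_asymm hpq this
  · rcases hpq with ⟨e, hadj⟩ | ⟨e, hadj⟩
    · -- forward
      rcases hch (t (cl p)) (ht.1 _) p hp (t (cl q)) (ht.1 _) q hq (ht.2.1 _) (ht.2.1 _)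
        (ht.2.2 _ _ (by rw [e]; exact f1 _)) hadj with h' | h'
      · apply hbef.2
        rw [← (f9 _ _ e).1]
        exact h'.symm
      · exact h _ (by rw [e]; exact (f1 _).symm) h'
    · -- backward
      have e' := f9 _ _ e
      rcases hno p hp q hq (t (cl q + 2)) (ht.1 _) (by rw [e]; exact (f1 _).symm)
        (by rw [ht.2.1]; exact f2 _) (by rw [ht.2.1, e]; exact f3 _) with h' | h' | h'
      · exact hadj h'
      · exact hbef.2 h'
      · exact h _ (by rw [e]; exact (f3 _).symm) h'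

include hch hno in
/-- vertices before a block -/
theorem in_bl {t : Fin 3 → V} (ht : Tri G A cl t) {p q : V} (hp : p ∈ A) (hq : q ∈ A)
    (hbl : Bl G cl t p) (hpq : arc G cl q p) : ¬ Aft G cl t q := by
  intro haft
  rcases hbl with h | h
  · have := arc_of_aft ht haft (k := cl p) (arc_ne hpq).symm
    rw [← h] at this
    exact arc_asymm hpq this
  · rcases hpq with ⟨e, hadj⟩ | ⟨e, hadj⟩
    · -- forward: cl p = cl q + 1
      rcases hch (t (cl q)) (ht.1 _) q hq (t (cl p)) (ht.1 _) p hp (ht.2.1 _) (ht.2.1 _)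
        (ht.2.2 _ _ (by rw [e]; exact f1 _)) hadj with h' | h'
      · exact h _ (by rw [e]; exact f1 _) h'.symm
      · apply haft.1
        rw [← e]
        exact h'
    · -- backward: cl q = cl p + 1
      rcases hno p hp q hq (t (cl q + 1)) (ht.1 _) (by rw [e]; exact f1 _)
        (by rw [ht.2.1]; exact f1 _) (by rw [ht.2.1, e, f4]; exact f2 _) with h' | h' | h'
      · exact hadj h'.symm
      · exact haft.1 h'
      · exact h _ (by rw [e, f4]; exact (f2 _).symm) h'

include hch hu hno in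
theorem aft_closed {t : Fin 3 → V} (ht : Tri G A cl t) {q q' : V} (hq : q ∈ A) (hq' : q' ∈ A)
    (h : Aft G cl t q) (hqq : arc G cl q q') : Aft G cl t q' := by
  rcases bl_cases hu ht q' with h' | h' | h'
  · exact absurd h (in_bl hch hno ht hq' hq h' hqq)
  · exact h'
  · exfalso
    obtain ⟨k, hk1, hk2⟩ := f8 _ _ (arc_ne hqq)
    have a1 := arc_of_aft ht h hk1
    have a2 := arc_of_bef ht h' hk2
    obtain ⟨n1, n2, n3, b1, b2, b3⟩ := three_cycle hno (ht.1 k) hq hq' a1 hqq a2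
    have := (tri_disj hch hu hq hq' (ht.1 (cl q)) (ht.1 (cl q')) (ht.2.1 _).symm
      (ht.2.1 _).symm b1 b2 b3.symm (ht.2.2 _ _ hk1) (ht.2.2 _ _ n2)
      (ht.2.2 _ _ hk2)).1
    exact not_aft_of_bl ht (Or.inl this) h

/-- reachability -/
def Rea (G : SimpleGraph V) (A : Set V) (cl : V → Fin 3) : V → V → Prop :=
  Relation.ReflTransGen (fun u v => u ∈ A ∧ v ∈ A ∧ arc G cl u v)

include hch hu hno in
theorem aft_rea {t : Fin 3 → V} (ht : Tri G A cl t) {q q' : V} (h : Aft G cl t q)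
    (hr : Rea G A cl q q') : Aft G cl t q' := by
  induction hr with
  | refl => exact h
  | tail _ hs ih => exact aft_closed hch hu hno ht hs.1 hs.2.1 ih hs.2.2

include hch hu hno in
theorem bl_rea {t : Fin 3 → V} (ht : Tri G A cl t) {q q' : V} (h : Bl G cl t q)
    (hr : Rea G A cl q q') : Bl G cl t q' ∨ Aft G cl t q' := by
  induction hr with
  | refl => exact Or.inl h
  | tail _ hs ih =>
    rcases ih with ih | ih
    · rcases bl_cases hu ht _ with h' | h' | h'
      · exact Or.inl h'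
      · exact Or.inr h'
      · exact absurd h' (out_bl hch hno ht hs.1 hs.2.1 ih hs.2.2)
    · exact Or.inr (aft_closed hch hu hno ht hs.1 hs.2.1 ih hs.2.2)

include hch hu hno in
theorem bl_strong {t : Fin 3 → V} (ht : Tri G A cl t) {q q' : V} (h : Bl G cl t q)
    (hr : Rea G A cl q q') (hr' : Rea G A cl q' q) : Bl G cl t q' := by
  rcases bl_rea hch hu hno ht h hr with h' | h'
  · exact h'
  · exact absurd (aft_rea hch hu hno ht h' hr') (not_aft_of_bl ht h)

include hch hu hno in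
theorem strong_block [Finite V] {u v : V} (huA : u ∈ A) (hvA : v ∈ A) (huv : arc G cl u v)
    (hr : Rea G A cl v u) : ∃ t, Tri G A cl t ∧ Bl G cl t u ∧ Bl G cl t v := by
  classical
  have huv' : Rea G A cl u v := Relation.ReflTransGen.single ⟨huA, hvA, huv⟩
  let S : Set V := {z | z ∈ A ∧ Rea G A cl v z ∧ Rea G A cl z u}
  by_cases hex : ∃ z ∈ S, ∃ t, Tri G A cl t ∧ Bl G cl t z
  · obtain ⟨z, ⟨hzA, hz1, hz2⟩, t, ht, hbl⟩ := hex
    exact ⟨t, ht, bl_strong hch hu hno ht hbl hz2 (huv'.trans hz1),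
      bl_strong hch hu hno ht hbl (hz2.trans huv') hz1⟩
  · exfalso
    push Not at hex
    have hvS : v ∈ S := ⟨hvA, Relation.ReflTransGen.refl, hr⟩
    have huS : u ∈ S := ⟨huA, hr, Relation.ReflTransGen.refl⟩
    have hso := exists_source (arc G cl) S ⟨v, hvS⟩
      (fun a _ b _ h => arc_asymm h) ?_ ?_ ?_
    · obtain ⟨c, hc, hsrc⟩ := hso
      obtain ⟨hcA, hc1, hc2⟩ := hc
      rcases Relation.ReflTransGen.cases_tail hc1 with h | ⟨d, hd, hdc⟩
      · rw [h] at hsrc
        exact hsrc u huS huv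
      · have hdc' : Rea G A cl d c := Relation.ReflTransGen.single hdc
        exact hsrc d ⟨hdc.1, hd, hdc'.trans hc2⟩ hdc.2.2
    · intro a ha b hb c hc hab hbc hca
      obtain ⟨n1, n2, n3, b1, b2, b3⟩ := three_cycle hno ha.1 hb.1 hc.1 hab hbc hca
      have key := f10
      refine hex a ha (fun i => if i = cl a then a else if i = cl b then b else c)
        ⟨?_, ?_, ?_⟩ (Or.inl ?_)
      · intro i
        dsimp only
        split_ifs
        · exact ha.1
        · exact hb.1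
        · exact hc.1
      · intro i
        dsimp only
        split_ifs with h h'
        · exact h.symm
        · exact h'.symm
        · exact (key _ _ _ i n1 n2 n3 h h').symm
      · intro i j hij
        dsimp only
        split_ifs with h1 h2 h3 h4 h5 h6 h7
        · exact absurd (h1.trans h2.symm) hij
        · exact b1
        · exact b3.symm
        · exact b1.symm
        · exact absurd (h4.trans h6.symm) hij
        · exact b2
        · exact b3
        · exact b2.symm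
        · exact absurd ((key _ _ _ i n1 n2 n3 h1 h4).trans
            (key _ _ _ j n1 n2 n3 h7 (by assumption)).symm) hij
      · simp
    · intro a ha b hb c hc d hd hab hbc hcd hda n1 n2 n3 n4
      have e1 : cl a = cl c := by
        by_contra h
        rcases arc_total h with h' | h'
        · exact n1 h'
        · exact n2 h'
      have e2 : cl b = cl d := by
        by_contra h
        rcases arc_total h with h' | h'
        · exact n3 h'
        · exact n4 h'
      have key3 := f11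
      rcases hab with ⟨x1, y1⟩ | ⟨x1, y1⟩
      · rcases hbc with ⟨x2, y2⟩ | ⟨x2, y2⟩
        · exact key3 _ _ ⟨x1, by rw [e1]; exact x2⟩
        rcases hcd with ⟨x3, y3⟩ | ⟨x3, y3⟩
        · rcases hda with ⟨x4, y4⟩ | ⟨x4, y4⟩
          · exact key3 _ _ ⟨x1, by rw [e2]; exact x4⟩
          · rcases hch a ha.1 c hc.1 b hb.1 d hd.1 e1 e2 y1 y3 with h | h
            · exact y4 h.symm
            · exact y2 h.symm
        · exact key3 _ _ ⟨x2, by rw [e2]; exact x3⟩
      · rcases hbc with ⟨x2, y2⟩ | ⟨x2, y2⟩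
        · rcases hcd with ⟨x3, y3⟩ | ⟨x3, y3⟩
          · exact key3 _ _ ⟨x3, by rw [← e2]; exact x2⟩
          · rcases hda with ⟨x4, y4⟩ | ⟨x4, y4⟩
            · rcases hch c hc.1 a ha.1 b hb.1 d hd.1 e1.symm e2 y2.symm y4.symm with h | h
              · exact y3 h
              · exact y1 h
            · exact key3 _ _ ⟨x4, by rw [← e2]; exact x1⟩
        · exact key3 _ _ ⟨x1, by rw [e1]; exact x2⟩
    · intro w hw c hc e he n1 n2 hew
      have e1 : cl w = cl c := by
        by_contra h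
        rcases arc_total h with h' | h'
        · exact n1 h'
        · exact n2 h'
      exact arc_total (fun h => arc_ne hew (by rw [← h, e1]))

include hch hno in
/-- tied vertices lie in one class -/
theorem tied_class {t : Fin 3 → V} (ht : Tri G A cl t) {p q : V} (hp : p ∈ A) (hq : q ∈ A)
    (h1 : ∀ k, k ≠ cl p → ¬ G.Adj p (t k)) (h2 : ∀ k, k ≠ cl q → ¬ G.Adj q (t k)) :
    cl p = cl q := by
  by_contra hne
  obtain ⟨k, hk1, hk2⟩ := f8 _ _ hne
  have hadj : G.Adj p q := by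
    rcases hno p hp q hq (t k) (ht.1 k) hne (by rw [ht.2.1]; exact hk2.symm)
      (by rw [ht.2.1]; exact hk1.symm) with h | h | h
    · exact h
    · exact absurd h (h2 k hk2)
    · exact absurd h (h1 k hk1)
  rcases hch (t (cl p)) (ht.1 _) p hp (t (cl q)) (ht.1 _) q hq (ht.2.1 _) (ht.2.1 _)
    (ht.2.2 _ _ hne) hadj with h | h
  · exact h2 _ hne h.symm
  · exact h1 _ (Ne.symm hne) h

include hch hu in
/-- tied vertices are not in triangles -/
theorem tied_tri {t s : Fin 3 → V} (ht : Tri G A cl t) (hs : Tri G A cl s) {p : V} (hp : p ∈ A)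
    (h1 : ∀ k, k ≠ cl p → ¬ G.Adj p (t k)) : p ≠ s (cl p) := by
  intro hps
  have ps : ∀ k, k ≠ cl p → G.Adj p (s k) := by
    intro k hk
    have := hs.2.2 _ _ (Ne.symm hk)
    rwa [← hps] at this
  have ts : ∀ k, k ≠ cl p → G.Adj (t (cl p)) (s k) := by
    intro k hk
    rcases hch p hp (t (cl p)) (ht.1 _) (s k) (hs.1 k) (t k) (ht.1 k) (ht.2.1 _).symm
      (by rw [ht.2.1, hs.2.1]) (ps k hk) (ht.2.2 _ _ (Ne.symm hk)) with h | h
    · exact absurd h (h1 k hk)
    · exact h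
  have n1 := (f1 (cl p)).symm
  have n2 := (f2 (cl p)).symm
  have n3 := f3 (cl p)
  rcases hch (s (cl p + 1)) (hs.1 _) (t (cl p + 1)) (ht.1 _) (s (cl p + 2)) (hs.1 _)
    (t (cl p + 2)) (ht.1 _) (by rw [ht.2.1, hs.2.1]) (by rw [ht.2.1, hs.2.1])
    (hs.2.2 _ _ n3) (ht.2.2 _ _ n3) with h | h
  · have := hu (t (cl p)) (t (cl p + 2)) (t (cl p + 1)) (s (cl p + 1)) (ht.2.2 _ _ n2.symm)
      (ht.2.2 _ _ n1.symm) (ht.2.2 _ _ n3.symm) (ts _ n1) h.symm
    exact h1 _ n1 (this ▸ ps _ n1)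
  · have := hu (t (cl p)) (t (cl p + 1)) (t (cl p + 2)) (s (cl p + 2)) (ht.2.2 _ _ n1.symm)
      (ht.2.2 _ _ n2.symm) (ht.2.2 _ _ n3) (ts _ n2) h
    exact h1 _ n2 (this ▸ ps _ n2)

include hI hch hu hno in
theorem tour_str [Finite V] : Str G (Fintype.card (Fin 3 × Bool)) 2 A := by
  classical
  have := Fintype.ofFinite V
  let fl : V → Prop := fun v => ∃ t, Tri G A cl t ∧ v = t (cl v)
  apply Str.ofL (l := fun v => (cl v, decide (fl v)))
  intro e he
  let b : V → ℕ := fun v => (Finset.univ.filter (fun w => Rea G A cl w v)).card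
  have bsub : ∀ u ∈ A, ∀ v ∈ A, arc G cl u v →
      Finset.univ.filter (fun w => Rea G A cl w u) ⊆
        Finset.univ.filter (fun w => Rea G A cl w v) := by
    intro u hu' v hv h w hw
    simp only [Finset.mem_filter, Finset.mem_univ, true_and] at hw ⊢
    exact hw.tail ⟨hu', hv, h⟩
  have ble : ∀ u ∈ A, ∀ v ∈ A, arc G cl u v → b u ≤ b v := fun u hu' v hv h =>
    Finset.card_le_card (bsub u hu' v hv h)
  refine ⟨b, liftR e (fun p q => q.1 = p.1 + 1), ?_, ?_⟩
  · intro u hu' v hv huv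
    rw [liftR_iff he]
    by_cases hcl : cl u = cl v
    · simp only [hI u hu' v hv hcl, false_iff]
      intro h
      exact f1 (cl u) (hcl.trans h)
    · rcases arc_total hcl with h | h
      · exact arc_iff h
      · exact absurd (ble v hv u hu' h) (by omega)
  · intro k
    refine Blk.oneL he (fun p q => p.1 ≠ q.1 ∧ p.2 = true ∧ q.2 = true) ?_
    have main : ∀ u ∈ A, ∀ v ∈ A, b u = b v → arc G cl u v →
        (G.Adj u v ↔ (fl u ∧ fl v)) := by
      intro u hu' v hv hb harc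
      have heq := Finset.eq_of_subset_of_card_le (bsub u hu' v hv harc) (by
        show b v ≤ b u
        omega)
      have hvu : Rea G A cl v u := by
        have : v ∈ Finset.univ.filter (fun w => Rea G A cl w u) := by
          rw [heq]
          simp only [Finset.mem_filter, Finset.mem_univ, true_and]
          exact Relation.ReflTransGen.refl
        simpa using this
      obtain ⟨t, ht, h1, h2⟩ := strong_block hch hu hno hu' hv harc hvu
      have hcl := arc_ne harc
      rcases h1 with h1 | h1 <;> rcases h2 with h2 | h2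
      · constructor
        · intro _
          exact ⟨⟨t, ht, h1⟩, ⟨t, ht, h2⟩⟩
        · intro _
          rw [h1, h2]
          exact ht.2.2 _ _ hcl
      · constructor
        · intro h
          rw [h1] at h
          exact absurd h.symm (h2 _ hcl)
        · rintro ⟨-, s, hs, h⟩
          exact absurd h (tied_tri hch hu ht hs hv h2)
      · constructor
        · intro h
          rw [h2] at h
          exact absurd h (h1 _ (Ne.symm hcl))
        · rintro ⟨⟨s, hs, h⟩, -⟩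
          exact absurd h (tied_tri hch hu ht hs hu' h1)
      · exact absurd (tied_class hch hno ht hu' hv h1 h2) hcl
    rintro u ⟨hu', hbu⟩ v ⟨hv, hbv⟩ huv
    simp only [decide_eq_true_eq]
    by_cases hcl : cl u = cl v
    · simp [hI u hu' v hv hcl, hcl]
    · rcases arc_total hcl with h | h
      · rw [main u hu' v hv (by omega) h]
        simp [hcl]
      · rw [SimpleGraph.adj_comm, main v hv u hu' (by omega) h]
        simp only [ne_eq, hcl, not_false_eq_true, true_and]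
        exact and_comm

end tour

end H79.BlockWQO
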