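import Pool.Agent.Lib_helper79.ChainBip

/-! Triangle-free `P₁+2P₂`-free graphs have a bounded block structure. -/

namespace H79.BlockWQO

open Set

variable {V : Type} {G : SimpleGraph V}

/-- `G` has no induced `P₁+2P₂`, in first order form -/
def QF (G : SimpleGraph V) : Prop :=
  ∀ p q r s t, G.Adj p q → G.Adj r s → ¬ G.Adj p r → ¬ G.Adj p s → ¬ G.Adj q r → ¬ G.Adj q s →
    ¬ G.Adj t p → ¬ G.Adj t q → ¬ G.Adj t r → ¬ G.Adj t s → False

/-- bipartite blocks of a `P₁+2P₂`-free graph -/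
theorem bip_blk' [Finite V] (hQ : QF G) {ℓ : V → ℕ} {P Q : Set V} (isP : ℕ → Prop)
    (hP : ∀ u ∈ P, ∀ v ∈ P, ¬ G.Adj u v) (hQ' : ∀ u ∈ Q, ∀ v ∈ Q, ¬ G.Adj u v)
    (lP : ∀ u ∈ P, isP (ℓ u)) (lQ : ∀ u ∈ Q, ¬ isP (ℓ u)) :
    Blk G ℓ 3 (P ∪ Q) := by
  apply bip_blk isP hP hQ' lP lQ
  · intro p1 h1 p2 h2 p3 h3 q1 k1 q2 k2 a1 a2 n1 n2
    by_contra hcon
    push Not at hcon
    exact hQ p1 q1 p2 q2 p3 a1 a2 (hP _ h1 _ h2) n1 (fun h => n2 h.symm) (hQ' _ k1 _ k2)
      (hP _ h3 _ h1) hcon.1 (hP _ h3 _ h2) hcon.2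
  · intro q1 h1 q2 h2 q3 h3 p1 k1 p2 k2 a1 a2 n1 n2
    by_contra hcon
    push Not at hcon
    exact hQ p1 q1 p2 q2 q3 a1 a2 (hP _ k1 _ k2) n1 (fun h => n2 h.symm) (hQ' _ h1 _ h2)
      (fun h => hcon.1 h.symm) (hQ' _ h3 _ h1) (fun h => hcon.2 h.symm) (hQ' _ h3 _ h2)

section tf

variable (hQ : QF G) (hT : ∀ a b c, G.Adj a b → G.Adj b c → G.Adj a c → False)

include hQ hT

/-- no induced five-cycle among the non-neighbours of a non-isolated vertex -/
theorem noC5 {v u a b c d e : V} (hvu : G.Adj v u) (hva : ¬ G.Adj v a) (hvb : ¬ G.Adj v b)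
    (hvc : ¬ G.Adj v c) (hvd : ¬ G.Adj v d) (hve : ¬ G.Adj v e)
    (hab : G.Adj a b) (hbc : G.Adj b c) (hcd : G.Adj c d) (hde : G.Adj d e) (hea : G.Adj e a) :
    False := by
  have nac : ¬ G.Adj a c := fun h => hT a b c hab hbc h
  have nbd : ¬ G.Adj b d := fun h => hT b c d hbc hcd h
  have nce : ¬ G.Adj c e := fun h => hT c d e hcd hde h
  have nda : ¬ G.Adj d a := fun h => hT d e a hde hea h
  have neb : ¬ G.Adj e b := fun h => hT e a b hea hab h
  -- the forbidden pattern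
  have pat : ∀ p q t, G.Adj p q → ¬ G.Adj v p → ¬ G.Adj v q → ¬ G.Adj v t → ¬ G.Adj t p →
      ¬ G.Adj t q → G.Adj u p ∨ G.Adj u q ∨ G.Adj u t := by
    intro p q t hpq nvp nvq nvt ntp ntq
    by_contra hcon
    push Not at hcon
    exact hQ v u p q t hvu hpq nvp nvq hcon.1 hcon.2.1 (fun h => nvt h.symm)
      (fun h => hcon.2.2 h.symm) ntp ntq
  have e1 := pat a b d hab hva hvb hvd nda (fun h => nbd h.symm)
  have e2 := pat b c e hbc hvb hvc hve neb (fun h => nce h.symm)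
  have e3 := pat c d a hcd hvc hvd hva nac (fun h => nda h.symm)
  have e4 := pat d e b hde hvd hve hvb nbd (fun h => neb h.symm)
  have e5 := pat e a c hea hve hva hvc nce (fun h => nac h.symm)
  have t1 : ¬ (G.Adj u a ∧ G.Adj u b) := fun h => hT u a b h.1 hab h.2
  have t2 : ¬ (G.Adj u b ∧ G.Adj u c) := fun h => hT u b c h.1 hbc h.2
  have t3 : ¬ (G.Adj u c ∧ G.Adj u d) := fun h => hT u c d h.1 hcd h.2
  have t4 : ¬ (G.Adj u d ∧ G.Adj u e) := fun h => hT u d e h.1 hde h.2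
  have t5 : ¬ (G.Adj u e ∧ G.Adj u a) := fun h => hT u e a h.1 hea h.2
  by_cases ha : G.Adj u a <;> by_cases hb : G.Adj u b <;> by_cases hc : G.Adj u c <;>
    by_cases hd : G.Adj u d <;> by_cases he : G.Adj u e <;>
    simp_all only [or_true, or_false, not_true_eq_false, not_false_eq_true,
      and_true, and_false]

/-- the main case: an edge among the non-neighbours of a non-isolated vertex -/
theorem tf_main [Finite V] {v u0 a0 b0 : V} (hvu : G.Adj v u0) (hva : ¬ G.Adj v a0)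
    (hvb : ¬ G.Adj v b0) (hab : G.Adj a0 b0) : Str G 13 4 Set.univ := by
  classical
  have := Fintype.ofFinite V
  -- neighbours and non-neighbours
  let N : Set V := {u | G.Adj v u}
  let M : Set V := {m | m ≠ v ∧ ¬ G.Adj v m}
  have ha0v : a0 ≠ v := by rintro rfl; exact hvb hab
  have hb0v : b0 ≠ v := by rintro rfl; exact hva hab.symm
  have a0M : a0 ∈ M := ⟨ha0v, hva⟩
  have b0M : b0 ∈ M := ⟨hb0v, hvb⟩
  have indN : ∀ u ∈ N, ∀ w ∈ N, ¬ G.Adj u w := fun u hu w hw h => hT v u w hu h hw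
  -- `M` is `2P₂`-free
  have two : ∀ p ∈ M, ∀ q ∈ M, ∀ r ∈ M, ∀ s ∈ M, G.Adj p q → G.Adj r s →
      G.Adj p r ∨ G.Adj p s ∨ G.Adj q r ∨ G.Adj q s := by
    intro p hp q hq r hr s hs hpq hrs
    by_contra hcon
    push Not at hcon
    exact hQ p q r s v hpq hrs hcon.1 hcon.2.1 hcon.2.2.1 hcon.2.2.2 hp.2 hq.2 hr.2 hs.2
  have c5 : ∀ a ∈ M, ∀ b ∈ M, ∀ c ∈ M, ∀ d ∈ M, ∀ e ∈ M, G.Adj a b → G.Adj b c → G.Adj c d →
      G.Adj d e → G.Adj e a → False := fun a ha b hb c hc d hd e he =>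
    noC5 hQ hT hvu ha.2 hb.2 hc.2 hd.2 he.2
  -- the bipartition of `M`
  let A : Set V := {m | m ∈ M ∧ (G.Adj m b0 ∨ (¬ G.Adj m a0 ∧ ¬ G.Adj m b0 ∧
    ∃ m' ∈ M, G.Adj m' a0 ∧ G.Adj m m'))}
  let B : Set V := {m | m ∈ M ∧ m ∉ A}
  have indA : ∀ p ∈ A, ∀ q ∈ A, ¬ G.Adj p q := by
    rintro p ⟨hp, hp'⟩ q ⟨hq, hq'⟩ hpq
    rcases hp' with h1 | ⟨h1, h1', p', hp'M, h1a, h1b⟩ <;>
      rcases hq' with h2 | ⟨h2, h2', q', hq'M, h2a, h2b⟩
    · exact hT p q b0 hpq h2 h1
    · exact c5 p hp b0 b0M a0 a0M q' hq'M q hq h1 hab.symm h2a.symm h2b.symm hpq.symm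
    · exact c5 q hq b0 b0M a0 a0M p' hp'M p hp h2 hab.symm h1a.symm h1b.symm hpq
    · rcases two p hp q hq a0 a0M b0 b0M hpq hab with h | h | h | h
      · exact h1 h
      · exact h1' h
      · exact h2 h
      · exact h2' h
  have indB : ∀ p ∈ B, ∀ q ∈ B, ¬ G.Adj p q := by
    rintro p ⟨hp, hp'⟩ q ⟨hq, hq'⟩ hpq
    have pb : ¬ G.Adj p b0 := fun h => hp' ⟨hp, Or.inl h⟩
    have qb : ¬ G.Adj q b0 := fun h => hq' ⟨hq, Or.inl h⟩
    by_cases pa : G.Adj p a0
    · by_cases qa : G.Adj q a0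
      · exact hT p q a0 hpq qa pa
      · exact hq' ⟨hq, Or.inr ⟨qa, qb, p, hp, pa, hpq.symm⟩⟩
    · by_cases qa : G.Adj q a0
      · exact hp' ⟨hp, Or.inr ⟨pa, pb, q, hq, qa, hpq⟩⟩
      · rcases two p hp q hq a0 a0M b0 b0M hpq hab with h | h | h | h
        · exact pa h
        · exact pb h
        · exact qa h
        · exact qb h
  have AM : ∀ p ∈ A, p ∈ M := fun p hp => hp.1
  have BM : ∀ p ∈ B, p ∈ M := fun p hp => hp.1
  obtain ⟨f, g, hfg, hf1, hf2, hg⟩ := chain_rank (G := G) (P := A) (Q := B) (by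
    intro p hp p' hp' q hq q' hq' h1 h2
    rcases two p hp.1 q hq.1 p' hp'.1 q' hq'.1 h1 h2 with h | h | h | h
    · exact absurd h (indA p hp p' hp')
    · exact Or.inl h
    · exact Or.inr h.symm
    · exact absurd h (indB q hq q' hq'))
  let A' : Set V := {a | a ∈ A ∧ ∃ b ∈ B, G.Adj a b}
  let B' : Set V := {b | b ∈ B ∧ ∃ a ∈ A, G.Adj a b}
  have A'M : ∀ p ∈ A', p ∈ M := fun p hp => hp.1.1
  have B'M : ∀ p ∈ B', p ∈ M := fun p hp => hp.1.1
  have A'B' : ∀ p ∈ B', p ∉ A' := fun p hp hp' => hp.1.2 hp'.1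
  have isoM : ∀ m ∈ M, m ∉ A' → m ∉ B' → ∀ m' ∈ M, ¬ G.Adj m m' := by
    intro m hm h1 h2 m' hm' h
    by_cases c1 : m ∈ A
    · by_cases c2 : m' ∈ A
      · exact indA m c1 m' c2 h
      · exact h1 ⟨c1, m', ⟨hm', c2⟩, h⟩
    · by_cases c2 : m' ∈ A
      · exact h2 ⟨⟨hm, c1⟩, m', c2, h.symm⟩
      · exact indB m ⟨hm, c1⟩ m' ⟨hm', c2⟩ h
  -- edges of `M` avoiding `u`
  have cov : ∀ u ∈ N, ∀ a ∈ M, ∀ b ∈ M, G.Adj a b → ¬ G.Adj u a → ¬ G.Adj u b → ∀ t ∈ M,
      G.Adj t u ∨ G.Adj t a ∨ G.Adj t b := by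
    intro u hu a ha b hb hab' nua nub t ht
    by_contra hcon
    push Not at hcon
    exact hQ v u a b t hu hab' ha.2 hb.2 nua nub (fun h => ht.2 h.symm) hcon.1 hcon.2.1 hcon.2.2
  let s1 : V → Prop := fun u => (∀ a ∈ A', G.Adj u a) ∧ (∀ b ∈ B', ¬ G.Adj u b)
  let s2 : V → Prop := fun u => (∀ b ∈ B', G.Adj u b) ∧ (∀ a ∈ A', ¬ G.Adj u a)
  -- middle vertices avoid an edge
  have mid : ∀ u ∈ N, ¬ s1 u → ¬ s2 u → ∃ a ∈ A', ∃ b ∈ B', G.Adj a b ∧ ¬ G.Adj u a ∧
      ¬ G.Adj u b := by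
    intro u hu h1 h2
    by_contra hcon
    push Not at hcon
    obtain ⟨b1, hb1, hub1⟩ : ∃ b ∈ B', G.Adj u b := by
      by_contra hno
      push Not at hno
      apply h1
      refine ⟨fun a ha => ?_, hno⟩
      by_contra hua
      obtain ⟨b, hb, hab'⟩ := ha.2
      have hb' : b ∈ B' := ⟨hb, a, ha.1, hab'⟩
      exact hno b hb' (hcon a ha b hb' hab' hua)
    obtain ⟨a1, ha1, hua1⟩ : ∃ a ∈ A', G.Adj u a := by
      by_contra hno
      push Not at hno
      apply h2
      refine ⟨fun b hb => ?_, hno⟩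
      obtain ⟨a, ha, hab'⟩ := hb.2
      have ha' : a ∈ A' := ⟨ha, b, hb.1, hab'⟩
      exact hcon a ha' b hb hab' (hno a ha')
    obtain ⟨b2, hb2, hab2⟩ := ha1.2
    obtain ⟨a2, ha2, hab1⟩ := hb1.2
    have n11 : ¬ G.Adj a1 b1 := fun h => hT u a1 b1 hua1 h hub1
    have h22 : G.Adj a2 b2 := by
      rw [hfg a1 ha1.1 b2 hb2] at hab2
      rw [hfg a2 ha2 b1 hb1.1] at hab1
      rw [hfg a1 ha1.1 b1 hb1.1] at n11
      rw [hfg a2 ha2 b2 hb2]
      omega
    by_cases hua2 : G.Adj u a2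
    · exact hT u a2 b1 hua2 hab1 hub1
    · have := hcon a2 ⟨ha2, b2, hb2, h22⟩ b2 ⟨hb2, a2, ha2, h22⟩ h22 hua2
      exact hT u a1 b2 hua1 hab2 this
  -- the index function
  let idx : V → ℕ := fun x => if x ∈ A' then 4 * f x + 2 else if x ∈ B' then 4 * g x else 0
  have idxA : ∀ x ∈ A', idx x = 4 * f x + 2 := fun x hx => by simp only [idx, if_pos hx]
  have idxB : ∀ x ∈ B', idx x = 4 * g x := fun x hx => by
    simp only [idx, if_neg (A'B' x hx), if_pos hx]
  have gpos : ∀ x ∈ B', 0 < g x := by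
    intro x hx
    obtain ⟨a, ha, hax⟩ := hx.2
    rw [hfg a ha x hx.1] at hax
    omega
  let bad : V → V → Prop := fun u x => (x ∈ A' ∧ ¬ G.Adj u x) ∨ (x ∈ B' ∧ G.Adj u x)
  -- staircase
  have stair : ∀ u ∈ N, ∀ s, bad u s → ∀ t, (t ∈ A' ∨ t ∈ B') → ¬ bad u t → idx s ≤ idx t := by
    intro u hu s hs t ht htb
    by_contra hlt
    push Not at hlt
    have htb1 : t ∈ A' → G.Adj u t := by
      intro h; by_contra h'; exact htb (Or.inl ⟨h, h'⟩)
    have htb2 : t ∈ B' → ¬ G.Adj u t := by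
      intro h h'; exact htb (Or.inr ⟨h, h'⟩)
    rcases hs with ⟨hsA, hus⟩ | ⟨hsB, hus⟩
    · rcases ht with htA | htB
      · -- `s, t ∈ A'`
        have hut := htb1 htA
        rw [idxA s hsA, idxA t htA] at hlt
        -- some `b ∈ N(t) ∖ N(s)`
        have h1 : ¬ (∀ q ∈ B, G.Adj t q → G.Adj s q) := by
          intro h
          have := hf2 s hsA.1 t htA.1 h
          omega
        push Not at h1
        obtain ⟨b, hb, htb', hsb⟩ := h1
        obtain ⟨b1, hb1, hsb1⟩ := hsA.2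
        have htb1' : G.Adj t b1 := hf1 t htA.1 s hsA.1 (by omega) b1 hb1 hsb1
        have hub1 : ¬ G.Adj u b1 := fun h => hT u t b1 hut htb1' h
        have hub : ¬ G.Adj u b := fun h => hT u t b hut htb' h
        rcases cov u hu s (A'M s hsA) b1 (BM b1 hb1) hsb1 hus hub1 b (BM b hb) with h | h | h
        · exact hub h.symm
        · exact hsb h.symm
        · exact indB b hb b1 hb1 h
      · -- `s ∈ A'`, `t ∈ B'`
        have hut := htb2 htB
        rw [idxA s hsA, idxB t htB] at hlt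
        obtain ⟨a1, ha1, ha1t⟩ := htB.2
        obtain ⟨b1, hb1, hsb1⟩ := hsA.2
        have nst : ¬ G.Adj s t := by
          rw [hfg s hsA.1 t htB.1]; omega
        have h11 : G.Adj a1 b1 := by
          rw [hfg a1 ha1 t htB.1] at ha1t
          rw [hfg s hsA.1 b1 hb1] at hsb1
          rw [hfg a1 ha1 b1 hb1]; omega
        have e1 : G.Adj u a1 := by
          by_contra hua1
          rcases cov u hu a1 (AM a1 ha1) t (B'M t htB) ha1t hua1 hut s (A'M s hsA) with h | h | h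
          · exact hus h.symm
          · exact indA s hsA.1 a1 ha1 h
          · exact nst h
        have e2 : G.Adj u b1 := by
          by_contra hub1
          rcases cov u hu s (A'M s hsA) b1 (BM b1 hb1) hsb1 hus hub1 t (B'M t htB) with h | h | h
          · exact hut h.symm
          · exact nst h.symm
          · exact indB t htB.1 b1 hb1 h
        exact hT u a1 b1 e1 h11 e2
    · rcases ht with htA | htB
      · -- `s ∈ B'`, `t ∈ A'`
        have hut := htb1 htA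
        rw [idxB s hsB, idxA t htA] at hlt
        have : G.Adj t s := by
          rw [hfg t htA.1 s hsB.1]; omega
        exact hT u t s hut this hus
      · -- both in `B'`
        have hut := htb2 htB
        rw [idxB s hsB, idxB t htB] at hlt
        have h1 : ¬ (∀ p ∈ A, G.Adj p s → G.Adj p t) := by
          intro h
          have := hg s hsB.1 t htB.1 h
          omega
        push Not at h1
        obtain ⟨a, ha, has, hat⟩ := h1
        obtain ⟨a1, ha1, ha1t⟩ := htB.2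
        have ha1s : G.Adj a1 s := by
          rw [hfg a1 ha1 t htB.1] at ha1t
          rw [hfg a1 ha1 s hsB.1]; omega
        have hua1 : ¬ G.Adj u a1 := fun h => hT u a1 s h ha1s hus
        have hua : ¬ G.Adj u a := fun h => hT u a s h has hus
        rcases cov u hu a1 (AM a1 ha1) t (B'M t htB) ha1t hua1 hut a (AM a ha) with h | h | h
        · exact hua h.symm
        · exact indA a ha a1 ha1 h
        · exact hat h
  let μ : V → ℕ := fun u => Finset.univ.sup (fun x => if bad u x then idx x else 0)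
  have μge : ∀ u x, bad u x → idx x ≤ μ u := by
    intro u x hx
    have : (if bad u x then idx x else 0) ≤ μ u :=
      Finset.le_sup (f := fun x => if bad u x then idx x else 0) (Finset.mem_univ x)
    rwa [if_pos hx] at this
  have μle : ∀ u ∈ N, ∀ x, (x ∈ A' ∨ x ∈ B') → idx x < μ u → bad u x := by
    intro u hu x hx hlt
    by_contra hb
    obtain ⟨s, -, hs⟩ := (Finset.lt_sup_iff).mp hlt
    split_ifs at hs with hc
    · exact absurd (stair u hu s hc x hx hb) (by omega)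
    · omega
  -- labels and blocks
  let ℓ : V → ℕ := fun x => if x ∈ N then (if s1 x then 4 else if s2 x then 5 else 3) else
    if x ∈ A' then 0 else if x ∈ B' then 1 else 2
  let b : V → ℕ := fun x => if x ∈ N then (if s1 x then 0 else if s2 x then 0 else μ x) else idx x
  have MN : ∀ x ∈ M, x ∉ N := fun x hx h => hx.2 h
  have hcase : ∀ x, x ∈ Set.univ \ ({v} : Set V) →
      (x ∈ N ∧ s1 x ∧ ℓ x = 4 ∧ b x = 0) ∨ (x ∈ N ∧ s2 x ∧ ℓ x = 5 ∧ b x = 0) ∨
      (x ∈ N ∧ ¬ s1 x ∧ ¬ s2 x ∧ ℓ x = 3 ∧ b x = μ x) ∨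
      (x ∈ A' ∧ ℓ x = 0 ∧ b x = 4 * f x + 2) ∨ (x ∈ B' ∧ ℓ x = 1 ∧ b x = 4 * g x) ∨
      (x ∈ M ∧ x ∉ A' ∧ x ∉ B' ∧ ℓ x = 2 ∧ b x = 0) := by
    intro x hx
    have hxv : x ≠ v := hx.2
    by_cases hN : x ∈ N
    · by_cases h1 : s1 x
      · exact Or.inl ⟨hN, h1, by simp only [ℓ, if_pos hN, if_pos h1],
          by simp only [b, if_pos hN, if_pos h1]⟩
      · by_cases h2 : s2 x
        · exact Or.inr (Or.inl ⟨hN, h2, by simp only [ℓ, if_pos hN, if_neg h1, if_pos h2],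
            by simp only [b, if_pos hN, if_neg h1, if_pos h2]⟩)
        · exact Or.inr (Or.inr (Or.inl ⟨hN, h1, h2,
            by simp only [ℓ, if_pos hN, if_neg h1, if_neg h2],
            by simp only [b, if_pos hN, if_neg h1, if_neg h2]⟩))
    · have hM : x ∈ M := ⟨hxv, hN⟩
      by_cases hA : x ∈ A'
      · exact Or.inr (Or.inr (Or.inr (Or.inl ⟨hA, by simp only [ℓ, if_neg hN, if_pos hA],
          by simp only [b, if_neg hN]; exact idxA x hA⟩)))
      · by_cases hB : x ∈ B'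
        · exact Or.inr (Or.inr (Or.inr (Or.inr (Or.inl ⟨hB,
            by simp only [ℓ, if_neg hN, if_neg hA, if_pos hB],
            by simp only [b, if_neg hN]; exact idxB x hB⟩))))
        · exact Or.inr (Or.inr (Or.inr (Or.inr (Or.inr ⟨hM, hA, hB,
            by simp only [ℓ, if_neg hN, if_neg hA, if_neg hB],
            by simp only [b, if_neg hN, idx, if_neg hA, if_neg hB]⟩))))
  have main : Str G 6 4 (Set.univ \ ({v} : Set V)) := by
    refine ⟨ℓ, ?_, b, fun p q => (p = 2 ∧ q = 3) ∨ (p = 0 ∧ q = 1) ∨ (p = 1 ∧ q = 3) ∨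
      (p = 3 ∧ q = 0) ∨ (p = 4 ∧ q = 0) ∨ (p = 5 ∧ q = 1), ?_, ?_⟩
    · intro x hx
      rcases hcase x hx with h | h | h | h | h | h
      · rw [h.2.2.1]; norm_num
      · rw [h.2.2.1]; norm_num
      · rw [h.2.2.2.1]; norm_num
      · rw [h.2.1]; norm_num
      · rw [h.2.1]; norm_num
      · rw [h.2.2.2.1]; norm_num
    · intro x hx y hy hxy
      rcases hcase x hx with ⟨xN, xs, xl, xb⟩ | ⟨xN, xs, xl, xb⟩ | ⟨xN, xs1, xs2, xl, xb⟩ |
        ⟨xA, xl, xb⟩ | ⟨xB, xl, xb⟩ | ⟨xM, xA, xB, xl, xb⟩ <;>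
      rcases hcase y hy with ⟨yN, ys, yl, yb⟩ | ⟨yN, ys, yl, yb⟩ | ⟨yN, ys1, ys2, yl, yb⟩ |
        ⟨yA, yl, yb⟩ | ⟨yB, yl, yb⟩ | ⟨yM, yA, yB, yl, yb⟩
      all_goals first
        | (exfalso; omega)
        | skip
      all_goals rw [xb, yb] at hxy
      all_goals simp only [xl, yl]
      all_goals norm_num
      -- N–N
      · exact indN x xN y yN
      · exact xs.1 y yA
      · exact xs.2 y yB
      · exact indN x xN y yN
      · exact xs.2 y yA
      · exact xs.1 y yB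
      · exact indN x xN y yN
      · by_contra hn
        have := μge x y (Or.inl ⟨yA, hn⟩)
        rw [idxA y yA] at this
        omega
      · intro hn
        have := μge x y (Or.inr ⟨yB, hn⟩)
        rw [idxB y yB] at this
        omega
      · rcases μle y yN x (Or.inl xA) (by rw [idxA x xA]; exact hxy) with h | h
        · exact fun h' => h.2 h'.symm
        · exact absurd xA (A'B' x h.1)
      · exact indA x xA.1 y yA.1
      · rw [hfg x xA.1 y yB.1]; omega
      · rcases μle y yN x (Or.inr xB) (by rw [idxB x xB]; exact hxy) with h | h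
        · exact absurd h.1 (A'B' x xB)
        · exact h.2.symm
      · intro h
        have := (hfg y yA.1 x xB.1).mp h.symm
        omega
      · exact indB x xB.1 y yB.1
      · obtain ⟨a, ha, b', hb', hab', na, nb⟩ := mid y yN ys1 ys2
        rcases cov y yN a (A'M a ha) b' (B'M b' hb') hab' na nb x xM with h | h | h
        · exact h
        · exact absurd h (isoM x xM xA xB a (A'M a ha))
        · exact absurd h (isoM x xM xA xB b' (B'M b' hb'))
      · exact isoM x xM xA xB y (A'M y yA)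
      · exact isoM x xM xA xB y (B'M y yB)
    · intro k
      have key := bip_blk' (G := G) hQ (ℓ := ℓ)
        (P := {x | x ∈ N ∧ x ∈ Set.univ \ ({v} : Set V) ∧ b x = k})
        (Q := {x | x ∈ M ∧ x ∈ Set.univ \ ({v} : Set V) ∧ b x = k}) (fun n => 3 ≤ n)
        (fun x hx y hy => indN x hx.1 y hy.1) ?_ ?_ ?_
      · refine key.subset ?_
        rintro x ⟨hx, hk⟩
        by_cases hN : x ∈ N
        · exact Or.inl ⟨hN, hx, hk⟩
        · exact Or.inr ⟨⟨hx.2, hN⟩, hx, hk⟩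
      · rintro x ⟨xM', hx, hxk⟩ y ⟨yM', hy, hyk⟩ hadj
        rcases hcase x hx with ⟨xN, xs, xl, xb⟩ | ⟨xN, xs, xl, xb⟩ | ⟨xN, xs1, xs2, xl, xb⟩ |
          ⟨xA, xl, xb⟩ | ⟨xB, xl, xb⟩ | ⟨xM, xA, xB, xl, xb⟩
        · exact MN x xM' xN
        · exact MN x xM' xN
        · exact MN x xM' xN
        · rcases hcase y hy with ⟨yN, ys, yl, yb⟩ | ⟨yN, ys, yl, yb⟩ | ⟨yN, ys1, ys2, yl, yb⟩ |
            ⟨yA, yl, yb⟩ | ⟨yB, yl, yb⟩ | ⟨yM, yA, yB, yl, yb⟩
          · exact MN y yM' yN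
          · exact MN y yM' yN
          · exact MN y yM' yN
          · exact indA x xA.1 y yA.1 hadj
          · omega
          · exact isoM y yM yA yB x xM' hadj.symm
        · rcases hcase y hy with ⟨yN, ys, yl, yb⟩ | ⟨yN, ys, yl, yb⟩ | ⟨yN, ys1, ys2, yl, yb⟩ |
            ⟨yA, yl, yb⟩ | ⟨yB, yl, yb⟩ | ⟨yM, yA, yB, yl, yb⟩
          · exact MN y yM' yN
          · exact MN y yM' yN
          · exact MN y yM' yN
          · omega
          · exact indB x xB.1 y yB.1 hadj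
          · exact isoM y yM yA yB x xM' hadj.symm
        · exact isoM x xM xA xB y yM' hadj
      · rintro x ⟨xN, hx, hxk⟩
        rcases hcase x hx with h | h | h | h | h | h
        · rw [h.2.2.1]; norm_num
        · rw [h.2.2.1]; norm_num
        · rw [h.2.2.2.1]
        · exact absurd xN (MN x (A'M x h.1))
        · exact absurd xN (MN x (B'M x h.1))
        · exact absurd xN (MN x h.1)
      · rintro x ⟨xM, hx, hxk⟩
        have hN := MN x xM
        rcases hcase x hx with h | h | h | h | h | h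
        · exact absurd h.1 hN
        · exact absurd h.1 hN
        · exact absurd h.1 hN
        · rw [h.2.1]; norm_num
        · rw [h.2.1]; norm_num
        · rw [h.2.2.2.1]; norm_num
  exact main.del

/-- triangle-free `P₁+2P₂`-free graphs -/
theorem tf_str [Finite V] : Str G 13 4 Set.univ := by
  classical
  by_cases h1 : ∃ v u, G.Adj v u
  · obtain ⟨v, u, hvu⟩ := h1
    by_cases h2 : ∃ a b, ¬ G.Adj v a ∧ ¬ G.Adj v b ∧ G.Adj a b
    · obtain ⟨a, b, ha, hb, hab⟩ := h2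
      exact tf_main hQ hT hvu ha hb hab
    · push Not at h2
      have key := bip_blk' (G := G) hQ (ℓ := fun x => if G.Adj v x then 1 else 0)
        (P := {x | G.Adj v x}) (Q := {x | ¬ G.Adj v x}) (fun n => n = 1)
        (fun x hx y hy h => hT v x y hx h hy)
        (fun x hx y hy h => h2 x y hx hy h)
        (fun x hx => by
          have hx' : G.Adj v x := hx
          simp [hx'])
        (fun x hx => by
          have hx' : ¬ G.Adj v x := hx
          simp [hx'])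
      refine (?_ : Str G 2 3 Set.univ).mono (by norm_num) (by norm_num)
      refine ⟨_, ?_, key.subset (fun x _ => em _)⟩
      intro x _
      split_ifs <;> norm_num
  · push Not at h1
    refine (?_ : Str G 1 1 Set.univ).mono (by norm_num) (by norm_num)
    exact ⟨fun _ => 0, fun _ _ => Nat.one_pos, Blk.indep (fun u _ w _ => h1 u w)⟩

end tf

end H79.BlockWQO
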