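import Mathlib

set_option autoImplicit false

namespace Pool.Agent.Lib_helper79

open Cardinal Set

variable {V : Type}

/-- Reachability inside the vertex set `A`. -/
def Rch (X : SimpleGraph V) (A : Set V) : V → V → Prop :=
  Relation.ReflTransGen (fun a b => X.Adj a b ∧ a ∈ A ∧ b ∈ A)

/-- The vertices of `A` reachable from `x` inside `A`. -/
def comp (X : SimpleGraph V) (A : Set V) (x : V) : Set V := {y | y ∈ A ∧ Rch X A x y}

section basic

variable {X : SimpleGraph V} {A B : Set V} {x y z : V}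

lemma Rch.rfl' : Rch X A x x := Relation.ReflTransGen.refl

lemma Rch.symm (h : Rch X A x y) : Rch X A y x := by
  induction h with
  | refl => exact Relation.ReflTransGen.refl
  | tail _ hbc ih => exact Relation.ReflTransGen.head ⟨hbc.1.symm, hbc.2.2, hbc.2.1⟩ ih

lemma Rch.trans (h : Rch X A x y) (h' : Rch X A y z) : Rch X A x z :=
  Relation.ReflTransGen.trans h h'

lemma Rch.mono (hAB : A ⊆ B) (h : Rch X A x y) : Rch X B x y := by
  induction h with
  | refl => exact Relation.ReflTransGen.refl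
  | tail _ hbc ih => exact Relation.ReflTransGen.tail ih ⟨hbc.1, hAB hbc.2.1, hAB hbc.2.2⟩

lemma Rch.step (h : X.Adj x y) (hx : x ∈ A) (hy : y ∈ A) : Rch X A x y :=
  Relation.ReflTransGen.single ⟨h, hx, hy⟩

lemma Rch.mem_right (h : Rch X A x y) (hx : x ∈ A) : y ∈ A := by
  cases h with
  | refl => exact hx
  | tail _ hbc => exact hbc.2.2

lemma mem_comp : y ∈ comp X A x ↔ y ∈ A ∧ Rch X A x y := Iff.rfl

lemma self_mem_comp (hx : x ∈ A) : x ∈ comp X A x := ⟨hx, Rch.rfl'⟩

lemma comp_subset : comp X A x ⊆ A := fun _ h => h.1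

lemma comp_closed (hy : y ∈ comp X A x) (hz : z ∈ A) (h : X.Adj y z) : z ∈ comp X A x :=
  ⟨hz, hy.2.trans (Rch.step h hy.1 hz)⟩

lemma comp_rch_aux (h : Rch X A x y) : Rch X (comp X A x) x y := by
  induction h with
  | refl => exact Rch.rfl'
  | @tail b c hab hbc ih =>
    have hb : b ∈ comp X A x := ⟨hbc.2.1, hab⟩
    exact ih.trans (Rch.step hbc.1 hb (comp_closed hb hbc.2.2 hbc.1))

lemma comp_rch (hy : y ∈ comp X A x) (hz : z ∈ comp X A x) :
    Rch X (comp X A x) y z :=
  (comp_rch_aux hy.2).symm.trans (comp_rch_aux hz.2)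

lemma comp_mono (hAB : A ⊆ B) : comp X A x ⊆ comp X B x :=
  fun _ h => ⟨hAB h.1, h.2.mono hAB⟩

/-- a path uses only finitely many vertices. -/
lemma Rch.exists_finset (hx : x ∈ A) (h : Rch X A x y) :
    ∃ P : Finset V, (P : Set V) ⊆ A ∧ x ∈ P ∧ y ∈ P ∧ Rch X (P : Set V) x y := by
  classical
  induction h with
  | refl =>
    refine ⟨{x}, ?_, by simp, by simp, Rch.rfl'⟩
    simpa using hx
  | @tail b c hab hbc ih =>
    obtain ⟨P, hPA, hxP, hbP, hP⟩ := ih
    refine ⟨insert c P, ?_, by simp [hxP], by simp, ?_⟩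
    · intro v hv
      simp only [Finset.coe_insert, Set.mem_insert_iff] at hv
      rcases hv with rfl | hv
      · exact hbc.2.2
      · exact hPA hv
    · refine (hP.mono (by simp)).trans (Rch.step hbc.1 ?_ ?_)
      · simp [hbP]
      · simp

end basic

end Pool.Agent.Lib_helper79
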