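import Pool.Agent.Lib_helper79.DiaCograph

/-! Triangle-free graphs in which every induced `P₄` is dominating have bounded block structure. -/

namespace H79.BlockWQO

open Set

variable {V : Type} {G : SimpleGraph V}

/-- every induced `P₄` of `G[A]` dominates `A` -/
def P4dom (G : SimpleGraph V) (A : Set V) : Prop :=
  ∀ p ∈ A, ∀ q ∈ A, ∀ r ∈ A, ∀ s ∈ A, ∀ t ∈ A, G.Adj p q → G.Adj q r → G.Adj r s →
    ¬ G.Adj p r → ¬ G.Adj p s → ¬ G.Adj q s →
    t = p ∨ t = q ∨ t = r ∨ t = s ∨ G.Adj t p ∨ G.Adj t q ∨ G.Adj t r ∨ G.Adj t s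

/-- no triangle in `A` -/
def TriFree (G : SimpleGraph V) (A : Set V) : Prop :=
  ∀ a ∈ A, ∀ b ∈ A, ∀ c ∈ A, G.Adj a b → G.Adj b c → ¬ G.Adj a c

/-- an induced `C₅` -/
def IsC5 (G : SimpleGraph V) (A : Set V) (c : Fin 5 → V) : Prop :=
  (∀ i, c i ∈ A) ∧ (∀ i, G.Adj (c i) (c (i + 1))) ∧ ∀ i, ¬ G.Adj (c i) (c (i + 2))

theorem fa (i : Fin 5) : i + 3 + 2 = i := by revert i; decide
theorem fb (i : Fin 5) : i + 1 + 1 = i + 2 := by revert i; decide
theorem fc (i : Fin 5) : i + 2 + 1 = i + 3 := by revert i; decide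
theorem fd (i : Fin 5) : i + 1 + 2 = i + 3 := by revert i; decide
theorem fe (i : Fin 5) : i + 3 + 1 = i + 4 := by revert i; decide
theorem ff (i : Fin 5) : i + 4 + 1 = i := by revert i; decide

theorem bool_fact : ∀ t : Fin 5 → Bool, (∀ i, ¬ (t i = true ∧ t (i + 1) = true)) →
    (∀ i, t i = true ∨ t (i + 1) = true ∨ t (i + 2) = true ∨ t (i + 3) = true) →
    ∃ k, ∀ i, t i = true ↔ (i = k + 1 ∨ i = k + 4) := by
  decide

theorem c5_trace {A : Set V} (hT : TriFree G A) (hP : P4dom G A) {c : Fin 5 → V}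
    (hc : IsC5 G A c) {v : V} (hv : v ∈ A) :
    ∃ k, ∀ i, G.Adj v (c i) ↔ (i = k + 1 ∨ i = k + 4) := by
  classical
  obtain ⟨hA, h1, h2⟩ := hc
  have h3 : ∀ i, ¬ G.Adj (c i) (c (i + 3)) := by
    intro i h
    have := h2 (i + 3)
    rw [fa] at this
    exact this h.symm
  have hb := bool_fact (fun i => decide (G.Adj v (c i))) ?_ ?_
  · obtain ⟨k, hk⟩ := hb
    refine ⟨k, fun i => ?_⟩
    rw [← hk i]
    simp
  · intro i
    simp only [decide_eq_true_eq, not_and]
    intro h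
    exact hT v hv (c i) (hA i) (c (i + 1)) (hA _) h (h1 i)
  · intro i
    simp only [decide_eq_true_eq]
    have e1 : G.Adj (c (i + 1)) (c (i + 2)) := by
      have := h1 (i + 1)
      rwa [fb] at this
    have e2 : G.Adj (c (i + 2)) (c (i + 3)) := by
      have := h1 (i + 2)
      rwa [fc] at this
    have e3 : ¬ G.Adj (c (i + 1)) (c (i + 3)) := by
      have := h2 (i + 1)
      rwa [fd] at this
    have e4 : G.Adj (c (i + 3)) (c (i + 4)) := by
      have := h1 (i + 3)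
      rwa [fe] at this
    have e5 : G.Adj (c (i + 4)) (c i) := by
      have := h1 (i + 4)
      rwa [ff] at this
    rcases hP (c i) (hA _) (c (i + 1)) (hA _) (c (i + 2)) (hA _) (c (i + 3)) (hA _) v hv
      (h1 i) e1 e2 (h2 i) (h3 i) e3 with h | h | h | h | h | h | h | h
    · rw [h]; exact Or.inr (Or.inl (h1 i))
    · rw [h]; exact Or.inl (h1 i).symm
    · rw [h]; exact Or.inr (Or.inl e1.symm)
    · rw [h]; exact Or.inr (Or.inr (Or.inl e2.symm))
    · exact Or.inl h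
    · exact Or.inr (Or.inl h)
    · exact Or.inr (Or.inr (Or.inl h))
    · exact Or.inr (Or.inr (Or.inr h))

theorem c5_str [Finite V] {A : Set V} (hT : TriFree G A) (hP : P4dom G A) {c : Fin 5 → V}
    (hc : IsC5 G A c) : Str G 5 1 A := by
  classical
  have htr := fun v (hv : v ∈ A) => c5_trace hT hP hc hv
  choose k hk using htr
  let ℓ : V → ℕ := fun v => if h : v ∈ A then (k v h : ℕ) else 0
  refine ⟨ℓ, ?_, ?_⟩
  · intro v hv
    simp only [ℓ, dif_pos hv]
    exact (k v hv).2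
  · refine Blk.one (fun p q => q % 5 = (p + 1) % 5 ∨ q % 5 = (p + 4) % 5) ?_
    intro u hu v hv _
    simp only [ℓ, dif_pos hu, dif_pos hv]
    -- replace the clone of `u` by `u`
    let i := k u hu
    have hi : ∀ j, G.Adj u (c j) ↔ (j = i + 1 ∨ j = i + 4) := hk u hu
    have hcv : ∀ j, G.Adj v (c j) ↔ (j = k v hv + 1 ∨ j = k v hv + 4) := hk v hv
    let c' : Fin 5 → V := fun j => if j = i then u else c j
    obtain ⟨hA, h1, h2⟩ := hc
    have hc' : IsC5 G A c' := by
      refine ⟨?_, ?_, ?_⟩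
      · intro j
        simp only [c']
        split_ifs
        · exact hu
        · exact hA j
      · intro j
        simp only [c']
        by_cases hj : j = i
        · have hj1 : j + 1 ≠ i := by
            rw [hj]; generalize i = i'; revert i'; decide
          rw [if_pos hj, if_neg hj1, hi]
          left; rw [hj]
        · by_cases hj1 : j + 1 = i
          · rw [if_neg hj, if_pos hj1]
            have : G.Adj u (c j) := by
              rw [hi]; right; rw [← hj1]; generalize j = j'; revert j'; decide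
            exact this.symm
          · rw [if_neg hj, if_neg hj1]; exact h1 j
      · intro j
        simp only [c']
        by_cases hj : j = i
        · have hj1 : j + 2 ≠ i := by
            rw [hj]; generalize i = i'; revert i'; decide
          rw [if_pos hj, if_neg hj1, hi]
          rw [hj]; generalize i = i'; revert i'; decide
        · by_cases hj1 : j + 2 = i
          · rw [if_neg hj, if_pos hj1]
            have : ¬ G.Adj u (c j) := by
              rw [hi]; rw [← hj1]; generalize j = j'; revert j'; decide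
            exact fun h => this h.symm
          · rw [if_neg hj, if_neg hj1]; exact h2 j
    obtain ⟨m, hm⟩ := c5_trace hT hP hc' hv
    have hmu : G.Adj v u ↔ (i = m + 1 ∨ i = m + 4) := by
      have := hm i
      simpa [c'] using this
    have hmo : ∀ j, j ≠ i → ((j = k v hv + 1 ∨ j = k v hv + 4) ↔ (j = m + 1 ∨ j = m + 4)) := by
      intro j hj
      have := hm j
      simp only [c', if_neg hj] at this
      rw [← this, hcv]
    have key : m = k v hv := by
      clear hm hmu hcv hi hc'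
      generalize i = i' at hmo
      generalize k v hv = k' at hmo ⊢
      revert m i' k'
      decide
    rw [SimpleGraph.adj_comm, hmu, key]
    change (k u hu = k v hv + 1 ∨ k u hu = k v hv + 4) ↔ _
    generalize k u hu = a
    generalize k v hv = b
    revert a b
    decide

theorem bip_claim {A S T : Set V} (hSA : S ⊆ A) (hTA : T ⊆ A) (hP : P4dom G A)
    (hS : ∀ u ∈ S, ∀ v ∈ S, ¬ G.Adj u v) (hT : ∀ u ∈ T, ∀ v ∈ T, ¬ G.Adj u v)
    (hd : ∀ u ∈ S, u ∉ T) {p1 p2 p3 p4 : V} (h1 : p1 ∈ S) (h2 : p2 ∈ T) (h3 : p3 ∈ S)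
    (h4 : p4 ∈ T) (h23 : G.Adj p2 p3) (h34 : G.Adj p3 p4)
    (hS' : ∀ u ∈ S, G.Adj u p2 ∨ G.Adj u p4) (hT' : ∀ u ∈ T, G.Adj u p1 ∨ G.Adj u p3)
    {b1 b2 a0 a1 : V} (hb1 : b1 ∈ T) (hb2 : b2 ∈ T) (ha0 : a0 ∈ S) (ha1 : a1 ∈ S)
    (n1 : ¬ G.Adj a0 b1) (n2 : ¬ G.Adj a0 b2) (e1 : G.Adj a1 b1) : G.Adj a1 b2 := by
  by_contra hn
  -- no common neighbour
  have hcom : ∀ a2 ∈ S, G.Adj a2 b1 → ¬ G.Adj a2 b2 := by
    intro a2 ha2 f1 f2
    rcases hP a1 (hSA ha1) b1 (hTA hb1) a2 (hSA ha2) b2 (hTA hb2) a0 (hSA ha0) e1 f1.symm f2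
      (hS _ ha1 _ ha2) hn (hT _ hb1 _ hb2) with h | h | h | h | h | h | h | h
    · subst h; exact n1 e1
    · subst h; exact hd _ ha0 hb1
    · subst h; exact n1 f1
    · subst h; exact hd _ ha0 hb2
    · exact hS _ ha0 _ ha1 h
    · exact n1 h
    · exact hS _ ha0 _ ha2 h
    · exact n2 h
  obtain ⟨a3, ha3, e3⟩ : ∃ a3 ∈ S, G.Adj a3 b2 := by
    rcases hT' b2 hb2 with h | h
    · exact ⟨p1, h1, h.symm⟩
    · exact ⟨p3, h3, h.symm⟩
  have n3 : ¬ G.Adj a3 b1 := fun h => hcom a3 ha3 h e3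
  -- a helper: impossible configuration
  have imp : ∀ x y z w : V, x ∈ T → y ∈ S → z ∈ T → w ∈ S → ∀ (p q : V), p ∈ T → q ∈ T →
      G.Adj p y → G.Adj y q → True := fun _ _ _ _ _ _ _ _ _ _ _ _ _ _ => trivial
  have hb : ∃ b ∈ T, G.Adj a1 b ∧ G.Adj b a3 := by
    -- general statement for the crossed case
    have cross : ∀ q ∈ T, ∀ q' ∈ T, G.Adj q p3 → G.Adj p3 q' → G.Adj a1 q → ¬ G.Adj a1 q' →
        G.Adj a3 q' → ¬ G.Adj a3 q → False := by
      intro q hq q' hq' f1 f2 g1 g2 g3 g4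
      have hp3a1 : ¬ G.Adj a1 p3 := hS _ ha1 _ h3
      have k2 : G.Adj p3 b2 := by
        rcases hP a1 (hSA ha1) q (hTA hq) p3 (hSA h3) q' (hTA hq') b2 (hTA hb2) g1 f1 f2
          hp3a1 g2 (hT _ hq _ hq') with h | h | h | h | h | h | h | h
        · subst h; exact (hd _ ha1 hb2).elim
        · subst h; exact (hn g1).elim
        · subst h; exact (hd _ h3 hb2).elim
        · subst h; exact f2
        · exact (hn h.symm).elim
        · exact (hT _ hb2 _ hq h).elim
        · exact h.symm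
        · exact (hT _ hb2 _ hq' h).elim
      have k1 : G.Adj p3 b1 := by
        rcases hP q (hTA hq) p3 (hSA h3) q' (hTA hq') a3 (hSA ha3) b1 (hTA hb1) f1 f2 g3.symm
          (hT _ hq _ hq') (fun h => g4 h.symm) (hS _ h3 _ ha3) with h | h | h | h | h | h | h | h
        · subst h; exact f1.symm
        · subst h; exact (hd _ h3 hb1).elim
        · subst h; exact (n3 g3).elim
        · subst h; exact (hd _ ha3 hb1).elim
        · exact (hT _ hb1 _ hq h).elim
        · exact h.symm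
        · exact (hT _ hb1 _ hq' h).elim
        · exact (n3 h.symm).elim
      exact hcom p3 h3 k1 k2
    by_contra hcon
    push Not at hcon
    rcases hS' a1 ha1 with g | g <;> rcases hS' a3 ha3 with g' | g'
    · exact hcon p2 h2 g g'.symm
    · exact cross p2 h2 p4 h4 h23 h34 g (fun h => hcon p4 h4 h g'.symm) g'
        (fun h => hcon p2 h2 g h.symm)
    · exact cross p4 h4 p2 h2 h34.symm h23.symm g (fun h => hcon p2 h2 h g'.symm) g'
        (fun h => hcon p4 h4 g h.symm)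
    · exact hcon p4 h4 g g'.symm
  obtain ⟨b, hbT, f1, f2⟩ := hb
  have f3 : G.Adj a0 b := by
    rcases hP b1 (hTA hb1) a1 (hSA ha1) b (hTA hbT) a3 (hSA ha3) a0 (hSA ha0) e1.symm f1 f2
      (hT _ hb1 _ hbT) (fun h => n3 h.symm) (hS _ ha1 _ ha3) with h | h | h | h | h | h | h | h
    · subst h; exact (hd _ ha0 hb1).elim
    · subst h; exact (n1 e1).elim
    · subst h; exact (hd _ ha0 hbT).elim
    · subst h; exact (n2 e3).elim
    · exact (n1 h).elim
    · exact (hS _ ha0 _ ha1 h).elim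
    · exact h
    · exact (hS _ ha0 _ ha3 h).elim
  rcases hP b1 (hTA hb1) a1 (hSA ha1) b (hTA hbT) a0 (hSA ha0) b2 (hTA hb2) e1.symm f1 f3.symm
      (hT _ hb1 _ hbT) (fun h => n1 h.symm) (hS _ ha1 _ ha0) with h | h | h | h | h | h | h | h
  · subst h; exact hn e1
  · subst h; exact hd _ ha1 hb2
  · subst h; exact hn f1
  · subst h; exact hd _ ha0 hb2
  · exact hT _ hb2 _ hb1 h
  · exact hn h.symm
  · exact hT _ hb2 _ hbT h
  · exact n2 h.symm

/-- block structure from the bipartite claim -/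
theorem bip_str [Finite V] {A S T : Set V} (hAST : ∀ v ∈ A, v ∈ S ∨ v ∈ T)
    (hS : ∀ u ∈ S, ∀ v ∈ S, ¬ G.Adj u v) (hT : ∀ u ∈ T, ∀ v ∈ T, ¬ G.Adj u v)
    (hd : ∀ u ∈ S, u ∉ T)
    (hcl : ∀ b1 ∈ T, ∀ b2 ∈ T, ∀ a0 ∈ S, ∀ a1 ∈ S, ¬ G.Adj a0 b1 → ¬ G.Adj a0 b2 →
      G.Adj a1 b1 → G.Adj a1 b2) : Str G 2 2 A := by
  classical
  let N : V → Set V := fun b => {a | a ∈ S ∧ G.Adj a b}
  have hN : ∀ b1 ∈ T, ∀ b2 ∈ T, ∀ a0 ∈ S, ¬ G.Adj a0 b1 → ¬ G.Adj a0 b2 → N b1 = N b2 := by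
    intro b1 hb1 b2 hb2 a0 ha0 n1 n2
    ext a
    exact ⟨fun h => ⟨h.1, hcl b1 hb1 b2 hb2 a0 ha0 a h.1 n1 n2 h.2⟩,
      fun h => ⟨h.1, hcl b2 hb2 b1 hb1 a0 ha0 a h.1 n2 n1 h.2⟩⟩
  let c : V → Option (Set V) := fun v =>
    if v ∈ T then some (N v) else
      if h : ∃ b ∈ T, ¬ G.Adj v b then some (N h.choose) else none
  have cT : ∀ v ∈ T, c v = some (N v) := by
    intro v hv
    simp only [c, if_pos hv]
  have cS : ∀ v ∈ S, ∀ b ∈ T, ¬ G.Adj v b → c v = some (N b) := by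
    intro v hv b hb hvb
    have h : ∃ b ∈ T, ¬ G.Adj v b := ⟨b, hb, hvb⟩
    simp only [c, if_neg (hd v hv), dif_pos h, Option.some.injEq]
    exact hN _ h.choose_spec.1 _ hb v hv h.choose_spec.2 hvb
  have cS' : ∀ v ∈ S, ∀ X, c v = some X → ∃ b ∈ T, ¬ G.Adj v b ∧ X = N b := by
    intro v hv X hX
    simp only [c, if_neg (hd v hv)] at hX
    split_ifs at hX with h
    exact ⟨h.choose, h.choose_spec.1, h.choose_spec.2, by simpa using hX.symm⟩
  refine ⟨fun v => if v ∈ T then 1 else 0, ?_, ?_⟩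
  · intro v _
    dsimp only
    split_ifs <;> omega
  · refine Blk.of_index c (fun p q => p ≠ q) ?_ ?_
    · intro u hu v hv huv
      rcases hAST u hu with hu' | hu' <;> rcases hAST v hv with hv' | hv'
      · simp [hd u hu', hd v hv', hS u hu' v hv']
      · simp only [if_neg (hd u hu'), if_pos hv']
        simp only [ne_eq, zero_ne_one, not_false_eq_true, iff_true]
        by_contra hn
        exact huv ((cS u hu' v hv' hn).trans (cT v hv').symm)
      · simp only [if_neg (hd v hv'), if_pos hu']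
        simp only [ne_eq, one_ne_zero, not_false_eq_true, iff_true]
        by_contra hn
        exact huv ((cT u hu').trans (cS v hv' u hu' (fun h => hn h.symm)).symm)
      · simp [hu', hv', hT u hu' v hv']
    · intro w hw
      refine Blk.one (fun _ _ => False) ?_
      rintro u ⟨hu, hcu⟩ v ⟨hv, hcv⟩ _
      simp only [iff_false]
      have hc : c u = c v := hcu.trans hcv.symm
      have key : ∀ a ∈ S, ∀ b ∈ T, c a = c b → ¬ G.Adj a b := by
        intro a ha b hb hab h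
        rw [cT b hb] at hab
        obtain ⟨b', hb', hn, hX⟩ := cS' a ha _ hab
        have : a ∈ N b := ⟨ha, h⟩
        rw [hX] at this
        exact hn this.2
      rcases hAST u hu with hu' | hu' <;> rcases hAST v hv with hv' | hv'
      · exact hS u hu' v hv'
      · exact key u hu' v hv' hc
      · exact fun h => key v hv' u hu' hc.symm h.symm
      · exact hT u hu' v hv'

theorem trifree_str [Finite V] {A : Set V} (hD : Dia G) (hT : TriFree G A) (hP : P4dom G A) :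
    Str G 5 3 A := by
  classical
  by_cases h5 : ∃ c, IsC5 G A c
  · obtain ⟨c, hc⟩ := h5
    exact (c5_str hT hP hc).mono le_rfl (by omega)
  by_cases h4 : P4free G A
  · exact (cograph_str hD h4).mono (by omega) le_rfl
  unfold P4free at h4
  push Not at h4
  obtain ⟨p1, h1, p2, h2, p3, h3, p4, h4, e12, e23, e34, n13, n14, n24, -⟩ := h4
  have noC5 : ∀ a ∈ A, ∀ b ∈ A, ∀ c ∈ A, ∀ d ∈ A, ∀ e ∈ A, G.Adj a b → G.Adj b c → G.Adj c d →
      G.Adj d e → G.Adj e a → False := by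
    intro a ha b hb c hc d hd e he hab hbc hcd hde hea
    apply h5
    refine ⟨![a, b, c, d, e], ?_, ?_, ?_⟩
    · intro i; fin_cases i
      · exact ha
      · exact hb
      · exact hc
      · exact hd
      · exact he
    · intro i; fin_cases i
      · exact hab
      · exact hbc
      · exact hcd
      · exact hde
      · exact hea
    · intro i; fin_cases i
      · exact hT a ha b hb c hc hab hbc
      · exact hT b hb c hc d hd hbc hcd
      · exact hT c hc d hd e he hcd hde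
      · exact hT d hd e he a ha hde hea
      · exact hT e he a ha b hb hea hab
  let S : Set V := {v | v ∈ A ∧ (G.Adj v p2 ∨ G.Adj v p4)}
  let T : Set V := {v | v ∈ A ∧ (G.Adj v p1 ∨ G.Adj v p3)}
  have hSA : S ⊆ A := fun v hv => hv.1
  have hTA : T ⊆ A := fun v hv => hv.1
  have hAST : ∀ v ∈ A, v ∈ S ∨ v ∈ T := by
    intro v hv
    rcases hP p1 h1 p2 h2 p3 h3 p4 h4 v hv e12 e23 e34 n13 n14 n24 with
      h | h | h | h | h | h | h | h
    · subst h; exact Or.inl ⟨hv, Or.inl e12⟩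
    · subst h; exact Or.inr ⟨hv, Or.inr e23⟩
    · subst h; exact Or.inl ⟨hv, Or.inl e23.symm⟩
    · subst h; exact Or.inr ⟨hv, Or.inr e34.symm⟩
    · exact Or.inr ⟨hv, Or.inl h⟩
    · exact Or.inl ⟨hv, Or.inl h⟩
    · exact Or.inr ⟨hv, Or.inr h⟩
    · exact Or.inl ⟨hv, Or.inr h⟩
  have hd : ∀ u ∈ S, u ∉ T := by
    rintro u ⟨hu, h | h⟩ ⟨_, h' | h'⟩
    · exact hT u hu p1 h1 p2 h2 h' e12 h
    · exact hT u hu p2 h2 p3 h3 h e23 h'
    · exact noC5 u hu p1 h1 p2 h2 p3 h3 p4 h4 h' e12 e23 e34 h.symm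
    · exact hT u hu p3 h3 p4 h4 h' e34 h
  have hS : ∀ u ∈ S, ∀ v ∈ S, ¬ G.Adj u v := by
    rintro u ⟨hu, h | h⟩ v ⟨hv, h' | h'⟩ huv
    · exact hT u hu v hv p2 h2 huv h' h
    · exact noC5 u hu p2 h2 p3 h3 p4 h4 v hv h e23 e34 h'.symm huv.symm
    · exact noC5 v hv p2 h2 p3 h3 p4 h4 u hu h' e23 e34 h.symm huv
    · exact hT u hu v hv p4 h4 huv h' h
  have hT' : ∀ u ∈ T, ∀ v ∈ T, ¬ G.Adj u v := by
    rintro u ⟨hu, h | h⟩ v ⟨hv, h' | h'⟩ huv
    · exact hT u hu v hv p1 h1 huv h' h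
    · exact noC5 u hu p1 h1 p2 h2 p3 h3 v hv h e12 e23 h'.symm huv.symm
    · exact noC5 v hv p1 h1 p2 h2 p3 h3 u hu h' e12 e23 h.symm huv
    · exact hT u hu v hv p3 h3 huv h' h
  refine (bip_str hAST hS hT' hd ?_).mono (by omega) (by omega)
  intro b1 hb1 b2 hb2 a0 ha0 a1 ha1 n1 n2 f1
  exact bip_claim hSA hTA hP hS hT' hd (p1 := p1) (p2 := p2) (p3 := p3) (p4 := p4)
    ⟨h1, Or.inl e12⟩ ⟨h2, Or.inr e23⟩ ⟨h3, Or.inl e23.symm⟩ ⟨h4, Or.inr e34.symm⟩ e23 e34
    (fun u hu => hu.2) (fun u hu => hu.2) hb1 hb2 ha0 ha1 n1 n2 f1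

end H79.BlockWQO
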